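import Pool.Agent.H94_fr.Gen

/-!
# The arc of configurations defined by a formal deformation
-/

namespace Pool.Agent.H94_hk

open PowerSeries Pool.Agent.H94_fr

noncomputable section

namespace TConf

variable {k r : ℕ} {T : TConf k r} {z : Fin k → KK} {n : ℕ} (h : T.Rts n z)

/-- Invariant functions with bounded poles. -/
def SM (T : TConf k r) (z : Fin k → KK) (c : Crv k r → ℕ) (D : Crv k r) :
    Submodule ℂ (CR z) where
  carrier := {x | (x : KK) ∈ F0 ∧ (x : KK) ∈ T.SP z D (c D)}
  add_mem' := fun hx hy => ⟨add_mem hx.1 hy.1, add_mem hx.2 hy.2⟩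
  zero_mem' := ⟨F0.zero_mem, zero_mem _⟩
  smul_mem' := fun a _ hx => ⟨F0.smul_mem hx.1 a, Submodule.smul_mem _ a hx.2⟩

/-- Global functions with bounded poles, in a deformation with potentials `χ`. -/
def SecP (T : TConf k r) (z : Fin k → KK) (χ : Crv k r → Crv k r → PG (CR z))
    (c : Crv k r → ℕ) (f : (CR z)⟦X⟧) : Prop :=
  ∀ D D', T.meet D D' → ∀ l, coeff l (χ D D' f) ∈ T.SM z c D

theorem SecP.sub {χ : Crv k r → Crv k r → PG (CR z)} {c : Crv k r → ℕ} {f g : (CR z)⟦X⟧}
    (hf : T.SecP z χ c f) (hg : T.SecP z χ c g) : T.SecP z χ c (f - g) := fun D D' hm l => by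
  rw [map_sub, map_sub]
  exact sub_mem (hf D D' hm l) (hg D D' hm l)

theorem SecP.sum {χ : Crv k r → Crv k r → PG (CR z)} {c : Crv k r → ℕ} {s : ℕ}
    {e : Fin s → (CR z)⟦X⟧} (he : ∀ j, T.SecP z χ c (e j)) (v : Fin s → ℂ) :
    T.SecP z χ c (∑ j, al (C (v j)) * e j) := fun D D' hm l => by
  rw [map_sum, map_sum]
  refine sum_mem fun j _ => ?_
  have h1 : χ D D' (al (C (v j)) * e j) = C (algebraMap ℂ (CR z) (v j)) * χ D D' (e j) := by
    rw [map_mul]
    congr 1
    rw [al, map_C]
    exact pg_algC _ _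
  rw [h1, coeff_C_mul, ← Algebra.smul_def]
  exact Submodule.smul_mem _ _ (he j D D' hm l)

theorem SecP.ofX {χ : Crv k r → Crv k r → PG (CR z)} {c : Crv k r → ℕ} {f : (CR z)⟦X⟧}
    (hf : T.SecP z χ c (X * f)) : T.SecP z χ c f := fun D D' hm l => by
  have h1 := hf D D' hm (l + 1)
  have h2 : χ D D' (X * f) = X * χ D D' f := by
    have := pg_X_pow_mul (χ D D') 1 f
    rwa [pow_one] at this
  rwa [h2, coeff_succ_X_mul] at h1

theorem SecP.const {χ : Crv k r → Crv k r → PG (CR z)} (hχ : T.Pt z χ) (hT : T.Full)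
    {c : Crv k r → ℕ} {f : (CR z)⟦X⟧} (hf : T.SecP z χ c f) (D : Crv k r) :
    constantCoeff f ∈ T.SM z c D := by
  obtain ⟨D', hm⟩ := T.exists_meet hT D
  have h1 := hf D D' hm 0
  rwa [coeff_zero_eq_constantCoeff_apply, hχ.uni] at h1

theorem mul_SP (hz0 : ∀ i, z i ≠ 0) {D : Crv k r} {c : ℕ} {e : Fin k → ℤ} (he : ∑ i, e i = 0)
    (ho : -(c : ℤ) ≤ T.ord D e) {x : KK}
    (hx : x ∈ Submodule.span ℂ (zm z '' {e | ∑ i, e i = 0 ∧ 0 ≤ T.ord D e})) :
    zm z e * x ∈ T.SP z D c := by
  induction hx using Submodule.span_induction with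
  | mem x hx =>
    obtain ⟨e', ⟨he1, he2⟩, rfl⟩ := hx
    rw [← zm_add hz0]
    refine Submodule.subset_span ⟨_, ⟨?_, ?_⟩, rfl⟩
    · simp only [Pi.add_apply, Finset.sum_add_distrib, he, he1, add_zero]
    · rw [ord_add]; omega
  | zero => rw [mul_zero]; exact zero_mem _
  | add x y _ _ hx hy => rw [mul_add]; exact add_mem hx hy
  | smul a x _ hx => rw [mul_smul_comm]; exact Submodule.smul_mem _ _ hx

theorem SP_mono {D : Crv k r} {c c' : ℕ} (hc : c ≤ c') : T.SP z D c ≤ T.SP z D c' := by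
  refine Submodule.span_mono (Set.image_mono ?_)
  rintro e ⟨h1, h2⟩
  refine ⟨h1, ?_⟩
  omega

include h in
theorem ratio_SM {D D' : Crv k r} (hm : T.meet D D') {c : Crv k r → ℕ} {i j : Fin k}
    (hc : n * T.val D j ≤ n * T.val D i + c D) {b : CR z} (hb : b ∈ T.Bg z D D') :
    rt z i j ^ n * b ∈ T.SM z c D := by
  have hz0 := h.hz0
  have h1 : ((rt z i j ^ n * b : CR z) : KK) = zm z (fun l => (n : ℤ) * rv i j l) * (b : KK) := by
    have h2 : zm z (fun l => (n : ℤ) * rv i j l) = (z i / z j) ^ n := by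
      rw [← zm_rv hz0, zm, zm, ← Finset.prod_pow]
      refine Finset.prod_congr rfl fun l _ => ?_
      rw [mul_comm, zpow_mul, zpow_natCast]
    rw [h2]; rfl
  constructor
  · change ((rt z i j ^ n * b : CR z) : KK) ∈ F0
    rw [h1]
    exact mul_mem (zm_mem_F0 h fun l => Dvd.intro _ rfl) hb.2
  · change ((rt z i j ^ n * b : CR z) : KK) ∈ T.SP z D (c D)
    rw [h1]
    refine mul_SP hz0 ?_ ?_ ((mem_RD h).mp (chart_le_RD hm hb.1))
    · rw [← Finset.mul_sum, sum_rv, mul_zero]
    · rw [ord_smul, ord_rv]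
      have h3 : ((n * T.val D j : ℕ) : ℤ) ≤ ((n * T.val D i + c D : ℕ) : ℤ) := by exact_mod_cast hc
      push_cast at h3
      linarith

include h in
theorem const_eq_lin {x : CR z} {i0 : Fin k} {v : Fin 3 → ℂ}
    (hv : (x : KK) * algebraMap R3 KK (T.L i0) = algebraMap R3 KK (lin v)) {s : ℕ}
    {e : Fin s → CR z} {f : Fin s → Fin 3 → ℂ} {w : Fin s → ℂ}
    (he : ∀ j, (e j : KK) * algebraMap R3 KK (T.L i0) = algebraMap R3 KK (lin (f j)))
    (hvw : v = ∑ j, w j • f j) : x = ∑ j, algebraMap ℂ (CR z) (w j) * e j := by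
  apply Subtype.ext
  have hL : algebraMap R3 KK (T.L i0) ≠ 0 := by
    rw [← h.hz]; exact pow_ne_zero _ (h.hz0 i0)
  apply mul_right_cancel₀ hL
  rw [hv, hvw]
  have h1 : ((∑ j, algebraMap ℂ (CR z) (w j) * e j : CR z) : KK) =
      ∑ j, algebraMap ℂ KK (w j) * (e j : KK) := by
    rw [AddSubmonoidClass.coe_finsetSum]
    rfl
  rw [h1, Finset.sum_mul]
  have h2 : lin (∑ j, w j • f j) = ∑ j, MvPolynomial.C (w j) * lin (f j) := by
    have h6 : ∀ s' : Finset (Fin s), lin (∑ i ∈ s', w i • f i) =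
        ∑ i ∈ s', MvPolynomial.C (w i) * lin (f i) := by
      intro s'
      induction s' using Finset.induction_on with
      | empty => simp [lin]
      | insert x s hx ih =>
        rw [Finset.sum_insert hx, Finset.sum_insert hx, lin_add, lin_smul, ih]
    exact h6 _
  rw [h2, map_sum]
  refine Finset.sum_congr rfl fun j _ => ?_
  rw [map_mul, ← he j]
  have h4 : algebraMap R3 KK (MvPolynomial.C (w j)) = algebraMap ℂ KK (w j) := by
    have h4 : (MvPolynomial.C (w j) : R3) = algebraMap ℂ R3 (w j) := rfl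
    rw [h4, ← IsScalarTower.algebraMap_apply ℂ R3 KK]
  rw [h4]; ring

include h in
theorem rt_lin (i i0 : Fin k) : ((rt z i i0 ^ n : CR z) : KK) * algebraMap R3 KK (T.L i0) =
    algebraMap R3 KK (lin (T.f i)) := by
  have h1 : ((rt z i i0 ^ n : CR z) : KK) = (z i / z i0) ^ n := rfl
  rw [h1, div_pow, ← h.hz i0, div_mul_cancel₀ _ (pow_ne_zero _ (h.hz0 i0)), h.hz i]
  rfl

include h in
/-- The arc of configurations defined by a graded formal deformation. -/
theorem exists_arc {χ : Crv k r → Crv k r → PG (CR z)} (hχ : T.Pt z χ)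
    (hG : ∀ D D' m, Gr m (χ D D')) (i0 : Fin k) : ∃ Z : Fin k → (CR z)⟦X⟧,
      (∀ i, constantCoeff (Z i) = 1) ∧
      (∀ i D D', T.meet D D' → Wd (χ D D') i i0 * χ D D' (Z i) ∈ PSub (T.Bg z D D')) ∧
      ∃ g : Fin k → Fin 3 → ℂ⟦X⟧, (∀ i b, constantCoeff (g i b) = T.f i b) ∧
        (∀ q, ∀ a ∈ T.tri q, ∀ b ∈ T.tri q, ∀ c ∈ T.tri q, a ≠ b →
          ∃ β β' : ℂ⟦X⟧, ∀ s, g c s = β * g b s + β' * g a s) ∧
        ∀ γ : Fin k → ℂ⟦X⟧, (∀ b, ∑ i, γ i * g i b = 0) →
          ∑ i, al (γ i) * (C (rt z i i0 ^ n) * Z i ^ n) = 0 := by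
  have hz0 := h.hz0
  choose Z hZ0 hZ1 hZ2 using fun i => exists_Z h hχ hG i i0
  refine ⟨Z, hZ1, hZ2, ?_⟩
  have hUc : ∀ i D D', constantCoeff (Wd (χ D D') i i0 * χ D D' (Z i)) = 1 := by
    intro i D D'
    rw [map_mul, hχ.uni, hZ1, Wd_const hz0 (hχ.uni D D'), one_mul]
  have hVex := fun a => PSub_inv (hZ0 a) (hZ1 a)
  choose V hV0 hV1 hV2 using hVex
  -- the units
  have hunit : ∀ i a D D', T.meet D D' →
      Wd (χ D D') i a * χ D D' (Z i * V a) ∈ PSub (T.Bg z D D') := by
    intro i a D D' hm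
    obtain ⟨w, hw, hw1, _⟩ := PSub_inv (hZ2 a D D' hm) (hUc a D D')
    have h1 : Wd (χ D D') i a * χ D D' (Z i * V a) = (Wd (χ D D') i i0 * χ D D' (Z i)) * w := by
      have h2 : Wd (χ D D') i a * Wd (χ D D') a i0 = Wd (χ D D') i i0 := Wd_mul hz0 _ _ _ _
      have h3 : χ D D' (Z a) * χ D D' (V a) = 1 := by rw [← map_mul, hV1, map_one]
      rw [map_mul]
      linear_combination (-(Wd (χ D D') i a * χ D D' (Z i) * χ D D' (V a))) * hw1 +
        (Wd (χ D D') a i0 * w * Wd (χ D D') i a * χ D D' (Z i)) * h3 +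
        (χ D D' (Z i) * w) * h2
    rw [h1]
    exact mul_mem (hZ2 i D D' hm) hw
  have hact : ∀ i a (Y : (CR z)⟦X⟧) D D', χ D D' (C (rt z i a ^ n) * Y ^ n) =
      C (rt z i a ^ n) * (Wd (χ D D') i a * χ D D' Y) ^ n := by
    intro i a Y D D'
    rw [map_mul, map_pow, map_pow, map_pow, Wd_spec hz0]
    ring
  let F : Fin k → (CR z)⟦X⟧ := fun i => C (rt z i i0 ^ n) * Z i ^ n
  let c0 : Crv k r → ℕ := fun D => n * T.val D i0
  have hFsec : ∀ i, T.SecP z χ c0 (F i) := by
    intro i D D' hm l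
    simp only [F]
    rw [hact, coeff_C_mul]
    exact ratio_SM h hm (by simp only [c0]; omega) (pow_mem (hZ2 i D D' hm) n l)
  obtain ⟨c, hc⟩ := h.full.exists_coef
  let B : Fin 3 → (CR z)⟦X⟧ := fun b => ∑ l, al (C (c b l)) * F l
  have hBsec : ∀ b, T.SecP z χ c0 (B b) := fun b => SecP.sum hFsec _
  have hFc : ∀ i, constantCoeff (F i) = rt z i i0 ^ n := by
    intro i
    simp only [F]
    rw [map_mul, constantCoeff_C, map_pow, hZ1, one_pow, mul_one]
  have hBc : ∀ b, constantCoeff (B b) = ∑ l, algebraMap ℂ (CR z) (c b l) * rt z l i0 ^ n := by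
    intro b
    simp only [B]
    rw [map_sum]
    refine Finset.sum_congr rfl fun l _ => ?_
    rw [map_mul, hFc]
    congr 1
  have hBlin : ∀ b, ((constantCoeff (B b) : CR z) : KK) * algebraMap R3 KK (T.L i0) =
      algebraMap R3 KK (lin (Pi.single b 1)) := by
    intro b
    rw [hBc]
    have h1 : ((∑ l, algebraMap ℂ (CR z) (c b l) * rt z l i0 ^ n : CR z) : KK) =
        ∑ l, algebraMap ℂ KK (c b l) * ((rt z l i0 ^ n : CR z) : KK) := by
      rw [AddSubmonoidClass.coe_finsetSum]
      rfl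
    rw [h1, Finset.sum_mul, hc b, lin_sum_smul, map_sum]
    refine Finset.sum_congr rfl fun l _ => ?_
    rw [mul_assoc, rt_lin h, map_mul]
    have h4 : algebraMap R3 KK (MvPolynomial.C (c b l)) = algebraMap ℂ KK (c b l) := by
      have h4 : (MvPolynomial.C (c b l) : R3) = algebraMap ℂ R3 (c b l) := rfl
      rw [h4, ← IsScalarTower.algebraMap_apply ℂ R3 KK]
    rw [h4]; rfl
  have hsingle : ∀ v : Fin 3 → ℂ, v = ∑ b, v b • (Pi.single b 1 : Fin 3 → ℂ) := by
    intro v
    funext m
    simp [Finset.sum_apply, Pi.single_apply]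
  have hgen : ∀ f, T.SecP z χ c0 f → ∃ α : Fin 3 → ℂ⟦X⟧, f = ∑ b, al (α b) * B b := by
    intro f hf
    refine gen B (T.SecP z χ c0) (fun _ _ => SecP.sub) (fun v => SecP.sum hBsec v)
      (fun _ => SecP.ofX) ?_ f hf
    intro f hf
    obtain ⟨v, hv, _⟩ := section_lin h (hf.const hχ h.full (Sum.inl i0)).1 i0
      (fun D => (hf.const hχ h.full D).2)
    exact ⟨v, const_eq_lin h hv hBlin (hsingle v)⟩
  choose g hg using fun i => hgen (F i) (hFsec i)
  have hind : ∀ γ : Fin 3 → ℂ⟦X⟧, ∑ b, al (γ b) * B b = 0 → γ = 0 := by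
    intro γ hγ
    refine indep B ?_ γ hγ
    intro v hv
    have h1 := congrArg (fun x : CR z => (x : KK) * algebraMap R3 KK (T.L i0)) hv
    have h2 : ((∑ j, algebraMap ℂ (CR z) (v j) * constantCoeff (B j) : CR z) : KK) =
        ∑ j, algebraMap ℂ KK (v j) * ((constantCoeff (B j) : CR z) : KK) := by
      rw [AddSubmonoidClass.coe_finsetSum]
      rfl
    simp only [h2, ZeroMemClass.coe_zero, zero_mul, Finset.sum_mul, mul_assoc, hBlin] at h1
    have h3 : ∑ j, algebraMap ℂ KK (v j) * algebraMap R3 KK (lin (Pi.single j 1)) =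
        algebraMap R3 KK (lin v) := by
      conv_rhs => rw [hsingle v]
      have h6 : lin (∑ b, v b • (Pi.single b 1 : Fin 3 → ℂ)) =
          ∑ b, MvPolynomial.C (v b) * lin (Pi.single b 1) := by
        simp only [Fin.sum_univ_three, lin_add, lin_smul]
      rw [h6, map_sum]
      refine Finset.sum_congr rfl fun b _ => ?_
      have h4 : algebraMap R3 KK (MvPolynomial.C (v b)) = algebraMap ℂ KK (v b) := by
        have h4 : (MvPolynomial.C (v b) : R3) = algebraMap ℂ R3 (v b) := rfl
        rw [h4, ← IsScalarTower.algebraMap_apply ℂ R3 KK]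
      rw [map_mul, h4]
    rw [h3] at h1
    have h4 : lin v = lin 0 := by
      apply algebraMap_R3_injective
      rw [h1]; simp [lin]
    exact lin_inj h4
  have hlinear : ∀ γ : Fin k → ℂ⟦X⟧, ∑ i, al (γ i) * F i = ∑ b, al (∑ i, γ i * g i b) * B b := by
    intro γ
    have h1 : ∀ i, al (γ i) * F i = ∑ b, al (γ i * g i b) * B b := by
      intro i
      rw [hg i, Finset.mul_sum]
      refine Finset.sum_congr rfl fun b _ => ?_
      rw [al, al, al, map_mul]; ring
    simp only [h1]
    rw [Finset.sum_comm]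
    refine Finset.sum_congr rfl fun b _ => ?_
    rw [← Finset.sum_mul, al, map_sum]
  refine ⟨g, ?_, ?_, ?_⟩
  · intro i
    have h1 := congrArg constantCoeff (hg i)
    rw [hFc, map_sum] at h1
    have h2 : ∀ b, constantCoeff (al (g i b) * B b) =
        algebraMap ℂ (CR z) (constantCoeff (g i b)) * constantCoeff (B b) := by
      intro b
      rw [map_mul]
      congr 1
    simp only [h2] at h1
    have h3 : rt z i i0 ^ n = ∑ b, algebraMap ℂ (CR z) (T.f i b) * constantCoeff (B b) :=
      const_eq_lin h (rt_lin h i i0) hBlin (hsingle (T.f i))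
    have h4 : ∑ b, al (C (constantCoeff (g i b) - T.f i b)) * B b = ∑ b, al (0 : ℂ⟦X⟧) * B b +
        ∑ b, al (C (constantCoeff (g i b) - T.f i b)) * B b := by
      simp [al]
    have h5 : ∑ b, algebraMap ℂ (CR z) (constantCoeff (g i b) - T.f i b) *
        constantCoeff (B b) = 0 := by
      simp only [map_sub, sub_mul, Finset.sum_sub_distrib]
      rw [← h1, ← h3, sub_self]
    have h6 : (fun b => constantCoeff (g i b) - T.f i b) = 0 := by
      have h7 : lin (fun b => constantCoeff (g i b) - T.f i b) = lin 0 := by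
        apply algebraMap_R3_injective
        have h8 : (0 : CR z) = ∑ b, algebraMap ℂ (CR z) (constantCoeff (g i b) - T.f i b) *
          constantCoeff (B b) := h5.symm
        have h9 := congrArg (fun x : CR z => (x : KK) * algebraMap R3 KK (T.L i0)) h8
        have h10 : ((∑ j, algebraMap ℂ (CR z) (constantCoeff (g i j) - T.f i j) *
            constantCoeff (B j) : CR z) : KK) =
            ∑ j, algebraMap ℂ KK (constantCoeff (g i j) - T.f i j) *
              ((constantCoeff (B j) : CR z) : KK) := by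
          rw [AddSubmonoidClass.coe_finsetSum]
          rfl
        simp only [h10, ZeroMemClass.coe_zero, zero_mul, Finset.sum_mul, mul_assoc, hBlin] at h9
        have h11 : lin (fun b => constantCoeff (g i b) - T.f i b) =
            ∑ b, MvPolynomial.C (constantCoeff (g i b) - T.f i b) * lin (Pi.single b 1) := by
          conv_lhs => rw [hsingle (fun b => constantCoeff (g i b) - T.f i b)]
          simp only [Fin.sum_univ_three, lin_add, lin_smul]
        rw [h11, map_sum]
        have h12 : ∀ c : ℂ, algebraMap R3 KK (MvPolynomial.C c) = algebraMap ℂ KK c := by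
          intro c
          have h4 : (MvPolynomial.C c : R3) = algebraMap ℂ R3 c := rfl
          rw [h4, ← IsScalarTower.algebraMap_apply ℂ R3 KK]
        simp only [map_mul, h12]
        rw [← h9]; simp [lin]
      exact lin_inj h7
    intro b
    exact sub_eq_zero.mp (congrFun h6 b)
  · intro q a ha b hb c hc' hab
    let c1 : Crv k r → ℕ := fun D => if D = Sum.inr q then 0 else n * T.val D a
    have hsec1 : ∀ i ∈ T.tri q, T.SecP z χ c1 (C (rt z i a ^ n) * (Z i * V a) ^ n) := by
      intro i hi D D' hm l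
      rw [hact, coeff_C_mul]
      refine ratio_SM h hm ?_ (pow_mem (hunit i a D D' hm) n l)
      simp only [c1]
      split_ifs with hD
      · subst hD
        have e1 : T.val (Sum.inr q : Crv k r) a = 1 := if_pos ha
        have e2 : T.val (Sum.inr q : Crv k r) i = 1 := if_pos hi
        rw [e1, e2]; omega
      · omega
    let e : Fin 2 → (CR z)⟦X⟧ := ![C (rt z b a ^ n) * (Z b * V a) ^ n,
      C (rt z a a ^ n) * (Z a * V a) ^ n]
    have he : ∀ j, T.SecP z χ c1 (e j) := by
      intro j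
      fin_cases j
      · exact hsec1 b hb
      · exact hsec1 a ha
    have hec : ∀ i, constantCoeff (C (rt z i a ^ n) * (Z i * V a) ^ n) = rt z i a ^ n := by
      intro i
      rw [map_mul, constantCoeff_C, map_pow, map_mul, hZ1, hV2, one_mul, one_pow, mul_one]
    have hec' : ∀ j, ((constantCoeff (e j) : CR z) : KK) * algebraMap R3 KK (T.L a) =
        algebraMap R3 KK (lin ((![T.f b, T.f a] : Fin 2 → Fin 3 → ℂ) j)) := by
      intro j
      fin_cases j
      · change ((constantCoeff (C (rt z b a ^ n) * (Z b * V a) ^ n) : CR z) : KK) *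
          algebraMap R3 KK (T.L a) = algebraMap R3 KK (lin (T.f b))
        rw [hec, rt_lin h]
      · change ((constantCoeff (C (rt z a a ^ n) * (Z a * V a) ^ n) : CR z) : KK) *
          algebraMap R3 KK (T.L a) = algebraMap R3 KK (lin (T.f a))
        rw [hec, rt_lin h]
    obtain ⟨α, hα⟩ := gen e (T.SecP z χ c1) (fun _ _ => SecP.sub) (fun v => SecP.sum he v)
      (fun _ => SecP.ofX) (by
        intro f hf
        obtain ⟨v, hv, hvq⟩ := section_lin h (hf.const hχ h.full (Sum.inl a)).1 a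
          (fun D => SP_mono (by simp only [c1]; split_ifs <;> omega)
            (hf.const hχ h.full D).2)
        have hv0 := hvq q ha (by
          have := (hf.const hχ h.full (Sum.inr q)).2
          simpa [c1] using this)
        obtain ⟨s, t, hst⟩ := form_mem hb ha hab v hv0
        refine ⟨![s, t], const_eq_lin h hv hec' ?_⟩
        rw [Fin.sum_univ_two]
        exact hst)
      (C (rt z c a ^ n) * (Z c * V a) ^ n) (hsec1 c hc')
    rw [Fin.sum_univ_two] at hα
    have hmul : ∀ i, (C (rt z i a ^ n) * (Z i * V a) ^ n) * F a = F i := by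
      intro i
      simp only [F]
      have h1 : (C (rt z i a ^ n) : (CR z)⟦X⟧) * C (rt z a i0 ^ n) = C (rt z i i0 ^ n) := by
        rw [← map_mul, ← mul_pow, rt_mul hz0]
      have h2 : (Z i * V a) ^ n * Z a ^ n = Z i ^ n := by
        rw [← mul_pow]
        congr 1
        linear_combination Z i * hV1 a
      linear_combination (Z i * V a) ^ n * Z a ^ n * h1 + C (rt z i i0 ^ n) * h2
    have hF : F c = al (α 0) * F b + al (α 1) * F a := by
      rw [← hmul c, ← hmul b, hα]
      have e1 : e 0 = C (rt z b a ^ n) * (Z b * V a) ^ n := rfl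
      have e2 : e 1 * F a = F a := hmul a
      rw [e1]
      linear_combination al (α 1) * e2
    refine ⟨α 0, α 1, ?_⟩
    have h5 : ∑ s, al (g c s - α 0 * g b s - α 1 * g a s) * B s = 0 := by
      have h6 : ∑ s, al (g c s - α 0 * g b s - α 1 * g a s) * B s = ∑ s, al (g c s) * B s -
          al (α 0) * ∑ s, al (g b s) * B s - al (α 1) * ∑ s, al (g a s) * B s := by
        rw [Finset.mul_sum, Finset.mul_sum, ← Finset.sum_sub_distrib, ← Finset.sum_sub_distrib]
        refine Finset.sum_congr rfl fun s _ => ?_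
        simp only [al, map_sub, map_mul]
        ring
      rw [h6, ← hg, ← hg, ← hg, hF]
      ring
    have h7 := hind _ h5
    intro s
    have h8 := congrFun h7 s
    simp only [Pi.zero_apply] at h8
    linear_combination h8
  · intro γ hγ
    have h1 := hlinear γ
    simp only [hγ, al, map_zero, zero_mul, Finset.sum_const_zero] at h1
    exact h1

end TConf

end

end Pool.Agent.H94_hk
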