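import Mathlib

/-!
# Endomorphisms of a ring of formal power series over an algebra
-/

namespace Pool.Agent.H94_fr

open PowerSeries

noncomputable section

/-- Dependent choice. -/
theorem dep {S : Type*} (P : ℕ → S → Prop) (R : ℕ → S → S → Prop) (s0 : S) (h0 : P 0 s0)
    (step : ∀ m s, P m s → ∃ s', P (m + 1) s' ∧ R m s s') :
    ∃ σ : ℕ → S, (∀ m, P m (σ m)) ∧ ∀ m, R m (σ m) (σ (m + 1)) := by
  classical
  choose! g hg1 hg2 using step
  let σ : ℕ → S := fun m => Nat.rec s0 (fun m s => g m s) m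
  have h1 : ∀ m, P m (σ m) := by
    intro m
    induction m with
    | zero => exact h0
    | succ m ih => exact hg1 m _ ih
  exact ⟨σ, h1, fun m => hg2 m _ (h1 m)⟩

variable {A : Type*} [CommRing A]

theorem dvd_all_eq_zero {f : A⟦X⟧} (h : ∀ m, X ^ m ∣ f) : f = 0 := by
  ext n
  rw [map_zero]
  exact X_pow_dvd_iff.mp (h (n + 1)) n (by omega)

theorem eq_of_dvd_all {f g : A⟦X⟧} (h : ∀ m, X ^ m ∣ f - g) : f = g :=
  sub_eq_zero.mp (dvd_all_eq_zero h)

theorem X_pow_cancel {m : ℕ} {f g : A⟦X⟧} (h : X ^ m * f = X ^ m * g) : f = g := by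
  ext n
  have h1 := congrArg (coeff (n + m)) h
  rwa [coeff_X_pow_mul, coeff_X_pow_mul] at h1

theorem dvd_cancel {m n : ℕ} {f : A⟦X⟧} (h : X ^ (m + n) ∣ X ^ m * f) : X ^ n ∣ f := by
  obtain ⟨g, hg⟩ := h
  refine ⟨g, X_pow_cancel (m := m) ?_⟩
  rw [hg, pow_add, mul_assoc]

/-- Limits of convergent sequences of power series. -/
theorem limP (F : ℕ → A⟦X⟧) (h : ∀ m, X ^ m ∣ F (m + 1) - F m) : ∃ f, ∀ m, X ^ m ∣ f - F m := by
  have h1 : ∀ j m, j ≤ m → X ^ j ∣ F m - F j := by
    intro j m hjm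
    induction m, hjm using Nat.le_induction with
    | base => rw [sub_self]; exact dvd_zero _
    | succ m hm ih =>
      have h2 : F (m + 1) - F j = (F (m + 1) - F m) + (F m - F j) := by ring
      rw [h2]
      exact dvd_add ((pow_dvd_pow _ hm).trans (h m)) ih
  refine ⟨PowerSeries.mk fun n => coeff n (F (n + 1)), fun m => ?_⟩
  rw [X_pow_dvd_iff]
  intro j hj
  rw [map_sub, coeff_mk]
  have h2 := X_pow_dvd_iff.mp (h1 (j + 1) m hj) j (by omega)
  rw [map_sub] at h2
  rw [← neg_sub, h2, neg_zero]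

/-- Splitting off the terms of low order. -/
theorem exists_split (m : ℕ) (f : A⟦X⟧) : ∃ g : A⟦X⟧,
    f = ((trunc m f : Polynomial A) : A⟦X⟧) + X ^ m * g ∧ constantCoeff g = coeff m f := by
  have h1 : X ^ m ∣ f - ((trunc m f : Polynomial A) : A⟦X⟧) := by
    rw [X_pow_dvd_iff]
    intro j hj
    rw [map_sub, Polynomial.coeff_coe, coeff_trunc, if_pos hj, sub_self]
  obtain ⟨g, hg⟩ := h1
  refine ⟨g, by rw [← hg]; ring, ?_⟩
  have h2 := congrArg (coeff m) hg
  rw [map_sub, Polynomial.coeff_coe, coeff_trunc, if_neg (by omega), sub_zero,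
    coeff_X_pow_mul', if_pos le_rfl, Nat.sub_self, coeff_zero_eq_constantCoeff_apply] at h2
  exact h2.symm

/-- Evaluation of polynomials at `X` along a ring homomorphism to power series. -/
def ev (Φ : A →+* A⟦X⟧) : Polynomial A →+* A⟦X⟧ := Polynomial.eval₂RingHom Φ PowerSeries.X

theorem ev_congr (Φ : A →+* A⟦X⟧) {n : ℕ} {p q : Polynomial A}
    (h : ∀ j ≤ n, p.coeff j = q.coeff j) : coeff n (ev Φ p) = coeff n (ev Φ q) := by
  have h1 : (Polynomial.X : Polynomial A) ^ (n + 1) ∣ p - q := by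
    rw [Polynomial.X_pow_dvd_iff]
    intro j hj
    rw [Polynomial.coeff_sub, h j (by omega), sub_self]
  obtain ⟨s, hs⟩ := h1
  have h2 : ev Φ p - ev Φ q = X ^ (n + 1) * ev Φ s := by
    rw [← map_sub, hs, map_mul, map_pow]
    congr 2
    exact Polynomial.eval₂_X _ _
  have h3 : coeff n (ev Φ p - ev Φ q) = 0 := by
    rw [h2]
    exact (X_pow_dvd_iff.mp (Dvd.intro _ rfl)) n (by omega)
  rw [map_sub] at h3
  exact sub_eq_zero.mp h3

theorem coeff_trunc_self {n j : ℕ} (h : j ≤ n) (f : A⟦X⟧) :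
    (trunc (n + 1) f).coeff j = coeff j f := by
  rw [coeff_trunc, if_pos (by omega)]

/-- The extension of a ring homomorphism `A → A⟦X⟧` to power series. -/
def ext (Φ : A →+* A⟦X⟧) : A⟦X⟧ →+* A⟦X⟧ where
  toFun f := PowerSeries.mk fun n => coeff n (ev Φ (trunc (n + 1) f))
  map_one' := by
    ext n
    rw [coeff_mk, ev_congr Φ (q := 1), map_one]
    intro j hj
    rw [coeff_trunc_self hj, coeff_one, Polynomial.coeff_one]
  map_mul' f g := by
    ext n
    rw [coeff_mk, ev_congr Φ (q := trunc (n + 1) f * trunc (n + 1) g), map_mul, coeff_mul,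
      coeff_mul]
    · refine Finset.sum_congr rfl fun ab hab => ?_
      rw [Finset.HasAntidiagonal.mem_antidiagonal] at hab
      rw [coeff_mk, coeff_mk]
      congr 1
      · apply ev_congr
        intro j hj
        rw [coeff_trunc_self hj, coeff_trunc_self (by omega)]
      · apply ev_congr
        intro j hj
        rw [coeff_trunc_self hj, coeff_trunc_self (by omega)]
    · intro j hj
      rw [coeff_trunc_self hj, coeff_mul, Polynomial.coeff_mul]
      refine Finset.sum_congr rfl fun ab hab => ?_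
      rw [Finset.HasAntidiagonal.mem_antidiagonal] at hab
      rw [coeff_trunc_self (by omega), coeff_trunc_self (by omega)]
  map_zero' := by
    ext n
    rw [coeff_mk, ev_congr Φ (q := 0), map_zero]
    intro j hj
    rw [coeff_trunc_self hj, map_zero, Polynomial.coeff_zero]
  map_add' f g := by
    ext n
    rw [coeff_mk, ev_congr Φ (q := trunc (n + 1) f + trunc (n + 1) g), map_add, map_add, map_add,
      coeff_mk, coeff_mk]
    intro j hj
    rw [coeff_trunc_self hj, map_add, Polynomial.coeff_add, coeff_trunc_self hj,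
      coeff_trunc_self hj]

theorem ext_C (Φ : A →+* A⟦X⟧) (a : A) : ext Φ (C a) = Φ a := by
  ext n
  change coeff n (PowerSeries.mk fun n => coeff n (ev Φ (trunc (n + 1) (C a)))) = _
  rw [coeff_mk, ev_congr Φ (q := Polynomial.C a)]
  · congr 1
    exact Polynomial.eval₂_C _ _
  · intro j hj
    rw [coeff_trunc_self hj, coeff_C, Polynomial.coeff_C]

variable [Algebra ℂ A]

/-- The extension of an algebra homomorphism `A → A⟦X⟧` to power series. -/
def extAlg (Φ : A →ₐ[ℂ] A⟦X⟧) : A⟦X⟧ →ₐ[ℂ⟦X⟧] A⟦X⟧ :=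
  { ext Φ.toRingHom with
    commutes' := by
      intro f
      change ext Φ.toRingHom (algebraMap ℂ⟦X⟧ A⟦X⟧ f) = algebraMap ℂ⟦X⟧ A⟦X⟧ f
      rw [algebraMap_apply'']
      ext n
      change coeff n (PowerSeries.mk fun n => coeff n (ev Φ.toRingHom (trunc (n + 1)
        (PowerSeries.map (algebraMap ℂ A) f)))) = _
      rw [coeff_mk, ev_congr Φ.toRingHom (q := Polynomial.map (algebraMap ℂ A) (trunc (n + 1) f))]
      · change coeff n (Polynomial.eval₂ Φ.toRingHom X
          (Polynomial.map (algebraMap ℂ A) (trunc (n + 1) f))) = _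
        rw [Polynomial.eval₂_map]
        have h1 : Φ.toRingHom.comp (algebraMap ℂ A) =
            (PowerSeries.C (R := A)).comp (algebraMap ℂ A) := by
          ext c
          change coeff _ (Φ (algebraMap ℂ A c)) = _
          rw [AlgHom.commutes, PowerSeries.algebraMap_apply]
          rfl
        rw [h1, ← Polynomial.eval₂_map, Polynomial.eval₂_C_X_eq_coe, Polynomial.coeff_coe,
          Polynomial.coeff_map, coeff_trunc_self le_rfl, coeff_map]
      · intro j hj
        rw [coeff_trunc_self hj, Polynomial.coeff_map, coeff_trunc_self hj, coeff_map] }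

theorem extAlg_C (Φ : A →ₐ[ℂ] A⟦X⟧) (a : A) : extAlg Φ (C a) = Φ a := ext_C _ a

section EndoLemmas

variable (φ ψ : A⟦X⟧ →ₐ[ℂ⟦X⟧] A⟦X⟧)

theorem end_X : φ X = X := by
  have h := φ.commutes X
  rwa [algebraMap_apply'', PowerSeries.map_X] at h

theorem end_alg (c : ℂ⟦X⟧) : φ (PowerSeries.map (algebraMap ℂ A) c) =
    PowerSeries.map (algebraMap ℂ A) c := φ.commutes c

theorem end_X_pow_mul (m : ℕ) (f : A⟦X⟧) : φ (X ^ m * f) = X ^ m * φ f := by
  rw [map_mul, map_pow, end_X]

theorem end_dvd {m : ℕ} {f : A⟦X⟧} (h : X ^ m ∣ f) : X ^ m ∣ φ f := by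
  obtain ⟨g, rfl⟩ := h
  rw [end_X_pow_mul]
  exact Dvd.intro _ rfl

variable {φ ψ}

theorem poly_congr {m : ℕ} (h : ∀ a : A, X ^ m ∣ φ (C a) - ψ (C a)) (p : Polynomial A) :
    X ^ m ∣ φ (p : A⟦X⟧) - ψ (p : A⟦X⟧) := by
  induction p using Polynomial.induction_on' with
  | add p q hp hq =>
    rw [Polynomial.coe_add, map_add, map_add]
    have : φ (p : A⟦X⟧) + φ (q : A⟦X⟧) - (ψ (p : A⟦X⟧) + ψ (q : A⟦X⟧)) =
      (φ (p : A⟦X⟧) - ψ (p : A⟦X⟧)) + (φ (q : A⟦X⟧) - ψ (q : A⟦X⟧)) := by ring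
    rw [this]
    exact dvd_add hp hq
  | monomial n a =>
    have h1 : ((Polynomial.monomial n a : Polynomial A) : A⟦X⟧) = X ^ n * C a := by
      rw [← Polynomial.C_mul_X_pow_eq_monomial, Polynomial.coe_mul, Polynomial.coe_C,
        Polynomial.coe_pow, Polynomial.coe_X, mul_comm]
    rw [h1, end_X_pow_mul, end_X_pow_mul, ← mul_sub]
    exact (h a).mul_left _

theorem end_congr {m : ℕ} (h : ∀ a : A, X ^ m ∣ φ (C a) - ψ (C a)) (f : A⟦X⟧) :
    X ^ m ∣ φ f - ψ f := by
  obtain ⟨g, hg, _⟩ := exists_split m f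
  rw [hg, map_add, map_add, end_X_pow_mul, end_X_pow_mul]
  have : ∀ a b c d : A⟦X⟧, a + X ^ m * b - (c + X ^ m * d) = (a - c) + X ^ m * (b - d) := by
    intros; ring
  rw [this]
  exact dvd_add (poly_congr h _) (Dvd.intro _ rfl)

theorem end_ext (h : ∀ a : A, φ (C a) = ψ (C a)) : φ = ψ := by
  apply AlgHom.ext
  intro f
  apply eq_of_dvd_all
  intro m
  exact end_congr (fun a => by rw [h a, sub_self]; exact dvd_zero _) f

/-- Power series with coefficients in a subalgebra. -/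
def PSub (S : Subalgebra ℂ A) : Subring A⟦X⟧ where
  carrier := {f | ∀ m, coeff m f ∈ S}
  mul_mem' := by
    intro f g hf hg m
    rw [coeff_mul]
    exact sum_mem fun x _ => mul_mem (hf _) (hg _)
  one_mem' := by
    intro m
    rw [coeff_one]
    split_ifs
    · exact S.one_mem
    · exact S.zero_mem
  add_mem' := by
    intro f g hf hg m
    rw [map_add]
    exact add_mem (hf m) (hg m)
  zero_mem' := fun m => by rw [map_zero]; exact S.zero_mem
  neg_mem' := by
    intro f hf m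
    rw [map_neg]
    exact neg_mem (hf m)

theorem mem_PSub {S : Subalgebra ℂ A} {f : A⟦X⟧} : f ∈ PSub S ↔ ∀ m, coeff m f ∈ S := Iff.rfl

theorem C_mem_PSub {S : Subalgebra ℂ A} {a : A} (h : a ∈ S) : C a ∈ PSub S := by
  intro m
  rw [coeff_C]
  split_ifs
  · exact h
  · exact S.zero_mem

theorem X_mem_PSub (S : Subalgebra ℂ A) : (X : A⟦X⟧) ∈ PSub S := by
  intro m
  rw [coeff_X]
  split_ifs
  · exact S.one_mem
  · exact S.zero_mem

theorem alg_mem_PSub (S : Subalgebra ℂ A) (c : ℂ⟦X⟧) :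
    PowerSeries.map (algebraMap ℂ A) c ∈ PSub S := by
  intro m
  rw [coeff_map]
  exact S.algebraMap_mem _

theorem PSub_of_dvd {S : Subalgebra ℂ A} {f : A⟦X⟧} (F : ℕ → A⟦X⟧) (h : ∀ m, X ^ m ∣ f - F m)
    (hF : ∀ m, F m ∈ PSub S) : f ∈ PSub S := by
  intro n
  have h1 := X_pow_dvd_iff.mp (h (n + 1)) n (by omega)
  rw [map_sub, sub_eq_zero] at h1
  rw [h1]
  exact hF (n + 1) n

theorem PSub_X_pow {S : Subalgebra ℂ A} {m : ℕ} {f : A⟦X⟧} (h : X ^ m * f ∈ PSub S) :
    f ∈ PSub S := by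
  intro n
  have h1 := h (n + m)
  rwa [coeff_X_pow_mul] at h1

theorem trunc_mem_PSub {S : Subalgebra ℂ A} {f : A⟦X⟧} (m : ℕ) (h : ∀ j < m, coeff j f ∈ S) :
    ((trunc m f : Polynomial A) : A⟦X⟧) ∈ PSub S := by
  intro j
  rw [Polynomial.coeff_coe, coeff_trunc]
  split_ifs with hj
  · exact h j hj
  · exact S.zero_mem

/-- The endomorphism keeps power series with coefficients in `S`. -/
def KP (S : Subalgebra ℂ A) (φ : A⟦X⟧ →ₐ[ℂ⟦X⟧] A⟦X⟧) : Prop := ∀ f ∈ PSub S, φ f ∈ PSub S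

theorem KP_of {S : Subalgebra ℂ A} (h : ∀ a ∈ S, φ (C a) ∈ PSub S) : KP S φ := by
  have hp : ∀ p : Polynomial A, (p : A⟦X⟧) ∈ PSub S → φ (p : A⟦X⟧) ∈ PSub S := by
    intro p hp
    have h1 : (p : A⟦X⟧) = ∑ i ∈ Finset.range (p.natDegree + 1), X ^ i * C (p.coeff i) := by
      conv_lhs => rw [p.as_sum_range_C_mul_X_pow]
      rw [← Polynomial.coeToPowerSeries.ringHom_apply, map_sum]
      refine Finset.sum_congr rfl fun i _ => ?_
      rw [Polynomial.coeToPowerSeries.ringHom_apply, Polynomial.coe_mul, Polynomial.coe_C,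
        Polynomial.coe_pow, Polynomial.coe_X, mul_comm]
    rw [h1, map_sum]
    refine sum_mem fun i _ => ?_
    rw [end_X_pow_mul]
    refine mul_mem (pow_mem (X_mem_PSub S) _) (h _ ?_)
    have h2 := hp i
    rwa [Polynomial.coeff_coe] at h2
  intro f hf n
  obtain ⟨g, hg, _⟩ := exists_split (n + 1) f
  have h1 : coeff n (φ f) = coeff n (φ ((trunc (n + 1) f : Polynomial A) : A⟦X⟧)) := by
    conv_lhs => rw [hg]
    rw [map_add, map_add, end_X_pow_mul, coeff_X_pow_mul', if_neg (by omega), add_zero]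
  rw [h1]
  exact hp _ (trunc_mem_PSub _ fun j _ => hf j) n

theorem KP_of_adjoin {S : Subalgebra ℂ A} {G : Set A} (hS : S = Algebra.adjoin ℂ G)
    (h : ∀ a ∈ G, φ (C a) ∈ PSub S) : KP S φ := by
  apply KP_of
  intro a ha
  rw [hS] at ha
  induction ha using Algebra.adjoin_induction with
  | mem x hx => exact h x hx
  | algebraMap c =>
    have h1 : C (algebraMap ℂ A c) = PowerSeries.map (algebraMap ℂ A) (C c) := by
      rw [map_C]
    rw [h1, end_alg]
    exact alg_mem_PSub S _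
  | add x y _ _ hx hy => rw [map_add, map_add]; exact add_mem hx hy
  | mul x y _ _ hx hy => rw [map_mul, map_mul]; exact mul_mem hx hy

end EndoLemmas

end

end Pool.Agent.H94_fr
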