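import Pool.Agent.H94_fr.Auto

/-!
# The group of automorphisms of a ring of formal power series; exponentials and limits
-/

namespace Pool.Agent.H94_fr

open PowerSeries

noncomputable section

/-- Automorphisms over the power series ring in one variable. -/
abbrev PG (A : Type*) [CommRing A] [Algebra ℂ A] := A⟦X⟧ ≃ₐ[ℂ⟦X⟧] A⟦X⟧

variable {A : Type*} [CommRing A] [Algebra ℂ A]

theorem hom_bijective {φ : A⟦X⟧ →ₐ[ℂ⟦X⟧] A⟦X⟧} (h : ∀ f, constantCoeff (φ f) = constantCoeff f) :
    Function.Bijective φ := by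
  constructor
  · intro f g hfg
    have h0 : φ (f - g) = 0 := by rw [map_sub, hfg, sub_self]
    apply eq_of_dvd_all
    intro m
    induction m with
    | zero => rw [pow_zero]; exact one_dvd _
    | succ m ih =>
      obtain ⟨u, hu⟩ := ih
      rw [hu, end_X_pow_mul] at h0
      have h1 : φ u = 0 := X_pow_cancel (m := m) (by rw [h0, mul_zero])
      have h2 : constantCoeff u = 0 := by rw [← h u, h1, map_zero]
      rw [hu, pow_succ]
      exact mul_dvd_mul_left _ (X_dvd_iff.mpr h2)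
  · intro g
    obtain ⟨F, hF, hF'⟩ := dep (S := A⟦X⟧) (fun m f => X ^ m ∣ g - φ f)
      (fun m f f' => X ^ m ∣ f' - f) 0 (by rw [pow_zero]; exact one_dvd _) (by
        intro m f hf
        obtain ⟨u, hu⟩ := hf
        refine ⟨f + X ^ m * u, ?_, ?_⟩
        · have h1 : g - φ (f + X ^ m * u) = X ^ m * (u - φ u) := by
            rw [map_add, end_X_pow_mul, mul_sub, ← hu]; ring
          rw [h1, pow_succ]
          refine mul_dvd_mul_left _ (X_dvd_iff.mpr ?_)
          rw [map_sub, h u, sub_self]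
        · rw [add_sub_cancel_left]; exact Dvd.intro _ rfl)
    obtain ⟨f, hf⟩ := limP F hF'
    refine ⟨f, eq_of_dvd_all fun m => ?_⟩
    have h1 : φ f - g = φ (f - F m) - (g - φ (F m)) := by rw [map_sub]; ring
    rw [h1]
    exact dvd_sub (end_dvd φ (hf m)) (hF m)

/-- The automorphism defined by an endomorphism that is the identity modulo `X`. -/
def eqv (φ : A⟦X⟧ →ₐ[ℂ⟦X⟧] A⟦X⟧) (h : ∀ f, constantCoeff (φ f) = constantCoeff f) : PG A :=
  AlgEquiv.ofBijective φ (hom_bijective h)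

theorem eqv_apply (φ : A⟦X⟧ →ₐ[ℂ⟦X⟧] A⟦X⟧) (h : ∀ f, constantCoeff (φ f) = constantCoeff f)
    (f : A⟦X⟧) : eqv φ h f = φ f := rfl

/-- Congruence of automorphisms. -/
def Cg (m : ℕ) (φ ψ : PG A) : Prop := ∀ f, X ^ m ∣ φ f - ψ f

/-- The automorphism is the identity modulo `X`. -/
def Uni (φ : PG A) : Prop := ∀ f, constantCoeff (φ f) = constantCoeff f

/-- The automorphism keeps power series with coefficients in `S`. -/
def KE (S : Subalgebra ℂ A) (φ : PG A) : Prop := ∀ f ∈ PSub S, φ f ∈ PSub S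

theorem pg_dvd (φ : PG A) {m : ℕ} {f : A⟦X⟧} (h : X ^ m ∣ f) : X ^ m ∣ φ f :=
  end_dvd (φ : A⟦X⟧ →ₐ[ℂ⟦X⟧] A⟦X⟧) h

theorem pg_X_pow_mul (φ : PG A) (m : ℕ) (f : A⟦X⟧) : φ (X ^ m * f) = X ^ m * φ f :=
  end_X_pow_mul (φ : A⟦X⟧ →ₐ[ℂ⟦X⟧] A⟦X⟧) m f

theorem pg_alg (φ : PG A) (c : ℂ⟦X⟧) : φ (PowerSeries.map (algebraMap ℂ A) c) =
    PowerSeries.map (algebraMap ℂ A) c := φ.commutes c

theorem pg_ext {φ ψ : PG A} (h : ∀ a : A, φ (C a) = ψ (C a)) : φ = ψ := by
  apply AlgEquiv.ext
  intro f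
  exact DFunLike.congr_fun (end_ext (φ := (φ : A⟦X⟧ →ₐ[ℂ⟦X⟧] A⟦X⟧))
    (ψ := (ψ : A⟦X⟧ →ₐ[ℂ⟦X⟧] A⟦X⟧)) h) f

theorem Cg_of {m : ℕ} {φ ψ : PG A} (h : ∀ a : A, X ^ m ∣ φ (C a) - ψ (C a)) : Cg m φ ψ :=
  end_congr (φ := (φ : A⟦X⟧ →ₐ[ℂ⟦X⟧] A⟦X⟧)) (ψ := (ψ : A⟦X⟧ →ₐ[ℂ⟦X⟧] A⟦X⟧)) h

theorem Cg.refl (m : ℕ) (φ : PG A) : Cg m φ φ := fun f => by rw [sub_self]; exact dvd_zero _

theorem Cg.symm {m : ℕ} {φ ψ : PG A} (h : Cg m φ ψ) : Cg m ψ φ := fun f => by
  rw [← neg_sub]; exact (h f).neg_right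

theorem Cg.trans {m : ℕ} {φ ψ χ : PG A} (h : Cg m φ ψ) (h' : Cg m ψ χ) : Cg m φ χ := fun f => by
  have : φ f - χ f = (φ f - ψ f) + (ψ f - χ f) := by ring
  rw [this]
  exact dvd_add (h f) (h' f)

theorem Cg.mono {m n : ℕ} {φ ψ : PG A} (h : Cg m φ ψ) (hn : n ≤ m) : Cg n φ ψ :=
  fun f => (pow_dvd_pow _ hn).trans (h f)

theorem Cg.mul {m : ℕ} {φ φ' ψ ψ' : PG A} (h : Cg m φ φ') (h' : Cg m ψ ψ') :
    Cg m (φ * ψ) (φ' * ψ') := by
  intro f
  have : (φ * ψ) f - (φ' * ψ') f = φ (ψ f - ψ' f) + (φ (ψ' f) - φ' (ψ' f)) := by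
    rw [map_sub]; simp
  rw [this]
  exact dvd_add (pg_dvd φ (h' f)) (h _)

theorem Cg.inv {m : ℕ} {φ ψ : PG A} (h : Cg m φ ψ) : Cg m φ⁻¹ ψ⁻¹ := by
  intro f
  have h1 : φ⁻¹ f - ψ⁻¹ f = φ⁻¹ (ψ (ψ⁻¹ f) - φ (ψ⁻¹ f)) := by
    rw [map_sub]
    congr 1
    · have : ψ (ψ⁻¹ f) = f := AlgEquiv.apply_symm_apply ψ f
      rw [this]
    · exact (AlgEquiv.symm_apply_apply φ _).symm
  rw [h1]
  exact pg_dvd _ (h.symm _)

theorem eq_of_Cg {φ ψ : PG A} (h : ∀ m, Cg m φ ψ) : φ = ψ :=
  AlgEquiv.ext fun f => eq_of_dvd_all fun m => h m f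

theorem uni_iff {φ : PG A} : Uni φ ↔ Cg 1 φ 1 := by
  constructor
  · intro h f
    rw [pow_one, X_dvd_iff, map_sub, h f]
    exact sub_self _
  · intro h f
    have := h f
    rw [pow_one, X_dvd_iff, map_sub] at this
    exact sub_eq_zero.mp this

theorem Uni.one : Uni (1 : PG A) := fun _ => rfl

theorem Uni.mul {φ ψ : PG A} (h : Uni φ) (h' : Uni ψ) : Uni (φ * ψ) := fun f => by
  change constantCoeff (φ (ψ f)) = _
  rw [h, h']

theorem Uni.inv {φ : PG A} (h : Uni φ) : Uni φ⁻¹ := fun f => by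
  rw [← h (φ⁻¹ f)]
  have : φ (φ⁻¹ f) = f := AlgEquiv.apply_symm_apply φ f
  rw [this]

theorem KE.one {S : Subalgebra ℂ A} : KE S (1 : PG A) := fun _ h => h

theorem KE.mul {S : Subalgebra ℂ A} {φ ψ : PG A} (h : KE S φ) (h' : KE S ψ) : KE S (φ * ψ) :=
  fun f hf => h _ (h' f hf)

theorem KE.inv {S : Subalgebra ℂ A} {φ : PG A} (h : KE S φ) (hu : Uni φ) : KE S φ⁻¹ := by
  intro f hf
  set g := φ⁻¹ f with hg
  have hfg : φ g = f := AlgEquiv.apply_symm_apply φ f
  intro n
  induction n using Nat.strong_induction_on with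
  | _ n ih =>
    obtain ⟨u, hu1, hu2⟩ := exists_split n g
    have h1 := trunc_mem_PSub (S := S) n ih
    have h2 := h _ h1
    have h3 : f = φ ((trunc n g : Polynomial A) : A⟦X⟧) + X ^ n * φ u := by
      rw [← hfg]
      conv_lhs => rw [hu1]
      rw [map_add, pg_X_pow_mul]
    have h4 := congrArg (coeff n) h3
    rw [map_add, coeff_X_pow_mul', if_pos le_rfl, Nat.sub_self,
      coeff_zero_eq_constantCoeff_apply, hu u, hu2] at h4
    have h5 : coeff n g = coeff n f - coeff n (φ ((trunc n g : Polynomial A) : A⟦X⟧)) := by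
      rw [h4]; ring
    rw [h5]
    exact sub_mem (hf n) (h2 n)

/-- Limits of convergent sequences of automorphisms. -/
theorem limG (Ψ : ℕ → PG A) (h0 : Uni (Ψ 0)) (h : ∀ m, Cg (m + 1) (Ψ (m + 1)) (Ψ m)) :
    ∃ ψ : PG A, Uni ψ ∧ ∀ m, Cg (m + 1) ψ (Ψ m) := by
  have hle : ∀ j m, j ≤ m → Cg (j + 1) (Ψ m) (Ψ j) := by
    intro j m hjm
    induction m, hjm using Nat.le_induction with
    | base => exact Cg.refl _ _
    | succ m hm ih => exact ((h m).mono (by omega)).trans ih
  have hunip : ∀ m, Uni (Ψ m) := by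
    intro m f
    have := hle 0 m (Nat.zero_le _) f
    rw [zero_add, pow_one, X_dvd_iff, map_sub, sub_eq_zero] at this
    rw [this, h0]
  let L : A⟦X⟧ → A⟦X⟧ := fun f => PowerSeries.mk fun n => coeff n (Ψ n f)
  have hL : ∀ m f, ∀ j ≤ m, coeff j (L f) = coeff j (Ψ m f) := by
    intro m f j hj
    have := X_pow_dvd_iff.mp (hle j m hj f) j (by omega)
    rw [map_sub, sub_eq_zero] at this
    rw [this]
    exact coeff_mk _ _
  let φ : A⟦X⟧ →ₐ[ℂ⟦X⟧] A⟦X⟧ :=
    { toFun := L
      map_one' := by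
        ext n
        rw [hL n _ n le_rfl, map_one]
      map_mul' := by
        intro f g
        ext n
        rw [hL n _ n le_rfl, map_mul, coeff_mul, coeff_mul]
        refine Finset.sum_congr rfl fun ab hab => ?_
        rw [Finset.HasAntidiagonal.mem_antidiagonal] at hab
        rw [hL n f _ (by omega), hL n g _ (by omega)]
      map_zero' := by
        ext n
        rw [hL n _ n le_rfl, map_zero]
      map_add' := by
        intro f g
        ext n
        rw [hL n _ n le_rfl, map_add, map_add, map_add, hL n f n le_rfl, hL n g n le_rfl]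
      commutes' := by
        intro c
        ext n
        change coeff n (L _) = _
        rw [hL n _ n le_rfl, AlgEquiv.commutes] }
  have hu : ∀ f, constantCoeff (φ f) = constantCoeff f := by
    intro f
    rw [← coeff_zero_eq_constantCoeff_apply]
    change coeff 0 (L f) = _
    rw [hL 0 _ 0 le_rfl, coeff_zero_eq_constantCoeff_apply, hunip]
  refine ⟨eqv φ hu, hu, fun m f => ?_⟩
  rw [X_pow_dvd_iff]
  intro j hj
  rw [map_sub, sub_eq_zero]
  exact hL m f j (by omega)

theorem KE_of_Cg {S : Subalgebra ℂ A} {ψ : PG A} {Ψ : ℕ → PG A} (h : ∀ m, Cg (m + 1) ψ (Ψ m))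
    (hΨ : ∀ m, KE S (Ψ m)) : KE S ψ := by
  intro f hf n
  have h1 := X_pow_dvd_iff.mp (h n f) n (by omega)
  rw [map_sub, sub_eq_zero] at h1
  rw [h1]
  exact hΨ n f hf n

/-! ### Leading terms -/

/-- The leading term of an automorphism which is the identity modulo `X ^ m`. -/
theorem exists_dr {m : ℕ} (hm : 1 ≤ m) {φ : PG A} (h : Cg m φ 1) :
    ∃ D : Derivation ℂ A A, ∀ a, D a = coeff m (φ (C a)) := by
  have key : ∀ a : A, ∃ u : A⟦X⟧, φ (C a) = C a + X ^ m * u := by
    intro a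
    obtain ⟨u, hu⟩ := h (C a)
    refine ⟨u, ?_⟩
    rw [← hu]
    change φ (C a) = C a + (φ (C a) - C a)
    ring
  have hcoef : ∀ (a : A) (u : A⟦X⟧), coeff m (C a + X ^ m * u) = constantCoeff u := by
    intro a u
    rw [map_add, coeff_C, if_neg (by omega), zero_add, coeff_X_pow_mul', if_pos le_rfl,
      Nat.sub_self, coeff_zero_eq_constantCoeff_apply]
  have hsmul : ∀ (c : ℂ) (a : A), φ (C (c • a)) = PowerSeries.map (algebraMap ℂ A) (C c) *
      φ (C a) := by
    intro c a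
    rw [Algebra.smul_def, map_mul, map_mul, ← pg_alg φ, map_C]
  refine ⟨Derivation.mk'
    { toFun := fun a => coeff m (φ (C a))
      map_add' := fun a b => by rw [map_add, map_add, map_add]
      map_smul' := fun c a => by
        rw [hsmul, map_C, coeff_C_mul, RingHom.id_apply, Algebra.smul_def] } ?_, fun a => rfl⟩
  intro a b
  change coeff m (φ (C (a * b))) = a • coeff m (φ (C b)) + b • coeff m (φ (C a))
  obtain ⟨u, hu⟩ := key a
  obtain ⟨v, hv⟩ := key b
  rw [map_mul, map_mul, hu, hv, hcoef, hcoef]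
  have h1 : (C a + X ^ m * u) * (C b + X ^ m * v) = C (a * b) + X ^ m * (C a * v + C b * u +
      X ^ m * (u * v)) := by rw [map_mul]; ring
  rw [h1, hcoef]
  have h2 : constantCoeff (X ^ m * (u * v)) = 0 := by
    rw [map_mul, map_pow, constantCoeff_X, zero_pow (by omega), zero_mul]
  rw [map_add, map_add, map_mul, map_mul, constantCoeff_C, constantCoeff_C, h2, add_zero,
    smul_eq_mul, smul_eq_mul]

theorem coeff_mul_of_Cg {m : ℕ} (hm : 1 ≤ m) {φ ψ : PG A} (h : Cg m φ 1) (h' : Cg m ψ 1) (a : A) :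
    coeff m ((φ * ψ) (C a)) = coeff m (φ (C a)) + coeff m (ψ (C a)) := by
  obtain ⟨u, hu⟩ := h' (C a)
  have hu' : ψ (C a) = C a + X ^ m * u := by
    rw [← hu]
    change ψ (C a) = C a + (ψ (C a) - C a)
    ring
  change coeff m (φ (ψ (C a))) = _
  rw [hu', map_add, pg_X_pow_mul, map_add, map_add, coeff_C, if_neg (by omega), zero_add]
  congr 1
  rw [coeff_X_pow_mul', if_pos le_rfl, Nat.sub_self, coeff_X_pow_mul', if_pos le_rfl,
    Nat.sub_self, coeff_zero_eq_constantCoeff_apply, coeff_zero_eq_constantCoeff_apply]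
  have h1 := (h.mono hm) u
  rw [pow_one, X_dvd_iff, map_sub] at h1
  exact sub_eq_zero.mp h1

theorem Cg_succ_iff {m : ℕ} {φ : PG A} (h : Cg m φ 1)
    (h' : ∀ a, coeff m (φ (C a)) = coeff m (C a)) : Cg (m + 1) φ 1 := by
  apply Cg_of
  intro a
  rw [X_pow_dvd_iff]
  intro j hj
  rcases Nat.lt_or_ge j m with h1 | h1
  · exact X_pow_dvd_iff.mp (h (C a)) j h1
  · have : j = m := by omega
    subst this
    rw [map_sub, h' a]
    exact sub_self _

/-! ### Exponentials -/

/-- The divided powers of a derivation. -/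
def dpow (D : Derivation ℂ A A) (n : ℕ) (a : A) : A := ((n.factorial : ℂ)⁻¹) • (D^[n] a)

theorem dpow_zero (D : Derivation ℂ A A) (a : A) : dpow D 0 a = a := by simp [dpow]

theorem dpow_succ (D : Derivation ℂ A A) (n : ℕ) (a : A) :
    ((n + 1 : ℕ) : ℂ) • dpow D (n + 1) a = D (dpow D n a) := by
  rw [dpow, dpow, Derivation.map_smul, Function.iterate_succ_apply', smul_smul]
  congr 1
  rw [Nat.factorial_succ]
  push_cast
  have h1 : ((n : ℂ) + 1) ≠ 0 := by exact_mod_cast Nat.succ_ne_zero n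
  have h2 : (n.factorial : ℂ) ≠ 0 := by exact_mod_cast Nat.factorial_ne_zero n
  field_simp

theorem dpow_mul (D : Derivation ℂ A A) (n : ℕ) (a b : A) :
    dpow D n (a * b) = ∑ p ∈ Finset.HasAntidiagonal.antidiagonal n, dpow D p.1 a * dpow D p.2 b := by
  induction n with
  | zero => simp [dpow_zero]
  | succ n ih =>
    have h0 : ((n + 1 : ℕ) : ℂ) ≠ 0 := by exact_mod_cast Nat.succ_ne_zero n
    have h1 : ((n + 1 : ℕ) : ℂ) • dpow D (n + 1) (a * b) = ((n + 1 : ℕ) : ℂ) •
        ∑ p ∈ Finset.HasAntidiagonal.antidiagonal (n + 1), dpow D p.1 a * dpow D p.2 b := by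
      rw [dpow_succ, ih, map_sum, Finset.smul_sum]
      have h2 : ∑ p ∈ Finset.HasAntidiagonal.antidiagonal (n + 1), ((n + 1 : ℕ) : ℂ) • (dpow D p.1 a * dpow D p.2 b)
          = ∑ p ∈ Finset.HasAntidiagonal.antidiagonal (n + 1), (((p.1 : ℂ) • dpow D p.1 a) * dpow D p.2 b) +
            ∑ p ∈ Finset.HasAntidiagonal.antidiagonal (n + 1), (dpow D p.1 a * ((p.2 : ℂ) • dpow D p.2 b)) := by
        rw [← Finset.sum_add_distrib]
        refine Finset.sum_congr rfl fun p hp => ?_
        rw [Finset.HasAntidiagonal.mem_antidiagonal] at hp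
        rw [smul_mul_assoc, mul_smul_comm, ← add_smul, ← hp]
        push_cast
        rfl
      rw [h2, Finset.Nat.sum_antidiagonal_succ, Finset.Nat.sum_antidiagonal_succ']
      simp only [Nat.cast_zero, zero_smul, zero_mul, mul_zero, zero_add, dpow_succ]
      rw [← Finset.sum_add_distrib]
      refine Finset.sum_congr rfl fun p _ => ?_
      rw [Derivation.leibniz, smul_eq_mul, smul_eq_mul]
      ring
    have h3 := congrArg (fun x => ((n + 1 : ℕ) : ℂ)⁻¹ • x) h1
    simp only [smul_smul, inv_mul_cancel₀ h0, one_smul] at h3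
    exact h3

theorem dpow_alg (D : Derivation ℂ A A) (n : ℕ) (hn : 1 ≤ n) (c : ℂ) :
    dpow D n (algebraMap ℂ A c) = 0 := by
  obtain ⟨n, rfl⟩ : ∃ n', n = n' + 1 := ⟨n - 1, by omega⟩
  rw [dpow, Function.iterate_succ_apply, Derivation.map_algebraMap]
  have : ∀ n, D^[n] (0 : A) = 0 := by
    intro n
    induction n with
    | zero => rfl
    | succ n ih => rw [Function.iterate_succ_apply', ih, map_zero]
  rw [this, smul_zero]

/-- The exponential of `X ^ m D`, on the algebra. -/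
def expHom (D : Derivation ℂ A A) (m : ℕ) (hm : m ≠ 0) : A →ₐ[ℂ] A⟦X⟧ where
  toFun a := expand m hm (PowerSeries.mk fun n => dpow D n a)
  map_one' := by
    have : (PowerSeries.mk fun n => dpow D n (1 : A)) = 1 := by
      ext n
      rw [coeff_mk, coeff_one]
      split_ifs with h
      · rw [h, dpow_zero]
      · have := dpow_alg D n (by omega) 1
        rwa [map_one] at this
    rw [this, map_one]
  map_mul' a b := by
    rw [← map_mul]
    congr 1
    ext n
    rw [coeff_mk, coeff_mul, dpow_mul]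
    exact Finset.sum_congr rfl fun p _ => by rw [coeff_mk, coeff_mk]
  map_zero' := by
    have : (PowerSeries.mk fun n => dpow D n (0 : A)) = 0 := by
      ext n
      rw [coeff_mk, map_zero, dpow]
      have : ∀ n, D^[n] (0 : A) = 0 := by
        intro n
        induction n with
        | zero => rfl
        | succ n ih => rw [Function.iterate_succ_apply', ih, map_zero]
      rw [this, smul_zero]
    rw [this, map_zero]
  map_add' a b := by
    rw [← map_add]
    congr 1
    ext n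
    rw [map_add, coeff_mk, coeff_mk, coeff_mk, dpow, dpow, dpow, ← smul_add]
    congr 1
    induction n with
    | zero => rfl
    | succ n ih => rw [Function.iterate_succ_apply', Function.iterate_succ_apply',
        Function.iterate_succ_apply', ih, map_add]
  commutes' c := by
    have : (PowerSeries.mk fun n => dpow D n (algebraMap ℂ A c)) = C (algebraMap ℂ A c) := by
      ext n
      rw [coeff_mk, coeff_C]
      split_ifs with h
      · rw [h, dpow_zero]
      · exact dpow_alg D n (by omega) c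
    rw [this, expand_C, PowerSeries.algebraMap_apply]

theorem coeff_expHom (D : Derivation ℂ A A) (m : ℕ) (hm : m ≠ 0) (a : A) (n : ℕ) :
    coeff n (expHom D m hm a) = if m ∣ n then dpow D (n / m) a else 0 := by
  change coeff n (expand m hm _) = _
  rw [coeff_expand]
  simp only [coeff_mk]

theorem exists_ex (D : Derivation ℂ A A) {m : ℕ} (hm : 1 ≤ m) :
    ∃ ψ : PG A, Cg m ψ 1 ∧ Uni ψ ∧ (∀ a, coeff m (ψ (C a)) = D a) ∧
      ∀ S : Subalgebra ℂ A, (∀ a ∈ S, D a ∈ S) → KE S ψ := by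
  have hm0 : m ≠ 0 := by omega
  have hc : ∀ a, constantCoeff (extAlg (expHom D m hm0) (C a)) = a := by
    intro a
    rw [extAlg_C, ← coeff_zero_eq_constantCoeff_apply, coeff_expHom, if_pos (dvd_zero m),
      Nat.zero_div, dpow_zero]
  have hu : ∀ f, constantCoeff (extAlg (expHom D m hm0) f) = constantCoeff f := by
    intro f
    have h1 := end_congr (φ := extAlg (expHom D m hm0)) (ψ := AlgHom.id _ _) (m := 1)
      (fun a => by
        rw [pow_one, X_dvd_iff, map_sub, hc, AlgHom.id_apply, constantCoeff_C, sub_self]) f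
    rw [pow_one, X_dvd_iff, map_sub, AlgHom.id_apply] at h1
    exact sub_eq_zero.mp h1
  have happ : ∀ a, eqv _ hu (C a) = expHom D m hm0 a := fun a => by rw [eqv_apply, extAlg_C]
  refine ⟨eqv _ hu, ?_, hu, ?_, ?_⟩
  · apply Cg_of
    intro a
    rw [happ, X_pow_dvd_iff]
    intro j hj
    rw [map_sub, coeff_expHom]
    change _ - coeff j (C a) = 0
    rw [coeff_C]
    by_cases hj0 : j = 0
    · subst hj0
      rw [if_pos (dvd_zero m), Nat.zero_div, dpow_zero, if_pos rfl, sub_self]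
    · rw [if_neg hj0, if_neg (fun h => hj0 (Nat.eq_zero_of_dvd_of_lt h hj)), sub_self]
  · intro a
    rw [happ, coeff_expHom, if_pos (dvd_refl m), Nat.div_self (by omega), dpow]
    simp
  · intro S hS
    refine KP_of (φ := extAlg (expHom D m hm0)) fun a ha n => ?_
    rw [extAlg_C, coeff_expHom]
    split_ifs
    · rw [dpow]
      refine S.smul_mem ?_ _
      generalize n / m = l
      induction l with
      | zero => exact ha
      | succ l ih => rw [Function.iterate_succ_apply']; exact hS _ ih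
    · exact S.zero_mem

end

end Pool.Agent.H94_fr
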