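import Pool.Agent.H94_fr.PosBridge

/-!
# Automorphisms that change two of the forms
-/

namespace Pool.Agent.H94_hk

open PowerSeries Pool.Agent.H94_fr

noncomputable section

section roots

variable {A : Type*} [CommRing A] [Algebra ℂ A]

/-- The power series `(1 + X) ^ (1 / n)`. -/
def rho (n : ℕ) : ℂ⟦X⟧ :=
  if h : 0 < n then (exists_root h (a := 1 + X) (by simp)).choose else 1

theorem rho_spec {n : ℕ} (h : 0 < n) : constantCoeff (rho n) = 1 ∧ rho n ^ n = 1 + X := by
  rw [rho, dif_pos h]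
  exact (exists_root h (a := 1 + X) (by simp)).choose_spec

/-- The power series `(1 + w X) ^ (1 / n)`. -/
def rX (n : ℕ) (w : A) : A⟦X⟧ := rescale w (PowerSeries.map (algebraMap ℂ A) (rho n))

theorem rX_coeff (n : ℕ) (w : A) (m : ℕ) :
    coeff m (rX n w) = w ^ m * algebraMap ℂ A (coeff m (rho n)) := by
  rw [rX, coeff_rescale, coeff_map]

theorem rX_const {n : ℕ} (h : 0 < n) (w : A) : constantCoeff (rX n w) = 1 := by
  rw [← coeff_zero_eq_constantCoeff_apply, rX_coeff, coeff_zero_eq_constantCoeff_apply,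
    (rho_spec h).1, pow_zero, map_one, one_mul]

theorem rX_pow {n : ℕ} (h : 0 < n) (w : A) : rX n w ^ n = 1 + X * C w := by
  rw [rX, ← map_pow, ← map_pow, (rho_spec h).2, map_add, map_add, map_one, map_one, map_X,
    rescale_X, mul_comm]

theorem rX_mem {n : ℕ} {w : A} {S : Subalgebra ℂ A} (hw : w ∈ S) : rX n w ∈ PSub S := by
  intro m
  rw [rX_coeff]
  exact mul_mem (pow_mem hw m) (S.algebraMap_mem _)

omit [Algebra ℂ A] in
theorem pow_coeff_one {U : A⟦X⟧} (h1 : constantCoeff U = 1) (n : ℕ) :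
    coeff 1 (U ^ n) = n * coeff 1 U ∧ constantCoeff (U ^ n) = 1 := by
  have hm : ∀ p q : A⟦X⟧, coeff 1 (p * q) =
      constantCoeff p * coeff 1 q + coeff 1 p * constantCoeff q := by
    intro p q
    rw [coeff_mul, Finset.Nat.antidiagonal_succ]
    simp [mul_comm]
  induction n with
  | zero => simp [coeff_one]
  | succ n ih =>
    rw [pow_succ, hm, ih.1, ih.2, h1, map_mul, ih.2, h1]
    push_cast
    constructor <;> ring

theorem rX_coeff_one {n : ℕ} (h : 0 < n) (w : A) : n * coeff 1 (rX n w) = w := by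
  rw [← (pow_coeff_one (rX_const h w) n).1, rX_pow h, map_add, coeff_one, if_neg one_ne_zero,
    zero_add, ← pow_one (X : A⟦X⟧), coeff_X_pow_mul']
  simp

omit [Algebra ℂ A] in
theorem root_unique [IsDomain A] {n : ℕ} (hn : (n : A) ≠ 0) {U V : A⟦X⟧}
    (hU : constantCoeff U = 1) (hV : constantCoeff V = 1) (h : U ^ n = V ^ n) : U = V := by
  have h1 := (Commute.all U V).mul_geom_sum₂ n
  rw [h, sub_self] at h1
  rcases mul_eq_zero.mp h1 with h2 | h2
  · exact sub_eq_zero.mp h2
  · exfalso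
    have h3 := congrArg constantCoeff h2
    rw [map_sum, map_zero] at h3
    have h4 : ∀ s ∈ Finset.range n, constantCoeff (U ^ s * V ^ (n - 1 - s)) = 1 := by
      intro s _
      rw [map_mul, map_pow, map_pow, hU, hV, one_pow, one_pow, one_mul]
    rw [Finset.sum_congr rfl h4] at h3
    simp at h3
    exact hn (by exact_mod_cast h3)

end roots

variable {k : ℕ} {z : Fin k → KK}

/-- The monomial `z_p ^ 2 z_s ^ (n - 2) / (c_i z_i ^ n)`. -/
def uw (z : Fin k → KK) (n : ℕ) (c : Fin k → ℂ) (p s i : Fin k) : CR z :=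
  (c i)⁻¹ • (rt z p i ^ 2 * rt z s i ^ (n - 2))

/-- The factors of the coordinates. -/
def Uf (z : Fin k → KK) (n : ℕ) (c : Fin k → ℂ) (p s l m i : Fin k) : (CR z)⟦X⟧ :=
  if i = l then rX n (-(uw z n c p s i)) else if i = m then rX n (uw z n c p s i) else 1

section

variable {n : ℕ} {c : Fin k → ℂ} {p s l m : Fin k}

theorem Uf_const (hn : 0 < n) (i : Fin k) : constantCoeff (Uf z n c p s l m i) = 1 := by
  rw [Uf]
  split_ifs
  · exact rX_const hn _
  · exact rX_const hn _
  · exact map_one _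

theorem Uf_mem {B : Subalgebra ℂ (CR z)} (hl : uw z n c p s l ∈ B) (hm : uw z n c p s m ∈ B)
    (i : Fin k) : Uf z n c p s l m i ∈ PSub B := by
  rw [Uf]
  split_ifs with h1 h2
  · subst h1; exact rX_mem (neg_mem hl)
  · subst h2; exact rX_mem hm
  · exact one_mem _

theorem Uf_pow (hn : 0 < n) (i : Fin k) : Uf z n c p s l m i ^ n =
    1 + X * C ((if i = m then uw z n c p s i else 0) - (if i = l then uw z n c p s i else 0)) ∨
    l = m := by
  by_cases hlm : l = m
  · exact Or.inr hlm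
  left
  rw [Uf]
  by_cases h1 : i = l
  · subst h1
    rw [if_pos rfl, if_pos rfl, if_neg hlm, rX_pow hn, zero_sub]
  · rw [if_neg h1, if_neg h1]
    by_cases h2 : i = m
    · rw [if_pos h2, if_pos h2, rX_pow hn, sub_zero]
    · rw [if_neg h2, if_neg h2, one_pow, sub_zero, map_zero, mul_zero, add_zero]

theorem uw_rt (hz0 : ∀ i, z i ≠ 0) (hn : 2 ≤ n) (i i0 : Fin k) :
    rt z i i0 ^ n * uw z n c p s i = (c i)⁻¹ • (rt z p i0 ^ 2 * rt z s i0 ^ (n - 2)) := by
  obtain ⟨m, rfl⟩ : ∃ m, n = m + 2 := ⟨n - 2, by omega⟩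
  rw [uw, mul_smul_comm, Nat.add_sub_cancel, ← rt_mul hz0 p i i0, ← rt_mul hz0 s i i0]
  congr 1
  ring

end

namespace TConf

variable {r : ℕ} {T : TConf k r} {n : ℕ} (h : T.Rts n z)

include h in
/-- The automorphisms that change two of the forms. -/
theorem exists_beta {c : Fin k → ℂ} {p s l m : Fin k} (hlm : l ≠ m) (hcl : c l ≠ 0)
    (hcm : c m ≠ 0)
    (hrel : ∀ e : Fin k → ℂ, ∑ i, e i • T.f i = 0 → e l * c m = e m * c l) :
    ∃ β : PG (CR z), Uni β ∧
      ∀ i j, Wd β i j * Uf z n c p s l m j = Uf z n c p s l m i := by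
  have hk3 := h.full.k3
  have hz0 := h.hz0
  let i0 : Fin k := ⟨0, by omega⟩
  refine exists_hom h i0 (Uf z n c p s l m) (fun i => Uf_const h.pos i) fun e he => ?_
  have h1 : ∀ i, Uf z n c p s l m i ^ n =
      1 + X * C ((if i = m then uw z n c p s i else 0) - (if i = l then uw z n c p s i else 0)) :=
    fun i => (Uf_pow h.pos i).resolve_right hlm
  have h2 := rt_rel h.hz i0 e he
  have h3 : ∀ i, (al (C (e i)) : (CR z)⟦X⟧) * (C (rt z i i0 ^ n) * Uf z n c p s l m i ^ n) =
      C (e i • rt z i i0 ^ n) + X * C (e i • (rt z i i0 ^ n *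
        ((if i = m then uw z n c p s i else 0) - (if i = l then uw z n c p s i else 0)))) := by
    intro i
    have h4 : (al (C (e i)) : (CR z)⟦X⟧) = C (algebraMap ℂ (CR z) (e i)) := by
      rw [al, map_C]
    rw [h1, h4, Algebra.smul_def, Algebra.smul_def]
    simp only [map_mul]
    ring
  simp only [h3]
  rw [Finset.sum_add_distrib, ← map_sum, h2, map_zero, zero_add, ← Finset.mul_sum, ← map_sum]
  have h5 : ∑ i, e i • (rt z i i0 ^ n * ((if i = m then uw z n c p s i else 0) -
      (if i = l then uw z n c p s i else 0))) = 0 := by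
    simp only [mul_sub, smul_sub, Finset.sum_sub_distrib, mul_ite, mul_zero, smul_ite, smul_zero,
      Finset.sum_ite_eq', Finset.mem_univ, if_true]
    rw [uw_rt hz0 h.hn, uw_rt hz0 h.hn, smul_smul, smul_smul, ← sub_smul]
    have h6 : e m * (c m)⁻¹ - e l * (c l)⁻¹ = 0 := by
      have := hrel e he
      field_simp
      linear_combination (-1 : ℂ) * this
    rw [h6, zero_smul]
  rw [h5, map_zero, mul_zero]

end TConf

section beta

variable {n : ℕ} {c : Fin k → ℂ} {p s l m : Fin k}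

/-- The first order terms. -/
def gd (z : Fin k → KK) (n : ℕ) (c : Fin k → ℂ) (p s l m i : Fin k) : CR z :=
  (if i = m then uw z n c p s i else 0) - (if i = l then uw z n c p s i else 0)

theorem Uf_pow' (hn : 0 < n) (hlm : l ≠ m) (i : Fin k) : Uf z n c p s l m i ^ n =
    1 + X * C (gd z n c p s l m i) := (Uf_pow hn i).resolve_right hlm

/-- The defining property of the automorphisms. -/
def IsB (z : Fin k → KK) (n : ℕ) (c : Fin k → ℂ) (p s l m : Fin k) (β : PG (CR z)) : Prop :=
  Uni β ∧ ∀ i j, Wd β i j * Uf z n c p s l m j = Uf z n c p s l m i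

theorem IsB.keep (hz0 : ∀ i, z i ≠ 0) (hn : 0 < n) {β : PG (CR z)} (hβ : IsB z n c p s l m β)
    {R : Set (Fin k × Fin k)} (hl : uw z n c p s l ∈ sb z (ratioAlg z R))
    (hm : uw z n c p s m ∈ sb z (ratioAlg z R)) : KE (sb z (ratioAlg z R)) β := by
  refine KE_of_gen fun i j hij => ?_
  rw [Wd_spec hz0]
  refine mul_mem (C_mem_PSub (ratio_mem hij)) ?_
  obtain ⟨w, hw, hw1, _⟩ := PSub_inv (Uf_mem hl hm j) (Uf_const hn j)
  have h1 : Wd β i j = Uf z n c p s l m i * w := by
    linear_combination w * hβ.2 i j - Wd β i j * hw1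
  rw [h1]
  exact mul_mem (Uf_mem hl hm i) hw

theorem IsB.coeff_one (hz0 : ∀ i, z i ≠ 0) (hn : 0 < n) (hlm : l ≠ m) {β : PG (CR z)}
    (hβ : IsB z n c p s l m β) (i j : Fin k) :
    n * coeff 1 (Wd β i j) = gd z n c p s l m i - gd z n c p s l m j := by
  have hm : ∀ p q : (CR z)⟦X⟧, coeff 1 (p * q) =
      constantCoeff p * coeff 1 q + coeff 1 p * constantCoeff q := by
    intro p q
    rw [coeff_mul, Finset.Nat.antidiagonal_succ]
    simp [mul_comm]
  have h1 := congrArg (coeff 1) (hβ.2 i j)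
  rw [hm, Wd_const hz0 hβ.1, Uf_const hn, one_mul, mul_one] at h1
  have h2 : ∀ i, n * coeff 1 (Uf z n c p s l m i) = gd z n c p s l m i := by
    intro i
    rw [← (pow_coeff_one (Uf_const hn i) n).1, Uf_pow' hn hlm, map_add, PowerSeries.coeff_one,
      if_neg one_ne_zero, zero_add, ← pow_one (X : (CR z)⟦X⟧), coeff_X_pow_mul']
    simp
  linear_combination (n : CR z) * h1 + h2 i - h2 j

theorem IsB.act (hz0 : ∀ i, z i ≠ 0) (hn : 2 ≤ n) {β : PG (CR z)}
    (hβ : IsB z n c p s l m β) (hpl : p ≠ l) (hpm : p ≠ m) (hsl : s ≠ l) (hsm : s ≠ m)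
    (i : Fin k) : β (C (uw z n c p s i)) * Uf z n c p s l m i ^ n = C (uw z n c p s i) := by
  have hp := hβ.2 p i
  have hs := hβ.2 s i
  have hp1 : Uf z n c p s l m p = 1 := by rw [Uf, if_neg hpl, if_neg hpm]
  have hs1 : Uf z n c p s l m s = 1 := by rw [Uf, if_neg hsl, if_neg hsm]
  rw [hp1] at hp
  rw [hs1] at hs
  obtain ⟨t, rfl⟩ : ∃ t, n = t + 2 := ⟨n - 2, by omega⟩
  have h1 : β (C (uw z (t + 2) c p s i)) = C (algebraMap ℂ (CR z) (c i)⁻¹) *
      ((C (rt z p i) * Wd β p i) ^ 2 * (C (rt z s i) * Wd β s i) ^ t) := by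
    rw [uw, Algebra.smul_def, Nat.add_sub_cancel]
    simp only [map_mul, map_pow]
    rw [pg_algC, Wd_spec hz0, Wd_spec hz0]
  have h2 : (C (uw z (t + 2) c p s i) : (CR z)⟦X⟧) = C (algebraMap ℂ (CR z) (c i)⁻¹) *
      (C (rt z p i) ^ 2 * C (rt z s i) ^ t) := by
    rw [uw, Algebra.smul_def, Nat.add_sub_cancel]
    simp only [map_mul, map_pow]
  rw [h1, h2]
  set U := Uf z (t + 2) c p s l m i
  have h3 : C (algebraMap ℂ (CR z) (c i)⁻¹) *
      ((C (rt z p i) * Wd β p i) ^ 2 * (C (rt z s i) * Wd β s i) ^ t) * U ^ (t + 2) =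
      C (algebraMap ℂ (CR z) (c i)⁻¹) *
      (C (rt z p i) ^ 2 * C (rt z s i) ^ t) * ((Wd β p i * U) ^ 2 * (Wd β s i * U) ^ t) := by
    ring
  rw [h3, hp, hs]
  simp

theorem IsB.comp (hz0 : ∀ i, z i ≠ 0) (hn : 2 ≤ n) {q : Fin k} {β β' β'' : PG (CR z)}
    (hβ : IsB z n c p s l m β) (hβ' : IsB z n c p s m q β') (hβ'' : IsB z n c p s l q β'')
    (hlm : l ≠ m) (hmq : m ≠ q) (hlq : l ≠ q)
    (hpl : p ≠ l) (hpm : p ≠ m) (hsl : s ≠ l) (hsm : s ≠ m) : β * β' = β'' := by
  have hn0 : 0 < n := by omega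
  have hnA : ((n : ℕ) : CR z) ≠ 0 := by
    intro h0
    have h1 := congrArg (Subtype.val) h0
    have h2 : ((n : ℕ) : KK) = 0 := by
      have h3 : (((n : ℕ) : CR z) : KK) = (n : KK) := by push_cast; rfl
      rw [← h3]; exact h1
    have h4 : (n : ℕ) = 0 := by exact_mod_cast h2
    omega
  have claim : ∀ i, Uf z n c p s l m i * β (Uf z n c p s m q i) = Uf z n c p s l q i := by
    intro i
    apply root_unique hnA
    · rw [map_mul, Uf_const hn0, hβ.1, Uf_const hn0, one_mul]
    · exact Uf_const hn0 i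
    · have hX : β (X : (CR z)⟦X⟧) = X := by
        have h1 := pg_X_pow_mul β 1 1
        rwa [pow_one, mul_one, map_one, mul_one] at h1
      rw [mul_pow, ← map_pow, Uf_pow' hn0 hmq, Uf_pow' hn0 hlq, map_add, map_one, map_mul, hX]
      have h1 := hβ.act hz0 hn hpl hpm hsl hsm i
      have h2 : Uf z n c p s l m i ^ n = 1 + X * C (gd z n c p s l m i) := Uf_pow' hn0 hlm i
      have h3 : β (C (gd z n c p s m q i)) = (if i = q then β (C (uw z n c p s i)) else 0) -
          (if i = m then β (C (uw z n c p s i)) else 0) := by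
        rw [gd, map_sub, map_sub]
        congr 1
        · split_ifs
          · rfl
          · rw [map_zero, map_zero]
        · split_ifs
          · rfl
          · rw [map_zero, map_zero]
      rw [h3]
      have h4 : ∀ (u v : Fin k), (C (gd z n c p s u v i) : (CR z)⟦X⟧) =
          (if i = v then C (uw z n c p s i) else 0) - (if i = u then C (uw z n c p s i) else 0) := by
        intro u v
        rw [gd, map_sub]
        congr 1
        · split_ifs
          · rfl
          · rw [map_zero]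
        · split_ifs
          · rfl
          · rw [map_zero]
      rw [h4] at h2 ⊢
      split_ifs at h2 ⊢ <;> first | linear_combination h2 | linear_combination h2 + X * h1 |
        linear_combination h2 - X * h1
  refine pg_ext_gen fun i j => ?_
  rw [Wd_spec hz0, Wd_spec hz0]
  congr 1
  have h1 : Wd (β * β') i j * Uf z n c p s l q j = Uf z n c p s l q i := by
    have h2 := congrArg β (hβ'.2 i j)
    rw [map_mul] at h2
    rw [Wd_comp hz0, ← claim, ← claim]
    linear_combination (Wd β i j * Uf z n c p s l m j) * h2 + β (Uf z n c p s m q i) * hβ.2 i j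
  have h2 := hβ''.2 i j
  have h3 : Uf z n c p s l q j ≠ 0 := by
    intro h0
    have h4 := Uf_const (z := z) (c := c) (p := p) (s := s) (l := l) (m := q) hn0 j
    rw [h0, map_zero] at h4
    exact zero_ne_one h4
  exact mul_right_cancel₀ h3 (h1.trans h2.symm)

end beta

end

end Pool.Agent.H94_hk
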