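import Pool.Agent.H94_fr.Proj

/-!
# The cocycle equations for derivations, with conditions on the characters
-/

namespace Pool.Agent.H94_hk

open MvPolynomial

noncomputable section

namespace TConf

variable {k r : ℕ} {T : TConf k r} {z : Fin k → KK} {n : ℕ}

/-- Solvability of the cocycle equations, for data that vanish for the characters in `E`. -/
def SolvE (T : TConf k r) (n : ℕ) (E : (Fin k → Fin n) → Prop) : Prop :=
  ∀ (a : Fin k → Fin n) (d : ℕ), ∑ i, (a i : ℕ) = d * n → ∃ N0, ∀ N ≥ N0,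
    ∀ G : Crv k r → Crv k r → Fin k → R3, T.GData n N d (fun i => (a i : ℕ)) G →
      (E a → ∀ D D' i, G D D' i = 0) → ∃ P, T.GSol n N d (fun i => (a i : ℕ)) G P

/-- Simultaneous expansion of the cocycle and solution of the equations. -/
theorem exists_solE {E : (Fin k → Fin n) → Prop} (hn : 0 < n) (hs : T.SolvE n E)
    (hz : ∀ i, z i ^ n = algebraMap R3 KK (T.L i)) (hz0 : ∀ i, z i ≠ 0)
    (g : Crv k r → Crv k r → Fin k → KK) (hg : ∀ D D' i, g D D' i ∈ ratioAlg z Set.univ)
    (hsym : ∀ D D', T.meet D D' → g D D' = g D' D)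
    (hrel : ∀ D D' (c : Fin k → ℂ), ∑ i, c i • T.f i = 0 →
      ∑ i, algebraMap R3 KK (C (c i)) * (algebraMap R3 KK (T.L i) * g D D' i) = 0)
    (hord : ∀ D D' D'' i j, T.meet D D' → T.meet D D'' →
      (g D D' i - g D D' j) - (g D D'' i - g D D'' j) ∈ Submodule.span ℂ
        (zm z '' {e | ∑ i, e i = 0 ∧
          -((if T.val D i = T.val D j then 0 else 1 : ℕ) : ℤ) ≤ T.ord D e}))
    (hE : ∀ N D D' i (P : (Fin k → Fin n) → R3), T.HasExp z n N (g D D' i) P →
      ∀ a, E a → P a = 0) :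
    ∃ N, 1 ≤ N ∧ ∃ (G : Crv k r → Crv k r → Fin k → (Fin k → Fin n) → R3)
      (P : Fin k → (Fin k → Fin n) → R3),
      (∀ D D' i, T.HasExp z n N (g D D' i) (G D D' i)) ∧
      (∀ D D' i a, G D D' i a ∈ Mhom k n N a) ∧
      (∀ a : Fin k → Fin n, ¬ n ∣ ∑ i, (a i : ℕ) → (∀ D D' i, G D D' i a = 0) ∧
        ∀ i, P i a = 0) ∧
      ∀ (a : Fin k → Fin n) (d : ℕ), ∑ i, (a i : ℕ) = d * n →
        T.GSol n N d (fun i => (a i : ℕ)) (fun D D' i => G D D' i a) (fun i => P i a) := by
  have h1 : ∀ x : Crv k r × Crv k r × Fin k, ∃ N0, ∀ N ≥ N0, ∃ P,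
      T.HasExp z n N (g x.1 x.2.1 x.2.2) P ∧ ∀ a, P a ∈ Mhom k n N a :=
    fun x => exp_hom hn hz hz0 (hg _ _ _)
  have h2 : ∀ x : (Crv k r × Crv k r × Crv k r) × (Fin k × Fin k), ∃ N0, ∀ N ≥ N0,
      T.meet x.1.1 x.1.2.1 → T.meet x.1.1 x.1.2.2 → ∃ P,
      T.HasExp z n N ((g x.1.1 x.1.2.1 x.2.1 - g x.1.1 x.1.2.1 x.2.2) -
        (g x.1.1 x.1.2.2 x.2.1 - g x.1.1 x.1.2.2 x.2.2)) P ∧
      ∀ a : Fin k → Fin n, P a ∈ T.J x.1.1 (T.gb n N (fun i => (a i : ℕ)) x.2.1 x.2.2 x.1.1) := by
    intro x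
    by_cases hm : T.meet x.1.1 x.1.2.1 ∧ T.meet x.1.1 x.1.2.2
    · obtain ⟨N0, hN0⟩ := exp_ord hn hz hz0 _ _ (hord x.1.1 x.1.2.1 x.1.2.2 x.2.1 x.2.2 hm.1 hm.2)
      exact ⟨N0, fun N hN _ _ => hN0 N hN⟩
    · exact ⟨0, fun N _ h h' => absurd ⟨h, h'⟩ hm⟩
  have h3 : ∀ a : Fin k → Fin n, ∃ N0, ∀ N ≥ N0, ∀ d, ∑ i, (a i : ℕ) = d * n →
      ∀ G : Crv k r → Crv k r → Fin k → R3, T.GData n N d (fun i => (a i : ℕ)) G →
        (E a → ∀ D D' i, G D D' i = 0) → ∃ P, T.GSol n N d (fun i => (a i : ℕ)) G P := by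
    intro a
    by_cases hd : n ∣ ∑ i, (a i : ℕ)
    · obtain ⟨d, hd⟩ := hd
      obtain ⟨N0, hN0⟩ := hs a d (by rw [hd, mul_comm])
      refine ⟨N0, fun N hN d' hd' => ?_⟩
      have h4 : d' = d := by
        rw [hd, mul_comm] at hd'
        exact (Nat.eq_of_mul_eq_mul_right hn hd').symm
      subst h4
      exact hN0 N hN
    · exact ⟨0, fun N _ d hd' => absurd (Dvd.intro_left d hd'.symm) hd⟩
  choose N1 hN1 using h1
  choose N2 hN2 using h2
  choose N3 hN3 using h3
  set N := 1 + ∑ x, N1 x + ∑ x, N2 x + ∑ a, N3 a with hN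
  have le1 : ∀ x, N1 x ≤ N := by
    intro x
    have := Finset.single_le_sum (f := N1) (fun _ _ => Nat.zero_le _) (Finset.mem_univ x)
    omega
  have le2 : ∀ x, N2 x ≤ N := by
    intro x
    have := Finset.single_le_sum (f := N2) (fun _ _ => Nat.zero_le _) (Finset.mem_univ x)
    omega
  have le3 : ∀ a, N3 a ≤ N := by
    intro a
    have := Finset.single_le_sum (f := N3) (fun _ _ => Nat.zero_le _) (Finset.mem_univ a)
    omega
  have h4 := fun x => hN1 x N (le1 x)
  choose G0 hG0 hG0' using h4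
  let G : Crv k r → Crv k r → Fin k → (Fin k → Fin n) → R3 := fun D D' i => G0 (D, D', i)
  have hG : ∀ D D' i, T.HasExp z n N (g D D' i) (G D D' i) := fun D D' i => hG0 (D, D', i)
  have hG' : ∀ D D' i a, G D D' i a ∈ Mhom k n N a := fun D D' i => hG0' (D, D', i)
  have hsol : ∀ a : Fin k → Fin n, ∃ P : Fin k → R3, (¬ n ∣ ∑ i, (a i : ℕ) → ∀ i, P i = 0) ∧
      ∀ d, ∑ i, (a i : ℕ) = d * n →
        T.GSol n N d (fun i => (a i : ℕ)) (fun D D' i => G D D' i a) P := by
    intro a
    by_cases hd : n ∣ ∑ i, (a i : ℕ)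
    · obtain ⟨d, hd1⟩ := hd
      have hd2 : ∑ i, (a i : ℕ) = d * n := by rw [hd1, mul_comm]
      have hdiv : (∑ i, (a i : ℕ)) / n = d := by rw [hd1, Nat.mul_div_cancel_left _ hn]
      obtain ⟨P, hP⟩ := hN3 a N (le3 a) d hd2 (fun D D' i => G D D' i a) {
        sym := by
          intro D D' hm
          funext i
          have h5 := hG D D' i
          rw [hsym D D' hm] at h5
          exact congrFun (h5.unique hn hz (hG D' D i)) a
        hom := by
          intro D D' i
          have h5 := hG' D D' i a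
          rw [Mhom, if_pos ⟨d, hd1⟩, mem_homogeneousSubmodule, hdiv] at h5
          exact h5
        rel := by
          intro D D' c hc
          have h5 := HasExp.sum Finset.univ (fun i (_ : i ∈ Finset.univ) =>
            ((hG D D' i).mul (T.L i)).mul (C (c i)))
          rw [hrel D D' c hc] at h5
          exact congrFun (h5.unique hn hz HasExp.zero) a
        ord := by
          intro D D' D'' i j hm hm'
          obtain ⟨P, hP, hP'⟩ := hN2 ((D, D', D''), (i, j)) N (le2 _) hm hm'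
          have h5 := ((hG D D' i).sub (hG D D' j)).sub ((hG D D'' i).sub (hG D D'' j))
          have h6 := congrFun (h5.unique hn hz hP) a
          change (G D D' i a - G D D' j a) - (G D D'' i a - G D D'' j a) ∈ _
          rw [h6]
          exact hP' a } (fun ha D D' i => hE N D D' i (G D D' i) (hG D D' i) a ha)
      refine ⟨P, fun h => absurd ⟨d, hd1⟩ h, fun d' hd' => ?_⟩
      have h4 : d' = d := by
        rw [hd2] at hd'
        exact (Nat.eq_of_mul_eq_mul_right hn hd').symm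
      rw [h4]
      exact hP
    · exact ⟨fun _ => 0, fun _ _ => rfl, fun d hd' => absurd (Dvd.intro_left d hd'.symm) hd⟩
  choose P hP0 hP using hsol
  refine ⟨N, by omega, G, fun i a => P a i, hG, hG', fun a ha => ⟨fun D D' i => ?_, hP0 a ha⟩,
    fun a d hd => hP a d hd⟩
  have h5 := hG' D D' i a
  rw [Mhom, if_neg ha] at h5
  exact h5

/-- The derivation solving the cocycle equations. -/
theorem bridgeE {E : (Fin k → Fin n) → Prop} (hT : T.Full) (hn : 0 < n) (hs : T.SolvE n E)
    (hz : ∀ i, z i ^ n = algebraMap R3 KK (T.L i))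
    (θ : Crv k r → Crv k r → Derivation ℂ (ratioAlg z Set.univ) (ratioAlg z Set.univ))
    (hsym : ∀ D D', T.meet D D' → θ D D' = θ D' D)
    (hadj : ∀ D D' D'', T.meet D D' → T.meet D D'' → D' ≠ D'' →
      Preserves (θ D D' - θ D D'') (ratioAlg z (T.chart D D') ⊔ ratioAlg z (T.chart D D'')))
    (hE : ∀ N D D' i j (P : (Fin k → Fin n) → R3), T.HasExp z n N (ld (θ D D') i j : KK) P →
      ∀ a, E a → P a = 0) :
    ∃ δ : Derivation ℂ (ratioAlg z Set.univ) (ratioAlg z Set.univ),
      ∀ D D', T.meet D D' → Preserves (θ D D' - δ) (ratioAlg z (T.chart D D')) := by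
  have hz0 := z_ne_zero hn T.L z hz T.L_prime
  have hk3 := hT.k3
  let i0 : Fin k := ⟨0, by omega⟩
  have hld3 : ∀ (δ : Derivation ℂ (ratioAlg z Set.univ) (ratioAlg z Set.univ)) (i j : Fin k),
      (ld δ i i0 : KK) - ld δ j i0 = ld δ i j := by
    intro δ i j
    have h1 := congrArg Subtype.val (ld_add δ hz0 i j i0)
    have h2 : (ld δ i j : KK) + ld δ j i0 = ld δ i i0 := h1
    rw [← h2]; ring
  obtain ⟨N, hN, G, P, hG, hGmem, hGP, hsol⟩ := exists_solE hn hs hz hz0
    (fun D D' i => (ld (θ D D') i i0 : KK)) (fun D D' i => Subtype.property _)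
    (by
      intro D D' hm
      have h1 : θ D D' = θ D' D := hsym D D' hm
      rw [h1])
    (by
      intro D D' c hc
      exact ld_rel hn hz hz0 _ i0 c hc)
    (by
      intro D D' D'' i j hm hm'
      rw [hld3, hld3]
      have h1 : (ld (θ D D') i j : KK) - ld (θ D D'') i j =
          (ld (θ D D' - θ D D'') i j : KK) := by
        rw [ld_sub]
        push_cast
        rfl
      rw [h1]
      by_cases hne : D' = D''
      · subst hne
        rw [sub_self]
        have h2 : ld (0 : Derivation ℂ (ratioAlg z Set.univ) (ratioAlg z Set.univ)) i j = 0 := by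
          rw [ld, Derivation.coe_zero, Pi.zero_apply, zero_mul]
        rw [h2]
        exact zero_mem _
      · exact ld_ord hz0 _ hm hm' hne (hadj D D' D'' hm hm' hne) i j)
    (fun N D D' i P hP a ha => hE N D D' i i0 P hP a ha)
  have hP : ∀ (a : Fin k → Fin n) (d : ℕ), ∑ i, (a i : ℕ) = d * n →
      T.GSol n N d (fun i => (a i : ℕ)) (fun D D' i => G D D' i a) (fun i => P i a) := hsol
  have hQ : algebraMap R3 KK ((∏ i, T.L i) ^ N) ≠ 0 := by
    rw [alg_Q hz]; exact zm_ne_zero hz0 _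
  have hdN : ∀ (a : Fin k → Fin n) (d : ℕ), ∑ i, (a i : ℕ) = d * n → d ≤ k * N := by
    intro a d hd
    have h1 := d_le (fun i => (a i).2) hd hn
    nlinarith
  let π : Fin k → KK := fun i => (∑ a, algebraMap R3 KK (P i a) * ∏ i, z i ^ (a i : ℕ)) /
    algebraMap R3 KK ((∏ i, T.L i) ^ N)
  have hπE : ∀ i, T.HasExp z n N (π i) (P i) := by
    intro i
    rw [HasExp]
    simp only [π]
    rw [mul_div_cancel₀ _ hQ]
  have hπ : ∀ i, π i ∈ ratioAlg z Set.univ := by
    intro i
    rw [(hπE i).eq_sum hz hz0]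
    refine Subalgebra.sum_mem _ fun a _ => ?_
    by_cases hd : n ∣ ∑ i, (a i : ℕ)
    · obtain ⟨d, hd1⟩ := hd
      have hd2 : ∑ i, (a i : ℕ) = d * n := by rw [hd1, mul_comm]
      exact hT.suf_univ hz hz0 i0 hd2 (hdN a d hd2) ((hP a d hd2).hom i)
    · rw [(hGP a hd).2 i, map_zero, zero_mul, zero_div]
      exact Subalgebra.zero_mem _
  have hcC : ∀ x : ℂ, algebraMap R3 KK (C x) = algebraMap ℂ KK x := by
    intro x
    have h4 : (C x : R3) = algebraMap ℂ R3 x := rfl
    rw [h4, ← IsScalarTower.algebraMap_apply ℂ R3 KK]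
  obtain ⟨δ, hδ⟩ := hT.exists_theta hn hz hz0 π hπ (by
    intro c hc
    have h1 := HasExp.sum Finset.univ (fun i (_ : i ∈ Finset.univ) =>
      ((hπE i).mul (T.L i)).mul (C (c i)))
    have h2 := h1.eq_sum hz hz0
    simp only [hcC] at h2
    rw [h2]
    refine Finset.sum_eq_zero fun a _ => ?_
    have h3 : ∑ i, C (c i) * (T.L i * P i a) = 0 := by
      by_cases hd : n ∣ ∑ i, (a i : ℕ)
      · obtain ⟨d, hd1⟩ := hd
        have hd2 : ∑ i, (a i : ℕ) = d * n := by rw [hd1, mul_comm]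
        exact (hP a d hd2).rel c hc
      · exact Finset.sum_eq_zero fun i _ => by rw [(hGP a hd).2 i]; ring
    rw [h3, map_zero, zero_mul, zero_div])
  refine ⟨δ, ?_⟩
  · intro D D' hm
    refine preserves_of _ fun i j hij => ?_
    have h1 : (((θ D D' - δ) (rt z i j) : ratioAlg z Set.univ) : KK) =
        z i / z j * (((ld (θ D D') i i0 : KK) - (ld (θ D D') j i0 : KK)) -
          (π i - π j)) := by
      rw [Derivation.sub_apply, hld3]
      have h2 : (δ (rt z i j) : KK) = z i / z j * (π i - π j) := hδ i j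
      have h3 : ((θ D D') (rt z i j) : KK) =
          z i / z j * (ld (θ D D') i j : KK) := by
        rw [ld_mul _ hz0]; rfl
      have h4 : (((θ D D') (rt z i j) - δ (rt z i j) : ratioAlg z Set.univ) :
        KK) = ((θ D D') (rt z i j) : KK) - (δ (rt z i j) : KK) := rfl
      rw [h4, h2, h3]; ring
    rw [h1]
    have h5 := ((hG D D' i).sub (hG D D' j)).sub ((hπE i).sub (hπE j))
    rw [h5.eq_sum hz hz0, Finset.mul_sum]
    refine Subalgebra.sum_mem _ fun a _ => ?_
    by_cases hd : n ∣ ∑ i, (a i : ℕ)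
    · obtain ⟨d, hd1⟩ := hd
      have hd2 : ∑ i, (a i : ℕ) = d * n := by rw [hd1, mul_comm]
      have hS := hP a d hd2
      have hv := T.chart_val hm hij
      have hij' : (i, j) ∈ T.chart D' D := by
        rw [T.chart_symm]; exact hij
      have hv' := T.chart_val (T.meet_symm hm) hij'
      have hr1 := hS.reg D D' i j hm
      have hr2 := hS.reg D' D i j (T.meet_symm hm)
      have hGs : G D' D = G D D' := by
        funext i
        have h6 := hG D' D i
        rw [← hsym D D' hm] at h6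
        exact h6.unique hn hz (hG D D' i)
      rw [hGs] at hr2
      have hsuf := fun (Px : R3) (hh : Px.IsHomogeneous (k * N - d))
        (h1 : Px ∈ T.J D (T.gb n N (fun i => (a i : ℕ)) i j D))
        (h2 : Px ∈ T.J D' (T.gb n N (fun i => (a i : ℕ)) i j D')) =>
        hT.suf hz hz0 hm hv hv' hd2 (hdN a d hd2) hh h1 h2
      have hGh : ∀ i, (G D D' i a).IsHomogeneous (k * N - d) := by
        intro i
        obtain hGhom : G D D' i a ∈ Mhom k n N a := by
          exact hGmem D D' i a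
        rw [Mhom, if_pos ⟨d, hd1⟩, mem_homogeneousSubmodule] at hGhom
        have hdiv : (∑ i, (a i : ℕ)) / n = d := by rw [hd1, Nat.mul_div_cancel_left _ hn]
        rw [hdiv] at hGhom
        exact hGhom
      have hmem := hsuf ((G D D' i a - G D D' j a) - (P i a - P j a))
        (((hGh i).sub (hGh j)).sub ((hS.hom i).sub (hS.hom j)))
        (by
          have := neg_mem hr1
          rwa [neg_sub] at this)
        (by
          have := neg_mem hr2
          rwa [neg_sub] at this)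
      have h8 : z i / z j * (algebraMap R3 KK ((G D D' i a - G D D' j a) - (P i a - P j a)) *
          (∏ i, z i ^ (a i : ℕ)) / algebraMap R3 KK ((∏ i, T.L i) ^ N)) =
          algebraMap R3 KK ((G D D' i a - G D D' j a) - (P i a - P j a)) *
          (∏ i, z i ^ (a i : ℕ)) * (z i / z j) / algebraMap R3 KK ((∏ i, T.L i) ^ N) := by ring
      rw [h8]
      exact hmem
    · rw [(hGP a hd).1 D D' i, (hGP a hd).1 D D' j, (hGP a hd).2 i, (hGP a hd).2 j]
      simp

end TConf

end

end Pool.Agent.H94_hk
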