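import Pool.Agent.H94_fr.Neg5
import Pool.Agent.H94_gen.Fin2

/-!
# The rigid configurations with rigid Hirzebruch-Kummer coverings
-/

namespace Pool.Agent.H94_hk

open Pool.Agent.H94_fr

noncomputable section

theorem exists_roots {k r : ℕ} (T : H94_gen.TConf ℂ k r) {n : ℕ} (hn : 0 < n) :
    ∃ z : Fin k → KK, ∀ i, z i ^ n = algebraMap R3 KK (lin (T.f i)) := by
  choose z hz using fun i => IsAlgClosed.exists_pow_nat_eq (algebraMap R3 KK (lin (T.f i))) hn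
  exact ⟨z, hz⟩

/-- Four lines. -/
theorem neg4 (𝒞 : Rig.Config 4) {n : ℕ} (hn : 4 ≤ n) : ¬ Rig.FormallyRigid 𝒞 n := by
  rw [formallyRigid_iff]
  intro h
  obtain ⟨r, T, hf, -, -, -, hF⟩ := H94_gen.exists_conf_full 𝒞.distinct 𝒞.nonconcurrent
  obtain ⟨z, hz⟩ := exists_roots T (by omega : 0 < n)
  have hR : (H94_gen.toHk T).Rts n z := ⟨hF, by omega, hz⟩
  refine TConf.neg_four hR hn (toOld 𝒞) hf.symm (h z fun i => ?_)
  rw [hz, hf]
  rfl

/-- Five lines. -/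
theorem neg5 (𝒞 : Rig.Config 5) (hr : 𝒞.ArcRigid) {n : ℕ} (hn : 4 ≤ n) :
    ¬ Rig.FormallyRigid 𝒞 n := by
  rw [formallyRigid_iff]
  intro h
  obtain ⟨r, T, hf, hok, h3, hout, hF⟩ :=
    H94_gen.exists_conf_full 𝒞.distinct 𝒞.nonconcurrent
  have hLR : T.LR := H94_gen.frig_lr hF (by rw [hf]; exact hr)
  have hT : T.Full := ⟨hok, h3, hout, H94_gen.lr_pts hLR le_rfl⟩
  obtain ⟨z, hz⟩ := exists_roots T (by omega : 0 < n)
  have hR : (H94_gen.toHk T).Rts n z := ⟨hF, by omega, hz⟩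
  refine H94_gen.TConf.neg_five hT hF hLR hR hn (toOld 𝒞) hf.symm (h z fun i => ?_)
  rw [hz, hf]
  rfl

/-- The lines of a configuration are at least three. -/
theorem three_le {k : ℕ} (𝒞 : Rig.Config k) : 3 ≤ k := H94_gen.cfg_k3 𝒞.nonconcurrent

/-- Rigid configurations whose number of lines is not four or five. -/
theorem pos_all {k : ℕ} (𝒞 : Rig.Config k) (h : 𝒞.ArcRigid) (hk : k ≠ 4 ∧ k ≠ 5) {n : ℕ}
    (hn : k < n) : Rig.FormallyRigid 𝒞 n := by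
  have h3 := three_le 𝒞
  by_cases h6 : 6 ≤ k
  · exact pos_six 𝒞 h h6 hn
  · have hk3 : k = 3 := by omega
    subst hk3
    exact pos_three 𝒞 h hn

/-- Rigid configurations of four or five lines. -/
theorem neg_all {k : ℕ} (𝒞 : Rig.Config k) (h : 𝒞.ArcRigid) (hk : k = 4 ∨ k = 5) {n : ℕ}
    (hn : 4 ≤ n) : ¬ Rig.FormallyRigid 𝒞 n := by
  rcases hk with rfl | rfl
  · exact neg4 𝒞 hn
  · exact neg5 𝒞 h hn

/-- The rigid configurations with rigid Hirzebruch-Kummer coverings for large `n`. -/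
theorem answer {k : ℕ} (𝒞 : Rig.Config k) (h : 𝒞.ArcRigid) :
    (∃ N, ∀ n ≥ N, Rig.FormallyRigid 𝒞 n) ↔ k ≠ 4 ∧ k ≠ 5 := by
  constructor
  · rintro ⟨N, hN⟩
    by_contra hk
    exact neg_all 𝒞 h (by omega) (by omega : 4 ≤ N + 4) (hN (N + 4) (by omega))
  · intro hk
    exact ⟨k + 1, fun n hn => pos_all 𝒞 h hk hn⟩

end

end Pool.Agent.H94_hk
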