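import Pool.Agent.H94_fr.LRf

/-!
# Solvability for formally rigid configurations
-/

namespace Pool.Agent.H94_gen

open Pool.Agent.H94_hk (FRig)

noncomputable section

set_option linter.unusedSectionVars false

variable {k r : ℕ}

theorem cfg_span {form : Fin k → Fin 3 → ℂ}
    (hnc : ∀ p : Fin 3 → ℂ, p ≠ 0 → ∃ i, form i ⬝ᵥ p ≠ 0) (v : Fin 3 → ℂ) :
    ∃ b : Fin k → ℂ, v = ∑ l, b l • form l := by
  have h : v ∈ Submodule.span ℂ (Set.range form) := by
    by_contra hv
    have hlt : Submodule.span ℂ (Set.range form) < ⊤ := by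
      rw [lt_top_iff_ne_top]
      intro h0
      exact hv (h0 ▸ Submodule.mem_top)
    obtain ⟨f, hf0, hf⟩ := Submodule.exists_le_ker_of_lt_top _ hlt
    set p : Fin 3 → ℂ := fun j => f (Pi.single j 1) with hp
    have hfe : ∀ v : Fin 3 → ℂ, f v = v ⬝ᵥ p := by
      intro v
      have h1 : v = ∑ j, v j • (Pi.single j 1 : Fin 3 → ℂ) := by
        funext i
        simp [Finset.sum_apply, Pi.single_apply]
      conv_lhs => rw [h1]
      rw [map_sum]
      simp only [map_smul, smul_eq_mul, dotProduct, hp]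
    have hp0 : p ≠ 0 := by
      intro h0
      apply hf0
      ext1
      rename_i j
      ext
      simp [hfe, h0]
    obtain ⟨i, hi⟩ := hnc p hp0
    apply hi
    rw [← hfe]
    exact hf (Submodule.subset_span ⟨i, rfl⟩)
  obtain ⟨c, hc⟩ := (Submodule.mem_span_range_iff_exists_fun ℂ).mp h
  exact ⟨c, hc.symm⟩

theorem cfg_k3 {form : Fin k → Fin 3 → ℂ}
    (hnc : ∀ p : Fin 3 → ℂ, p ≠ 0 → ∃ i, form i ⬝ᵥ p ≠ 0) : 3 ≤ k := by
  let Φ : (Fin k → ℂ) →ₗ[ℂ] (Fin 3 → ℂ) :=
    { toFun := fun b => ∑ l, b l • form l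
      map_add' := by
        intro x y
        simp only [Pi.add_apply, add_smul, Finset.sum_add_distrib]
      map_smul' := by
        intro s x
        simp only [Pi.smul_apply, smul_eq_mul, mul_smul, Finset.smul_sum, RingHom.id_apply] }
  have hsurj : Function.Surjective Φ := by
    intro v
    obtain ⟨b, hb⟩ := cfg_span hnc v
    exact ⟨b, hb.symm⟩
  have h1 := LinearMap.finrank_le_finrank_of_surjective hsurj
  simpa using h1

/-- The data of a configuration, in the form used for the gluing of automorphisms. -/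
theorem exists_conf_full {form : Fin k → Fin 3 → ℂ}
    (hind : ∀ i j, i ≠ j → LinearIndependent ℂ ![form i, form j])
    (hnc : ∀ p : Fin 3 → ℂ, p ≠ 0 → ∃ i, form i ⬝ᵥ p ≠ 0) :
    ∃ (r : ℕ) (T : TConf ℂ k r), T.f = form ∧ T.Ok ∧ (∀ q, 3 ≤ (T.tri q).card) ∧
      (∀ q, ∃ w, w ∉ T.tri q) ∧ (toHk T).Full := by
  have hk := cfg_k3 hnc
  obtain ⟨r, T, hf, hok, h3, hout, hpt⟩ := exists_conf hind hnc (by omega : 2 ≤ k)
  refine ⟨r, T, hf, hok, h3, hout, ?_⟩
  refine ⟨⟨?_, hok.ne⟩, h3, hout, hk, ?_⟩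
  · intro i D D' h1 h2 h3
    rw [toHk_meet] at h1 h2
    refine hok.good i D D' h1 h2 ?_
    rcases D with j | q <;> rcases D' with j' | q' <;> exact h3
  · intro v
    have := cfg_span hnc v
    rw [← hf] at this
    exact this

theorem solvNZ_of {T : TConf ℂ k r} (hF : T.Full) (hIR : T.LR) (hk : 6 ≤ k) {n : ℕ} (hn : k < n) :
    (toHk T).SolvNZ n := by
  intro a d hd
  by_cases hd1 : 1 ≤ d
  · refine ⟨3, fun N hN G hG _ => ?_⟩
    obtain ⟨P, hP⟩ := TConf.solve_pos hF hIR hk (fun i => (a i).isLt) hd hn hd1 hN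
      (G := G)
      { sym := fun D D' h1 => hG.sym D D' ((toHk_meet T D D').mpr h1)
        hom := hG.hom
        rel := hG.rel
        ord := fun D D' D'' i j h1 h2 => by
          rw [← toHk_J, ← toHk_gb]
          exact hG.ord D D' D'' i j ((toHk_meet T D D').mpr h1) ((toHk_meet T D D'').mpr h2) }
    exact ⟨P,
      { hom := hP.hom
        rel := hP.rel
        reg := fun D D' i j h1 => by
          rw [toHk_J, toHk_gb]
          exact hP.reg D D' i j ((toHk_meet T D D').mp h1) }⟩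
  · have hd0 : d = 0 := by omega
    subst hd0
    rw [zero_mul] at hd
    have ha0 : ∀ i, (a i : ℕ) = 0 := fun i =>
      Finset.sum_eq_zero_iff.mp hd i (Finset.mem_univ i)
    refine ⟨0, fun N _ G _ h0 => ⟨fun _ => 0, ?_⟩⟩
    have h1 := h0 ha0
    exact
      { hom := fun i => MvPolynomial.isHomogeneous_zero _ _ _
        rel := fun c _ => by simp
        reg := fun D D' i j _ => by
          rw [h1, h1]
          simp }

theorem main_frig {form : Fin k → Fin 3 → ℂ}
    (hind : ∀ i j, i ≠ j → LinearIndependent ℂ ![form i, form j])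
    (hnc : ∀ p : Fin 3 → ℂ, p ≠ 0 → ∃ i, form i ⬝ᵥ p ≠ 0) (h : FRig form) (hk : 6 ≤ k)
    {n : ℕ} (hn : k < n) :
    ∃ (r : ℕ) (T : H94_hk.TConf k r), T.f = form ∧ T.Full ∧ T.SolvNZ n := by
  obtain ⟨r, T, hf, hok, h3, hout, hfull⟩ := exists_conf_full hind hnc
  have hLR : T.LR := frig_lr hfull (by rw [hf]; exact h)
  have hF : T.Full := ⟨hok, h3, hout, lr_pts hLR (by omega)⟩
  exact ⟨r, toHk T, hf, hfull, solvNZ_of hF hLR hk hn⟩

end

end Pool.Agent.H94_gen
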