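import Pool.Agent.H94_fr.Grad

/-!
# Removing the nontrivial characters from a formal deformation
-/

namespace Pool.Agent.H94_hk

open PowerSeries Pool.Agent.H94_fr

noncomputable section

namespace TConf

variable {k r : ℕ} {T : TConf k r} {z : Fin k → KK} {n : ℕ}

theorem rt_rel (hz : ∀ i, z i ^ n = algebraMap R3 KK (T.L i)) (i0 : Fin k) (c : Fin k → ℂ)
    (hc : ∑ i, c i • T.f i = 0) : ∑ i, c i • rt z i i0 ^ n = 0 := by
  have hcC : ∀ x : ℂ, algebraMap R3 KK (MvPolynomial.C x) = algebraMap ℂ KK x := by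
    intro x
    have h4 : (MvPolynomial.C x : R3) = algebraMap ℂ R3 x := rfl
    rw [h4, ← IsScalarTower.algebraMap_apply ℂ R3 KK]
  have h1 : ∑ i, algebraMap ℂ KK (c i) * z i ^ n = 0 := by
    have h2 : ∑ i, MvPolynomial.C (c i) * T.L i = 0 := by
      rw [← lin_sum_smul, hc]; simp [lin]
    have h3 := congrArg (algebraMap R3 KK) h2
    rw [map_sum, map_zero] at h3
    rw [← h3]
    refine Finset.sum_congr rfl fun i _ => ?_
    rw [map_mul, hcC, hz]
  apply Subtype.ext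
  have h3 : ((∑ i, c i • rt z i i0 ^ n : ratioAlg z Set.univ) : KK) =
      ∑ i, algebraMap ℂ KK (c i) * (z i / z i0) ^ n := by
    rw [AddSubmonoidClass.coe_finsetSum]
    refine Finset.sum_congr rfl fun i _ => ?_
    rw [← Algebra.smul_def]
    rfl
  rw [h3]
  have h4 : ∑ i, algebraMap ℂ KK (c i) * (z i / z i0) ^ n =
      (∑ i, algebraMap ℂ KK (c i) * z i ^ n) / z i0 ^ n := by
    rw [Finset.sum_div]
    exact Finset.sum_congr rfl fun i _ => by rw [div_pow]; ring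
  rw [h4, h1, zero_div]
  rfl

/-- The potentials of a formal deformation. -/
structure Pt (T : TConf k r) (z : Fin k → KK) (χ : Crv k r → Crv k r → PG (CR z)) : Prop where
  uni : ∀ D D', Uni (χ D D')
  sym : ∀ D D', T.meet D D' → χ D D' = χ D' D
  adj : ∀ D D' D'', T.meet D D' → T.meet D D'' →
    KE (sb z (RD T z D)) (χ D D' * (χ D D'')⁻¹)

/-- Gauge transformations. -/
structure Gg (T : TConf k r) (z : Fin k → KK) (Ψ : Crv k r → Crv k r → PG (CR z)) : Prop where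
  uni : ∀ D D', Uni (Ψ D D')
  sym : ∀ D D', T.meet D D' → Ψ D D' = Ψ D' D
  keep : ∀ D D', T.meet D D' → KE (sb z (ratioAlg z (T.chart D D'))) (Ψ D D')

theorem meet_pair (hT : T.Full) {D D' : Crv k r} (hm : T.meet D D') :
    ∃ a b, T.val D a = T.val D b ∧ T.val D' a = 1 ∧ T.val D' b = 0 := by
  rcases D with i | q <;> rcases D' with j | q'
  · have hij : i ≠ j := hm.1
    obtain ⟨w, hwi, hwj⟩ := hT.exists_third i j
    exact ⟨j, w, by simp [val, hij, Ne.symm hwi], by simp [val], by simp [val, Ne.symm hwj]⟩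
  · have hiq : i ∈ T.tri q' := hm
    obtain ⟨c, hc, hci⟩ := hT.exists_other (q := q') i
    obtain ⟨w, hw⟩ := hT.out q'
    have hwi : i ≠ w := by rintro rfl; exact hw hiq
    exact ⟨c, w, by simp [val, Ne.symm hci, hwi], by simp [val, hc], by simp [val, hw]⟩
  · have hjq : j ∈ T.tri q := hm
    obtain ⟨c, hc, hcj⟩ := hT.exists_other (q := q) j
    exact ⟨j, c, by simp [val, hc, hjq], by simp [val], by simp [val, Ne.symm hcj]⟩
  · exact absurd hm id

variable (h : T.Rts n z)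

include h in
theorem KE_RD_of_chart {D D' : Crv k r} (hm : T.meet D D') {φ : PG (CR z)} (hu : Uni φ)
    (hk : KE (sb z (ratioAlg z (T.chart D D'))) φ) : KE (sb z (RD T z D)) φ := by
  obtain ⟨a, b, hab, ha', hb'⟩ := meet_pair h.full hm
  refine KE_of_gen fun i j hij => ?_
  have hij' : T.val D j ≤ T.val D i := hij
  have hz0 := h.hz0
  have hord : T.ord D (rv a b) = 0 := by rw [ord_rv, hab, sub_self]
  have hord' : T.ord D' (rv a b) = 1 := by rw [ord_rv, ha', hb']; simp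
  refine KE_ext (f := rt z a b) (g := rt z b a) (sb_mono (chart_le_RD hm)) hu hk ?_ ?_ ?_ ?_
  · rw [mem_sb]
    change z a / z b ∈ _
    rw [← zm_rv hz0]
    exact h.full.zm_mem hz0 hm (sum_rv a b) (by rw [hord]) (by rw [hord']; exact zero_le_one)
  · rw [mem_sb]
    change z a / z b * (z i / z j) ∈ _
    rw [← zm_rv hz0, ← zm_rv hz0, ← zm_add hz0]
    refine h.full.zm_mem hz0 hm ?_ ?_ ?_
    · simp only [Pi.add_apply, Finset.sum_add_distrib, sum_rv, add_zero]
    · rw [ord_add, hord, ord_rv]; omega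
    · rw [ord_add, hord', ord_rv]
      have := T.val_le_one D' j
      omega
  · rw [mem_sb]
    change z b / z a ∈ _
    rw [← zm_rv hz0]
    exact zm_mem_RD h (sum_rv b a) (by rw [ord_rv, hab, sub_self])
  · rw [rt_mul hz0, rt_self hz0]

include h in
theorem Pt.gauge {χ Ψ : Crv k r → Crv k r → PG (CR z)} {Ω : PG (CR z)} (hχ : T.Pt z χ)
    (hΨ : T.Gg z Ψ) (hΩ : Uni Ω) : T.Pt z (fun D D' => (Ψ D D')⁻¹ * χ D D' * Ω) where
  uni D D' := ((hΨ.uni D D').inv.mul (hχ.uni D D')).mul hΩ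
  sym D D' hm := by
    change (Ψ D D')⁻¹ * χ D D' * Ω = (Ψ D' D)⁻¹ * χ D' D * Ω
    rw [hΨ.sym D D' hm, hχ.sym D D' hm]
  adj D D' D'' hm hm' := by
    have h1 : (Ψ D D')⁻¹ * χ D D' * Ω * ((Ψ D D'')⁻¹ * χ D D'' * Ω)⁻¹ =
        (Ψ D D')⁻¹ * (χ D D' * (χ D D'')⁻¹) * Ψ D D'' := by group
    change KE _ ((Ψ D D')⁻¹ * χ D D' * Ω * ((Ψ D D'')⁻¹ * χ D D'' * Ω)⁻¹)
    rw [h1]
    have h2 := KE_RD_of_chart h hm (hΨ.uni D D') (hΨ.keep D D' hm)
    have h3 := KE_RD_of_chart h hm' (hΨ.uni D D'') (hΨ.keep D D'' hm')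
    exact ((h2.inv (hΨ.uni D D')).mul (hχ.adj D D' D'' hm hm')).mul h3

theorem Gg.one : T.Gg z (fun _ _ => 1) where
  uni _ _ := Uni.one
  sym _ _ _ := rfl
  keep _ _ _ := KE.one

theorem Gg.mul {Ψ Ψ' : Crv k r → Crv k r → PG (CR z)} (hΨ : T.Gg z Ψ) (hΨ' : T.Gg z Ψ') :
    T.Gg z (fun D D' => Ψ D D' * Ψ' D D') where
  uni D D' := (hΨ.uni D D').mul (hΨ'.uni D D')
  sym D D' hm := by
    change Ψ D D' * Ψ' D D' = Ψ D' D * Ψ' D' D
    rw [hΨ.sym D D' hm, hΨ'.sym D D' hm]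
  keep D D' hm := (hΨ.keep D D' hm).mul (hΨ'.keep D D' hm)

/-- The derivation given by the leading part with nontrivial characters. -/
theorem exists_th {m : ℕ} (hm : 1 ≤ m) {χ : PG (CR z)} (hu : Uni χ) (hG : Gr m χ) :
    ∃ θ : Derivation ℂ (CR z) (CR z), ∀ i j, (ld θ i j : KK) = Nm h m χ i j := by
  have hz0 := h.hz0
  have hk3 := h.full.k3
  let i0 : Fin k := ⟨0, by omega⟩
  have hadd : ∀ i j, Nm h m χ i i0 - Nm h m χ j i0 = Nm h m χ i j := by
    intro i j
    have := Nm_add h hm hu hG i j i0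
    linear_combination -this
  obtain ⟨θ, hθ⟩ := h.full.exists_theta h.pos h.hz hz0 (fun i => Nm h m χ i i0)
    (fun i => Nm_mem h m χ i i0) (by
      intro c hc
      have h1 := rt_rel h.hz i0 c hc
      have h2 := congrArg (fun x => coeff m (χ (C x))) h1
      simp only [map_sum, map_zero] at h2
      have h3 : ∀ i, coeff m (χ (C (c i • rt z i i0 ^ n))) =
          algebraMap ℂ (CR z) (c i) * (rt z i i0 ^ n * coeff m (Wd χ i i0 ^ n)) := by
        intro i
        rw [Algebra.smul_def, map_mul, map_mul, pg_algC, map_pow, map_pow, Wd_spec hz0, mul_pow,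
          ← map_pow, coeff_C_mul, coeff_C_mul]
      simp only [h3] at h2
      have h4 := congrArg (fun x : CR z => (x : KK) - pr0 h (x : KK)) h2
      simp only [ZeroMemClass.coe_zero, map_zero, sub_zero] at h4
      rw [AddSubmonoidClass.coe_finsetSum, map_sum, ← Finset.sum_sub_distrib] at h4
      have hw : ∀ i, (z i / z i0) ^ n ∈ F0 := by
        intro i
        rw [div_pow, h.hz, h.hz, div_eq_mul_inv]
        exact mul_mem (alg_mem_F0 _) (F0_inv (alg_mem_F0 _))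
      have h5 : ∀ i, ((algebraMap ℂ (CR z) (c i) * (rt z i i0 ^ n * coeff m (Wd χ i i0 ^ n)) :
          CR z) : KK) - pr0 h ((algebraMap ℂ (CR z) (c i) * (rt z i i0 ^ n *
          coeff m (Wd χ i i0 ^ n)) : CR z) : KK) =
          algebraMap ℂ KK (c i) * ((z i / z i0) ^ n * (n * Nm h m χ i i0)) := by
        intro i
        have e1 : ((algebraMap ℂ (CR z) (c i) * (rt z i i0 ^ n * coeff m (Wd χ i i0 ^ n)) :
          CR z) : KK) = algebraMap ℂ KK (c i) * ((z i / z i0) ^ n *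
            ((coeff m (Wd χ i i0 ^ n) : CR z) : KK)) := rfl
        rw [e1, pr0_mul h (F0.algebraMap_mem _), pr0_mul h (hw i)]
        have e2 := coeff_pow_T0 hm (hG i i0) (Wd_const hz0 hu i i0) n
        have e3 := sub_pr0_eq h (x := ((coeff m (Wd χ i i0 ^ n) : CR z) : KK))
          (y := (n : KK) * ((coeff m (Wd χ i i0) : CR z) : KK)) (by
            have e4 : ((coeff m (Wd χ i i0 ^ n) : CR z) : KK) -
              (n : KK) * ((coeff m (Wd χ i i0) : CR z) : KK) =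
              ((coeff m (Wd χ i i0 ^ n) - (n : CR z) * coeff m (Wd χ i i0) : CR z) : KK) := by
              push_cast; ring
            rw [e4]; exact e2)
        have e5 : pr0 h ((n : KK) * ((coeff m (Wd χ i i0) : CR z) : KK)) =
            (n : KK) * pr0 h ((coeff m (Wd χ i i0) : CR z) : KK) :=
          pr0_mul h (F0.natCast_mem n) _
        rw [e5] at e3
        rw [Nm]
        linear_combination algebraMap ℂ KK (c i) * (z i / z i0) ^ n * e3
      simp only [h5] at h4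
      have hn0 : (n : KK) ≠ 0 := by
        have := h.pos
        exact_mod_cast this.ne'
      have h6 : ∑ i, algebraMap ℂ KK (c i) * ((z i / z i0) ^ n * (n * Nm h m χ i i0)) =
          (n / z i0 ^ n) * ∑ i, algebraMap ℂ KK (c i) *
            (algebraMap R3 KK (T.L i) * Nm h m χ i i0) := by
        rw [Finset.mul_sum]
        refine Finset.sum_congr rfl fun i _ => ?_
        rw [div_pow, h.hz i]; ring
      rw [h6] at h4
      exact (mul_eq_zero.mp h4).resolve_left (div_ne_zero hn0 (pow_ne_zero _ (hz0 i0))))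
  refine ⟨θ, fun i j => ?_⟩
  have h1 : (ld θ i j : KK) = (θ (rt z i j) : KK) * (z j / z i) := rfl
  rw [h1, hθ, hadd]
  have h2 := hz0 i
  have h3 := hz0 j
  field_simp

theorem HasExp_pr0 {N : ℕ} {g : KK} {P : (Fin k → Fin n) → R3} (hP : T.HasExp z n N g P)
    (hg : pr0 h g = 0) {a : Fin k → Fin n} (ha : ∀ i, (a i : ℕ) = 0) : P a = 0 := by
  have h1 := congrArg (pr0 h) hP
  rw [pr0_mul h (alg_mem_F0 _), hg, mul_zero, map_sum, Finset.sum_eq_single a] at h1
  · have h2 : ∏ i, z i ^ (a i : ℕ) = 1 := by simp [ha]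
    rw [h2, mul_one, pr0_of_mem h (alg_mem_F0 _)] at h1
    exact (map_eq_zero_iff _ algebraMap_R3_injective).mp h1.symm
  · intro b _ hb
    apply pr0_prod h (alg_mem_F0 _)
    by_contra hcon
    push Not at hcon
    exact hb (funext fun i => Fin.ext (by rw [hcon i, ha i]))
  · intro h; exact absurd (Finset.mem_univ _) h

/-- Solvability for all nontrivial characters. -/
def SolvNZ (T : TConf k r) (n : ℕ) : Prop := T.SolvE n (fun a => ∀ i, (a i : ℕ) = 0)

include h in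
/-- One step of the gauge fixing. -/
theorem gauge_step (hs : T.SolvNZ n) {m : ℕ} (hm : 1 ≤ m) {χ : Crv k r → Crv k r → PG (CR z)}
    (hχ : T.Pt z χ) (hG : ∀ D D', Gr m (χ D D')) :
    ∃ (ψ : Crv k r → Crv k r → PG (CR z)) (ω : PG (CR z)), T.Gg z ψ ∧ Uni ω ∧
      (∀ D D', Cg m (ψ D D') 1) ∧ Cg m ω 1 ∧
      ∀ D D', Gr (m + 1) ((ψ D D')⁻¹ * χ D D' * ω) := by
  classical
  have hz0 := h.hz0
  have hex : ∀ χ : PG (CR z), ∃ θ : Derivation ℂ (CR z) (CR z), Uni χ → Gr m χ →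
      ∀ i j, (ld θ i j : KK) = Nm h m χ i j := by
    intro χ
    by_cases hc : Uni χ ∧ Gr m χ
    · obtain ⟨θ, hθ⟩ := exists_th h hm hc.1 hc.2
      exact ⟨θ, fun _ _ => hθ⟩
    · exact ⟨0, fun h1 h2 => absurd ⟨h1, h2⟩ hc⟩
  choose Θ hΘ using hex
  have hθ : ∀ D D' i j, (ld (Θ (χ D D')) i j : KK) = Nm h m (χ D D') i j := fun D D' =>
    hΘ _ (hχ.uni D D') (hG D D')
  obtain ⟨δ, hδ⟩ := bridgeE h.full h.pos hs h.hz (fun D D' => Θ (χ D D'))
    (fun D D' hm => by rw [hχ.sym D D' hm])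
    (by
      intro D D' D'' hm' hm'' hne
      rw [RD_eq_sup h hm' hm'' hne]
      refine preserves_of _ fun i j hij => ?_
      have h1 : ((Θ (χ D D') - Θ (χ D D'')) (rt z i j) : CR z) =
          rt z i j * (ld (Θ (χ D D')) i j - ld (Θ (χ D D'')) i j) := by
        rw [ld_mul _ hz0, ld_sub]
      have h2 : ((Θ (χ D D') - Θ (χ D D'')) (rt z i j) : KK) =
          z i / z j * Nm h m (χ D D' * (χ D D'')⁻¹) i j := by
        have h3 := Nm_mul h hm ((hχ.uni D D').mul (hχ.uni D D'').inv) (hχ.uni D D'')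
          (Gr.mul' h (hG D D') (Gr.inv' h (hG D D''))) (hG D D'') i j
        rw [inv_mul_cancel_right] at h3
        rw [h1]
        push_cast
        rw [hθ, hθ, h3]
        have h4 : ((rt z i j : CR z) : KK) = z i / z j := rfl
        rw [h4]; ring
      rw [h2]
      have h5 := hχ.adj D D' D'' hm' hm'' (C (rt z i j)) (C_mem_PSub (ratio_mem hij)) m
      have h6 : ((coeff m ((χ D D' * (χ D D'')⁻¹) (C (rt z i j))) : CR z) : KK) ∈ RD T z D := h5
      have h7 := comp_mem_RD h h6 i j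
      have h8 : z i / z j * Nm h m (χ D D' * (χ D D'')⁻¹) i j =
          ((coeff m ((χ D D' * (χ D D'')⁻¹) (C (rt z i j))) : CR z) : KK) -
          z i / z j * pr0 h (z j / z i * ((coeff m ((χ D D' * (χ D D'')⁻¹) (C (rt z i j))) :
            CR z) : KK)) := by
        have h9 : ((coeff m (Wd (χ D D' * (χ D D'')⁻¹) i j) : CR z) : KK) =
            z j / z i * ((coeff m ((χ D D' * (χ D D'')⁻¹) (C (rt z i j))) : CR z) : KK) := by
          rw [coeff_Wd, mul_comm]; rfl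
        rw [Nm, h9, mul_sub, ← mul_assoc, div_mul_div_cancel₀ (hz0 j), div_self (hz0 i), one_mul]
      rw [h8]
      exact sub_mem h6 h7)
    (by
      intro N D D' i j P hP a ha
      refine HasExp_pr0 h hP ?_ ha
      rw [hθ]
      exact pr0_Nm h m _ i j)
  -- exponentials
  have hEx : ∀ D : Derivation ℂ (CR z) (CR z), ∃ ψ : PG (CR z), Cg m ψ 1 ∧ Uni ψ ∧
      (∀ a, coeff m (ψ (C a)) = D a) ∧
      ∀ S : Subalgebra ℂ (CR z), (∀ a ∈ S, D a ∈ S) → KE S ψ := fun D => exists_ex D hm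
  choose Ex hEx1 hEx2 hEx3 hEx4 using hEx
  have hW : ∀ (D : Derivation ℂ (CR z) (CR z)) i j, coeff m (Wd (Ex D) i j) = ld D i j := by
    intro D i j
    rw [coeff_Wd, hEx3, ld]
  have hGe : ∀ D : Derivation ℂ (CR z) (CR z), Gr m (Ex D) := fun D =>
    Gr.congr' h (Gr_one' h m) (hEx1 D)
  refine ⟨fun D D' => Ex (Θ (χ D D') - δ), Ex (-δ), ⟨fun _ _ => hEx2 _, ?_, ?_⟩, hEx2 _,
    fun _ _ => hEx1 _, hEx1 _, ?_⟩
  · intro D D' hm'
    rw [hχ.sym D D' hm']
  · intro D D' hm'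
    exact hEx4 _ _ fun a ha => hδ D D' hm' a ha
  · intro D D' i j l hl
    have hGall : Gr m ((Ex (Θ (χ D D') - δ))⁻¹ * χ D D' * Ex (-δ)) :=
      Gr.mul' h (Gr.mul' h (Gr.inv' h (hGe _)) (hG D D')) (hGe _)
    rcases Nat.lt_or_ge l m with h1 | h1
    · exact hGall i j l h1
    · have hl' : l = m := by omega
      subst hl'
      have h2 : Nm h l ((Ex (Θ (χ D D') - δ))⁻¹ * χ D D' * Ex (-δ)) i j = 0 := by
        rw [Nm_mul h hm ((hEx2 _).inv.mul (hχ.uni D D')) (hEx2 _)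
          (Gr.mul' h (Gr.inv' h (hGe _)) (hG D D')) (hGe _), Nm_mul h hm (hEx2 _).inv
          (hχ.uni D D') (Gr.inv' h (hGe _)) (hG D D'), Nm_inv h hm (hEx2 _) (hGe _)]
        have e1 : Nm h l (Ex (Θ (χ D D') - δ)) i j = Nm h l (χ D D') i j -
            ((ld δ i j : KK) - pr0 h (ld δ i j : KK)) := by
          have e2 : ((coeff l (Wd (Ex (Θ (χ D D') - δ)) i j) : CR z) : KK) =
              Nm h l (χ D D') i j - (ld δ i j : KK) := by
            rw [hW, ld_sub]
            push_cast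
            rw [hθ]
          rw [Nm, e2, map_sub, pr0_Nm]
          ring
        have e3 : Nm h l (Ex (-δ)) i j = -((ld δ i j : KK) - pr0 h (ld δ i j : KK)) := by
          have e4 : ((coeff l (Wd (Ex (-δ)) i j) : CR z) : KK) = -(ld δ i j : KK) := by
            rw [hW, ld, Derivation.neg_apply, neg_mul, ← ld]
            push_cast
            rfl
          rw [Nm, e4, map_neg]
          ring
        rw [e1, e3]
        ring
      rw [Nm, sub_eq_zero] at h2
      rw [h2]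
      exact pr0_mem h _

include h in
/-- Every formal deformation can be made graded. -/
theorem gauge (hs : T.SolvNZ n) {χ : Crv k r → Crv k r → PG (CR z)} (hχ : T.Pt z χ) :
    ∃ (Ψ : Crv k r → Crv k r → PG (CR z)) (Ω : PG (CR z)), T.Gg z Ψ ∧ Uni Ω ∧
      ∀ D D' m, Gr m ((Ψ D D')⁻¹ * χ D D' * Ω) := by
  obtain ⟨σ, hσ1, hσ2⟩ := dep (S := (Crv k r → Crv k r → PG (CR z)) × PG (CR z))
    (fun m s => T.Gg z s.1 ∧ Uni s.2 ∧ ∀ D D', Gr (m + 1) ((s.1 D D')⁻¹ * χ D D' * s.2))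
    (fun m s s' => (∀ D D', Cg (m + 1) (s'.1 D D') (s.1 D D')) ∧ Cg (m + 1) s'.2 s.2)
    (fun _ _ => 1, 1) (by
      refine ⟨Gg.one, Uni.one, fun D D' => ?_⟩
      change Gr 1 (1⁻¹ * χ D D' * 1)
      rw [inv_one, one_mul, mul_one]
      intro i j l hl
      have : l = 0 := by omega
      subst this
      rw [coeff_zero_eq_constantCoeff_apply, Wd_const h.hz0 (hχ.uni D D')]
      exact F0.one_mem) (by
      rintro m ⟨Ψ, Ω⟩ ⟨h1, h2, h3⟩
      obtain ⟨ψ, ω, hψ, hω, hc, hc', hg⟩ := gauge_step h hs (m := m + 1) (by omega)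
        (Pt.gauge h hχ h1 h2) h3
      refine ⟨(fun D D' => Ψ D D' * ψ D D', Ω * ω), ⟨h1.mul hψ, h2.mul hω, fun D D' => ?_⟩, ?_, ?_⟩
      · have e1 : (Ψ D D' * ψ D D')⁻¹ * χ D D' * (Ω * ω) =
            (ψ D D')⁻¹ * ((Ψ D D')⁻¹ * χ D D' * Ω) * ω := by group
        change Gr (m + 1 + 1) ((Ψ D D' * ψ D D')⁻¹ * χ D D' * (Ω * ω))
        rw [e1]
        exact hg D D'
      · intro D D'
        have := (Cg.refl (m + 1) (Ψ D D')).mul (hc D D')
        rwa [mul_one] at this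
      · have := (Cg.refl (m + 1) Ω).mul hc'
        rwa [mul_one] at this)
  have hlim : ∀ D D', ∃ ψ : PG (CR z), Uni ψ ∧ ∀ m, Cg (m + 1) ψ ((σ m).1 D D') := fun D D' =>
    limG (fun m => (σ m).1 D D') ((hσ1 0).1.uni D D') fun m => (hσ2 m).1 D D'
  choose Ψ hΨ1 hΨ2 using hlim
  obtain ⟨Ω, hΩ1, hΩ2⟩ := limG (fun m => (σ m).2) (hσ1 0).2.1 fun m => (hσ2 m).2
  refine ⟨Ψ, Ω, ⟨hΨ1, ?_, ?_⟩, hΩ1, ?_⟩
  · intro D D' hm
    apply eq_of_Cg
    intro m
    have h1 := hΨ2 D D' m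
    have h2 := hΨ2 D' D m
    rw [(hσ1 m).1.sym D D' hm] at h1
    exact (h1.trans h2.symm).mono (by omega)
  · intro D D' hm
    exact KE_of_Cg (hΨ2 D D') fun m => (hσ1 m).1.keep D D' hm
  · intro D D' m
    have h1 := (hσ1 m).2.2 D D'
    have h2 : Cg (m + 1) ((Ψ D D')⁻¹ * χ D D' * Ω) (((σ m).1 D D')⁻¹ * χ D D' * (σ m).2) :=
      ((hΨ2 D D' m).inv.mul (Cg.refl _ _)).mul (hΩ2 m)
    have h3 := Gr.congr' h h1 h2
    exact fun i j => (h3 i j).mono (by omega)

end TConf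

end

end Pool.Agent.H94_hk
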