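import Pool.Agent.H94_fr.Sect

/-!
# Sections of the deformed line bundle and the arc of configurations
-/

namespace Pool.Agent.H94_hk

open PowerSeries Pool.Agent.H94_fr

noncomputable section

section general

variable {A : Type*} [CommRing A] [Algebra ℂ A]

/-- Coefficients in the base, as an element of the power series ring. -/
abbrev al (c : ℂ⟦X⟧) : A⟦X⟧ := PowerSeries.map (algebraMap ℂ A) c

theorem gen {s : ℕ} (e : Fin s → A⟦X⟧) (Pr : A⟦X⟧ → Prop)
    (hsub : ∀ f g, Pr f → Pr g → Pr (f - g))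
    (he : ∀ v : Fin s → ℂ, Pr (∑ j, al (C (v j)) * e j))
    (hX : ∀ f, Pr (X * f) → Pr f)
    (h0 : ∀ f, Pr f → ∃ v : Fin s → ℂ,
      constantCoeff f = ∑ j, algebraMap ℂ A (v j) * constantCoeff (e j))
    (E : A⟦X⟧) (hE : Pr E) : ∃ α : Fin s → ℂ⟦X⟧, E = ∑ j, al (α j) * e j := by
  obtain ⟨σ, hσ1, hσ2⟩ := dep (S := Fin s → ℂ⟦X⟧)
    (fun m α => ∃ R, Pr R ∧ E - ∑ j, al (α j) * e j = X ^ m * R)
    (fun m α α' => ∀ j, X ^ m ∣ α' j - α j) (fun _ => 0) (by
      refine ⟨E, hE, ?_⟩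
      simp [al]) (by
      rintro m α ⟨R, hR, hR'⟩
      obtain ⟨v, hv⟩ := h0 R hR
      refine ⟨fun j => α j + X ^ m * C (v j), ?_, fun j => ?_⟩
      · have h1 : X ∣ R - ∑ j, al (C (v j)) * e j := by
          rw [X_dvd_iff, map_sub, hv, map_sum, sub_eq_zero]
          refine Finset.sum_congr rfl fun j _ => ?_
          rw [map_mul]
          congr 1
        obtain ⟨R', hR2⟩ := h1
        refine ⟨R', hX _ (by rw [← hR2]; exact hsub _ _ hR (he v)), ?_⟩
        have h2 : ∑ j, al (α j + X ^ m * C (v j)) * e j = ∑ j, al (α j) * e j +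
            X ^ m * ∑ j, al (C (v j)) * e j := by
          rw [Finset.mul_sum, ← Finset.sum_add_distrib]
          refine Finset.sum_congr rfl fun j _ => ?_
          rw [al, al, map_add, map_mul, map_pow, PowerSeries.map_X, al]
          ring
        rw [h2, ← sub_sub, hR', ← mul_sub, hR2, pow_succ, mul_assoc]
      · rw [add_sub_cancel_left]; exact Dvd.intro _ rfl)
  have h1 : ∀ j, ∃ a : ℂ⟦X⟧, ∀ m, X ^ m ∣ a - σ m j := fun j =>
    limP (fun m => σ m j) fun m => hσ2 m j
  choose α hα using h1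
  refine ⟨α, eq_of_dvd_all fun m => ?_⟩
  obtain ⟨R, _, hR⟩ := hσ1 m
  have h2 : E - ∑ j, al (α j) * e j = X ^ m * R - ∑ j, al (α j - σ m j) * e j := by
    rw [← hR]
    simp only [al, map_sub, sub_mul, Finset.sum_sub_distrib]
    ring
  rw [h2]
  refine dvd_sub (Dvd.intro _ rfl) (Finset.dvd_sum fun j _ => ?_)
  obtain ⟨u, hu⟩ := hα j m
  rw [hu, al, map_mul, map_pow, PowerSeries.map_X, mul_assoc]
  exact Dvd.intro _ rfl

theorem indep {s : ℕ} (e : Fin s → A⟦X⟧)
    (h0 : ∀ v : Fin s → ℂ, ∑ j, algebraMap ℂ A (v j) * constantCoeff (e j) = 0 → v = 0)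
    (γ : Fin s → ℂ⟦X⟧) (hγ : ∑ j, al (γ j) * e j = 0) : γ = 0 := by
  have key : ∀ m, ∀ j, X ^ m ∣ γ j := by
    intro m
    induction m with
    | zero => intro j; rw [pow_zero]; exact one_dvd _
    | succ m ih =>
      choose δ hδ using ih
      have h1 : X ^ m * ∑ j, al (δ j) * e j = X ^ m * 0 := by
        rw [mul_zero, ← hγ, Finset.mul_sum]
        refine Finset.sum_congr rfl fun j _ => ?_
        rw [hδ j, al, al, map_mul, map_pow, PowerSeries.map_X, mul_assoc]
      have h2 := X_pow_cancel h1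
      have h3 := congrArg constantCoeff h2
      rw [map_sum, map_zero] at h3
      have h4 := h0 (fun j => constantCoeff (δ j)) (by
        rw [← h3]
        refine Finset.sum_congr rfl fun j _ => ?_
        rw [map_mul]
        congr 1)
      intro j
      have h5 : X ∣ δ j := X_dvd_iff.mpr (congrFun h4 j)
      rw [hδ j, pow_succ]
      exact mul_dvd_mul_left _ h5
  funext j
  exact dvd_all_eq_zero fun m => key m j

/-- Roots of power series with constant term one. -/
theorem exists_root {n : ℕ} (hn : 0 < n) {a : ℂ⟦X⟧} (ha : constantCoeff a = 1) :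
    ∃ γ : ℂ⟦X⟧, constantCoeff γ = 1 ∧ γ ^ n = a := by
  have hn0 : (n : ℂ) ≠ 0 := by exact_mod_cast hn.ne'
  obtain ⟨σ, hσ1, hσ2⟩ := dep (S := ℂ⟦X⟧)
    (fun m γ => constantCoeff γ = 1 ∧ X ^ (m + 1) ∣ a - γ ^ n)
    (fun m γ γ' => X ^ (m + 1) ∣ γ' - γ) 1 (by
      refine ⟨map_one _, ?_⟩
      rw [zero_add, pow_one, one_pow, X_dvd_iff, map_sub, ha, map_one, sub_self]) (by
      rintro m γ ⟨h1, h2⟩
      obtain ⟨u, hu⟩ := h2
      set d : ℂ⟦X⟧ := C (constantCoeff u / n) with hd
      refine ⟨γ + X ^ (m + 1) * d, ⟨?_, ?_⟩, ?_⟩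
      · rw [map_add, h1, map_mul, map_pow, constantCoeff_X, zero_pow (by omega), zero_mul,
          add_zero]
      · -- `(γ + t)^n = γ^n + n t γ^(n-1) + t^2 *`
        obtain ⟨w, hw⟩ : ∃ w, (γ + X ^ (m + 1) * d) ^ n = γ ^ n +
            (n : ℂ⟦X⟧) * γ ^ (n - 1) * (X ^ (m + 1) * d) + w * (X ^ (m + 1) * d) ^ 2 := by
          obtain ⟨w, hw⟩ := Polynomial.binomExpansion (Polynomial.X ^ n : Polynomial ℂ⟦X⟧) γ
            (X ^ (m + 1) * d)
          refine ⟨w, ?_⟩
          simpa [Polynomial.derivative_X_pow] using hw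
        have h3 : a - (γ + X ^ (m + 1) * d) ^ n = X ^ (m + 1) *
            (u - (n : ℂ⟦X⟧) * γ ^ (n - 1) * d - w * X ^ (m + 1) * d ^ 2) := by
          rw [hw]
          linear_combination hu
        rw [h3, pow_succ _ (m + 1)]
        refine mul_dvd_mul_left _ (X_dvd_iff.mpr ?_)
        rw [map_sub, map_sub, map_mul, map_mul, map_mul, map_mul, map_natCast, map_pow, map_pow,
          h1, one_pow, mul_one, constantCoeff_X, zero_pow (by omega), mul_zero, zero_mul, hd,
          constantCoeff_C, mul_div_cancel₀ _ hn0]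
        ring
      · rw [add_sub_cancel_left]; exact Dvd.intro _ rfl)
  obtain ⟨γ, hγ⟩ := limP σ fun m => (pow_dvd_pow X (Nat.le_succ m)).trans (hσ2 m)
  refine ⟨γ, ?_, ?_⟩
  · have h1 := hγ 1
    rw [pow_one, X_dvd_iff, map_sub, (hσ1 1).1, sub_eq_zero] at h1
    exact h1
  · symm
    apply eq_of_dvd_all
    intro m
    have h1 : a - γ ^ n = (a - σ m ^ n) - (γ ^ n - σ m ^ n) := by ring
    rw [h1]
    exact dvd_sub ((pow_dvd_pow X (Nat.le_succ m)).trans (hσ1 m).2)
      ((hγ m).trans (sub_dvd_pow_sub_pow _ _ n))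

end general

/-- Linear forms are the homogeneous polynomials of degree one. -/
theorem exists_lin {f : R3} (hf : f.IsHomogeneous 1) : ∃ v, f = lin v := by
  have h1 : f ∈ MvPolynomial.homogeneousSubmodule (Fin 3) ℂ 1 := hf
  rw [MvPolynomial.homogeneousSubmodule_one_eq_span_X] at h1
  refine Submodule.span_induction (p := fun f _ => ∃ v, f = lin v) ?_ ?_ ?_ ?_ h1
  · rintro _ ⟨j, rfl⟩
    exact ⟨Pi.single j 1, by simp [lin, Pi.single_apply]⟩
  · exact ⟨0, by simp [lin]⟩
  · rintro _ _ _ _ ⟨v, rfl⟩ ⟨w, rfl⟩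
    exact ⟨v + w, (lin_add v w).symm⟩
  · rintro c _ _ ⟨v, rfl⟩
    exact ⟨c • v, by rw [lin_smul, MvPolynomial.smul_eq_C_mul]⟩

theorem lin_inj {v w : Fin 3 → ℂ} (h : lin v = lin w) : v = w := by
  funext j
  have h1 := congrArg (MvPolynomial.eval (Pi.single j 1)) h
  rw [eval_lin, eval_lin, dotProduct_single, dotProduct_single] at h1
  simpa using h1

namespace TConf

variable {k r : ℕ} {T : TConf k r} {z : Fin k → KK} {n : ℕ}

theorem eval_of_mem_J {q : Fin r} {f : R3} (h : f ∈ T.J (Sum.inr q) 1) :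
    MvPolynomial.eval (T.pt q) f = 0 := by
  rw [TConf.mem_J_inr_iff, pow_one] at h
  have h1 : T.Iq q ≤ RingHom.ker (MvPolynomial.eval (T.pt q)) := by
    rw [TConf.Iq, Ideal.span_le]
    rintro _ ⟨j, rfl⟩
    rw [SetLike.mem_coe, RingHom.mem_ker, TConf.y, map_sub, map_mul, MvPolynomial.eval_X,
      MvPolynomial.eval_C, TConf.kp, eval_lin, T.kap_pt]
    ring
  exact h1 h

theorem pow_cancel {D : Crv k r} (s : Finset (Fin k)) (w : Fin k → ℕ) : ∀ {m : ℕ} {x : R3},
    (∏ c ∈ s, T.L c ^ w c) * x ∈ T.J D (m + ∑ c ∈ s, w c * T.val D c) → x ∈ T.J D m := by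
  classical
  have key2 : ∀ (j : Fin k) (t m : ℕ) (x : R3), T.L j ^ t * x ∈ T.J D (m + t * T.val D j) →
      x ∈ T.J D m := by
    intro j t
    induction t with
    | zero => intro m x hx; simpa using hx
    | succ t ih2 =>
      intro m x hx
      refine ih2 m x (T.cancel (j := j) ?_)
      rw [pow_succ', mul_assoc, Nat.succ_mul, ← add_assoc] at hx
      exact hx
  induction s using Finset.induction_on with
  | empty => intro m x hx; simpa using hx
  | insert j s hj ih =>
    intro m x hx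
    rw [Finset.prod_insert hj, Finset.sum_insert hj, mul_assoc] at hx
    refine ih (key2 j (w j) _ _ ?_)
    have : m + ∑ c ∈ s, w c * T.val D c + w j * T.val D j =
      m + (w j * T.val D j + ∑ c ∈ s, w c * T.val D c) := by ring
    rw [this]
    exact hx

theorem sum_val (N : ℕ) (D : Crv k r) : ∑ l, N * T.val D l = T.sz D * N := by
  rw [← Finset.mul_sum, sz, mul_comm]

/-- Functions with bounded poles along a curve. -/
def SP (T : TConf k r) (z : Fin k → KK) (D : Crv k r) (c : ℕ) : Submodule ℂ KK :=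
  Submodule.span ℂ (zm z '' {e | ∑ i, e i = 0 ∧ -(c : ℤ) ≤ T.ord D e})

variable (h : T.Rts n z)

include h in
/-- Functions with poles bounded by a line are quotients of linear forms. -/
theorem section_lin {x : CR z} (hx0 : (x : KK) ∈ F0) (j : Fin k)
    (hx : ∀ D, (x : KK) ∈ T.SP z D (n * T.val D j)) :
    ∃ v : Fin 3 → ℂ, (x : KK) * algebraMap R3 KK (T.L j) = algebraMap R3 KK (lin v) ∧
      ∀ q, j ∈ T.tri q → (x : KK) ∈ T.SP z (Sum.inr q) 0 → v ⬝ᵥ T.pt q = 0 := by
  classical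
  have hz0 := h.hz0
  have hn := h.pos
  let a0 : Fin k → Fin n := fun _ => ⟨0, hn⟩
  have hs0 : ∑ i, (a0 i : ℕ) = 0 := by simp [a0]
  obtain ⟨N1, hN1⟩ := exp_hom hn h.hz hz0 (Subtype.property x)
  have h2 : ∀ D : Crv k r, ∃ N0, ∀ N ≥ N0, ∃ P, T.HasExp z n N (x : KK) P ∧
      ∀ a : Fin k → Fin n, P a ∈ T.J D (T.sz D * N -
        (T.ordN D (fun i => (a i : ℕ)) + n * T.val D j) / n) :=
    fun D => exp_ord hn h.hz hz0 D _ (hx D)
  choose N2 hN2 using h2
  have h3 : ∀ q : Fin r, ∃ N0, ∀ N ≥ N0, (x : KK) ∈ T.SP z (Sum.inr q) 0 → ∃ P,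
      T.HasExp z n N (x : KK) P ∧ ∀ a : Fin k → Fin n, P a ∈ T.J (Sum.inr q)
        (T.sz (Sum.inr q) * N - (T.ordN (Sum.inr q) (fun i => (a i : ℕ)) + 0) / n) := by
    intro q
    by_cases hq : (x : KK) ∈ T.SP z (Sum.inr q) 0
    · obtain ⟨N0, hN0⟩ := exp_ord hn h.hz hz0 (Sum.inr q) 0 hq
      exact ⟨N0, fun N hN _ => hN0 N hN⟩
    · exact ⟨0, fun N _ h => absurd h hq⟩
  choose N3 hN3 using h3
  set N := 1 + N1 + ∑ D, N2 D + ∑ q, N3 q with hN
  have le2 : ∀ D, N2 D ≤ N := by
    intro D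
    have := Finset.single_le_sum (f := N2) (fun _ _ => Nat.zero_le _) (Finset.mem_univ D)
    omega
  have le3 : ∀ q, N3 q ≤ N := by
    intro q
    have := Finset.single_le_sum (f := N3) (fun _ _ => Nat.zero_le _) (Finset.mem_univ q)
    omega
  obtain ⟨P, hP, hPh⟩ := hN1 N (by omega)
  have hPx : algebraMap R3 KK ((∏ i, T.L i) ^ N) * (x : KK) = algebraMap R3 KK (P a0) :=
    F0_exp h hP hx0
  have hord0 : ∀ D : Crv k r, T.ordN D (fun i => (a0 i : ℕ)) = 0 := by
    intro D; simp [ordN, a0]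
  have hhom : (P a0).IsHomogeneous (k * N) := by
    have h5 := hPh a0
    rw [Mhom, if_pos (by rw [hs0]; exact dvd_zero n), MvPolynomial.mem_homogeneousSubmodule, hs0,
      Nat.zero_div, Nat.sub_zero] at h5
    exact h5
  have hJ : ∀ D, P a0 ∈ T.J D (T.sz D * N - T.val D j) := by
    intro D
    obtain ⟨P', hP', hJ'⟩ := hN2 D N (le2 D)
    have h5 := F0_exp h hP' hx0
    rw [hPx] at h5
    have h6 := algebraMap_R3_injective h5
    have h7 := hJ' a0
    rw [hord0, zero_add, Nat.mul_div_cancel_left _ hn] at h7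
    rw [h6]; exact h7
  set w : Fin k → ℕ := fun l => N - if l = j then 1 else 0 with hw
  obtain ⟨K, hK⟩ := T.prod_L_dvd Finset.univ w (P a0) (fun l _ => by
    have h5 := hJ (Sum.inl l)
    rw [mem_J_inl] at h5
    have h6 : T.sz (Sum.inl l : Crv k r) * N - T.val (Sum.inl l : Crv k r) j = w l := by
      simp [sz, val, hw]
    rwa [h6] at h5)
  have hwj : (∏ l, T.L l ^ w l) * T.L j = (∏ l, T.L l) ^ N := by
    rw [← Finset.prod_pow, ← Finset.mul_prod_erase _ _ (Finset.mem_univ j),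
      ← Finset.mul_prod_erase _ (fun l => T.L l ^ N) (Finset.mem_univ j)]
    have h5 : ∏ l ∈ Finset.univ.erase j, T.L l ^ w l = ∏ l ∈ Finset.univ.erase j, T.L l ^ N := by
      refine Finset.prod_congr rfl fun l hl => ?_
      have : l ≠ j := Finset.ne_of_mem_erase hl
      simp [hw, this]
    have h6 : T.L j ^ w j * T.L j = T.L j ^ N := by
      rw [← pow_succ]
      congr 1
      simp only [hw, if_true]
      omega
    rw [h5]
    linear_combination (∏ l ∈ Finset.univ.erase j, T.L l ^ N) * h6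
  have hQ := Q_ne h N
  have hQ0 : (∏ l, T.L l ^ w l) ≠ 0 :=
    Finset.prod_ne_zero_iff.mpr fun l _ => pow_ne_zero _ (T.L_ne_zero l)
  have hprodh : (∏ l, T.L l ^ w l).IsHomogeneous (k * N - 1) := by
    have h5 : (∏ l, T.L l ^ w l).IsHomogeneous (∑ l, w l) := by
      refine MvPolynomial.IsHomogeneous.prod _ _ _ fun l _ => ?_
      have := (T.L_hom l).pow (w l)
      rwa [one_mul] at this
    have h6 : ∑ l, w l = k * N - 1 := by
      have h7 : ∑ l, w l + ∑ l, (if l = j then 1 else 0) = k * N := by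
        rw [← Finset.sum_add_distrib]
        have : ∀ l, w l + (if l = j then 1 else 0) = N := by
          intro l
          simp only [hw]
          split_ifs <;> omega
        simp only [this, Finset.sum_const, Finset.card_univ, Fintype.card_fin, smul_eq_mul]
      rw [Finset.sum_ite_eq' Finset.univ j (fun _ => 1), if_pos (Finset.mem_univ j)] at h7
      omega
    rwa [h6] at h5
  obtain ⟨v, hv⟩ : ∃ v, K = lin v := by
    by_cases hK0 : K = 0
    · exact ⟨0, by rw [hK0]; simp [lin]⟩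
    · have h5 := hhom
      rw [hK] at h5
      have h6 := (hom_of_mul hprodh hQ0 hK0 h5).2
      have hkN : 1 ≤ k * N := Nat.mul_pos (by have := h.full.k3; omega) (by omega)
      have h7 : k * N - (k * N - 1) = 1 := by omega
      rw [h7] at h6
      exact exists_lin h6
  have hPL : P a0 * T.L j = (∏ l, T.L l) ^ N * lin v := by
    rw [hK, hv]
    linear_combination (lin v) * hwj
  refine ⟨v, ?_, fun q hq hxq => ?_⟩
  · have h5 := congrArg (algebraMap R3 KK) hPL
    rw [map_mul, map_mul, ← hPx] at h5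
    apply mul_left_cancel₀ hQ
    linear_combination h5
  · obtain ⟨P', hP', hJ'⟩ := hN3 q N (le3 q) hxq
    have h5 := F0_exp h hP' hx0
    rw [hPx] at h5
    have h6 := algebraMap_R3_injective h5
    have h7 := hJ' a0
    rw [hord0, Nat.add_zero, Nat.zero_div, Nat.sub_zero] at h7
    have h7' : P a0 ∈ T.J (Sum.inr q) (T.sz (Sum.inr q) * N) := by rw [h6]; exact h7
    have h8 := T.L_mem_J (Sum.inr q) j
    have h9 : T.val (Sum.inr q : Crv k r) j = 1 := if_pos hq
    rw [h9] at h8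
    have h10 := T.mul_mem_J h8 h7'
    rw [mul_comm (T.L j), hPL, ← Finset.prod_pow, ← sum_val] at h10
    have h11 := T.pow_cancel Finset.univ (fun _ => N) h10
    have h12 := T.eval_of_mem_J h11
    rwa [eval_lin] at h12

end TConf

end

end Pool.Agent.H94_hk
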