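import Pool.Agent.H94_fr.Pot

/-!
# Graded automorphisms
-/

namespace Pool.Agent.H94_hk

open PowerSeries Pool.Agent.H94_fr

noncomputable section

section general

variable {A : Type*} [CommRing A] [Algebra ℂ A]

theorem PSub_inv {S : Subalgebra ℂ A} {u : A⟦X⟧} (hu : u ∈ PSub S) (h1 : constantCoeff u = 1) :
    ∃ v ∈ PSub S, u * v = 1 ∧ constantCoeff v = 1 := by
  have h2 := PowerSeries.mul_invOfUnit u 1 (by rw [h1]; rfl)
  set v := PowerSeries.invOfUnit u 1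
  refine ⟨v, ?_, h2, ?_⟩
  · intro n
    induction n using Nat.strong_induction_on with
    | _ n ih =>
      obtain ⟨g, hg1, hg2⟩ := exists_split n v
      have h3 := trunc_mem_PSub (S := S) n ih
      have h4 : coeff n (u * ((trunc n v : Polynomial A) : A⟦X⟧)) + coeff n v =
          coeff n (1 : A⟦X⟧) := by
        rw [← h2]
        conv_rhs => rw [hg1]
        have h5 : u * (((trunc n v : Polynomial A) : A⟦X⟧) + X ^ n * g) =
            u * ((trunc n v : Polynomial A) : A⟦X⟧) + X ^ n * (u * g) := by ring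
        rw [h5, map_add, coeff_X_pow_mul', if_pos le_rfl, Nat.sub_self,
          coeff_zero_eq_constantCoeff_apply, RingHom.map_mul, h1, hg2, one_mul]
      have h5 : coeff n v = coeff n (1 : A⟦X⟧) -
          coeff n (u * ((trunc n v : Polynomial A) : A⟦X⟧)) := by
        rw [← h4]; ring
      rw [h5]
      exact sub_mem ((PSub S).one_mem n) ((mul_mem hu h3) n)
  · have h3 := congrArg constantCoeff h2
    rwa [map_mul, h1, one_mul, map_one] at h3

theorem KE_ext {S S' : Subalgebra ℂ A} (hle : S ≤ S') {φ : PG A} (hu : Uni φ) (hS : KE S φ)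
    {x f g : A} (hf : f ∈ S) (hfx : f * x ∈ S) (hg : g ∈ S') (hfg : f * g = 1) :
    φ (C x) ∈ PSub S' := by
  have h1 : φ (C f) * C g ∈ PSub S' :=
    mul_mem (PSub_mono hle (hS _ (C_mem_PSub hf))) (C_mem_PSub hg)
  obtain ⟨v, hv, hv1, _⟩ := PSub_inv h1 (by
    rw [map_mul, hu, constantCoeff_C, constantCoeff_C, hfg])
  have h2 : φ (C x) = φ (C (f * x)) * (C g * v) := by
    rw [map_mul, map_mul]
    linear_combination (-(φ (C x))) * hv1
  rw [h2]
  exact mul_mem (PSub_mono hle (hS _ (C_mem_PSub hfx))) (mul_mem (C_mem_PSub hg) hv)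

end general

variable {k : ℕ} {z : Fin k → KK}

/-- The coefficients of order less than `m` are invariant. -/
def T0 (m : ℕ) (f : (CR z)⟦X⟧) : Prop := ∀ l < m, ((coeff l f : CR z) : KK) ∈ F0

/-- The automorphism is graded up to order `m`. -/
def Gr (m : ℕ) (χ : PG (CR z)) : Prop := ∀ i j, T0 m (Wd χ i j)

theorem T0.mul {m : ℕ} {f g : (CR z)⟦X⟧} (hf : T0 m f) (hg : T0 m g) : T0 m (f * g) := by
  intro l hl
  have h1 : coeff l (f * g) ∈ sb z F0 := by
    rw [coeff_mul]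
    refine sum_mem fun x hx => ?_
    rw [Finset.HasAntidiagonal.mem_antidiagonal] at hx
    exact Subalgebra.mul_mem _ (hf _ (by omega)) (hg _ (by omega))
  exact h1

theorem T0.add {m : ℕ} {f g : (CR z)⟦X⟧} (hf : T0 m f) (hg : T0 m g) : T0 m (f + g) := by
  intro l hl
  rw [map_add]
  exact add_mem (hf l hl) (hg l hl)

theorem T0.mono {m m' : ℕ} {f : (CR z)⟦X⟧} (hf : T0 m f) (h : m' ≤ m) : T0 m' f :=
  fun l hl => hf l (by omega)

theorem T0_one {m : ℕ} : T0 m (1 : (CR z)⟦X⟧) := fun l _ => (PSub (sb z F0)).one_mem l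

theorem T0.pow {m : ℕ} {f : (CR z)⟦X⟧} (hf : T0 m f) (s : ℕ) : T0 m (f ^ s) := by
  induction s with
  | zero => rw [pow_zero]; exact T0_one
  | succ s ih => rw [pow_succ]; exact ih.mul hf

theorem T0_of_congr {m : ℕ} {f g : (CR z)⟦X⟧} (hf : T0 m f) (h : X ^ m ∣ g - f) : T0 m g := by
  intro l hl
  have h1 := X_pow_dvd_iff.mp h l hl
  rw [map_sub, sub_eq_zero] at h1
  rw [h1]
  exact hf l hl

theorem exists_tail {f : (CR z)⟦X⟧} (h1 : constantCoeff f = 1) : ∃ f', f = 1 + X * f' := by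
  have : X ∣ f - 1 := by rw [X_dvd_iff, map_sub, h1, map_one, sub_self]
  obtain ⟨f', hf'⟩ := this
  exact ⟨f', by rw [← hf']; ring⟩

theorem T0_tail {m : ℕ} {f' : (CR z)⟦X⟧} (h : T0 (m + 1) (1 + X * f')) : T0 m f' := by
  intro l hl
  have h1 := h (l + 1) (by omega)
  rw [map_add, coeff_succ_X_mul, coeff_one, if_neg (by omega), zero_add] at h1
  exact h1

theorem coeff_mul_T0 {m : ℕ} (hm : 1 ≤ m) {f g : (CR z)⟦X⟧} (hf : T0 m f) (hg : T0 m g)
    (hf1 : constantCoeff f = 1) (hg1 : constantCoeff g = 1) :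
    coeff m (f * g) - coeff m f - coeff m g ∈ sb z F0 := by
  obtain ⟨m, rfl⟩ : ∃ m', m = m' + 1 := ⟨m - 1, by omega⟩
  obtain ⟨f', rfl⟩ := exists_tail hf1
  obtain ⟨g', rfl⟩ := exists_tail hg1
  have hf' := T0_tail hf
  have hg' := T0_tail hg
  have h1 : (1 + X * f') * (1 + X * g') = 1 + X * f' + X * g' + X * (X * (f' * g')) := by ring
  have h2 : coeff (m + 1) ((1 + X * f') * (1 + X * g')) - coeff (m + 1) (1 + X * f') -
      coeff (m + 1) (1 + X * g') = coeff (m + 1) (X * (X * (f' * g'))) := by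
    rw [h1, map_add, map_add, map_add (coeff (m + 1)) 1 (X * g'), coeff_one,
      if_neg (by omega)]
    ring
  rw [h2, coeff_succ_X_mul]
  rcases m with _ | m
  · rw [coeff_zero_eq_constantCoeff_apply, map_mul, constantCoeff_X, zero_mul]
    exact zero_mem _
  · rw [coeff_succ_X_mul]
    exact (hf'.mul hg') m (by omega)

theorem coeff_pow_T0 {m : ℕ} (hm : 1 ≤ m) {f : (CR z)⟦X⟧} (hf : T0 m f)
    (hf1 : constantCoeff f = 1) (s : ℕ) :
    coeff m (f ^ s) - (s : CR z) * coeff m f ∈ sb z F0 := by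
  induction s with
  | zero =>
    rw [pow_zero, Nat.cast_zero, zero_mul, sub_zero]
    exact (PSub (sb z F0)).one_mem m
  | succ s ih =>
    have h1 := coeff_mul_T0 hm (hf.pow s) hf (by rw [map_pow, hf1, one_pow]) hf1
    have h2 : coeff m (f ^ (s + 1)) - ((s + 1 : ℕ) : CR z) * coeff m f =
        (coeff m (f ^ s * f) - coeff m (f ^ s) - coeff m f) +
        (coeff m (f ^ s) - (s : CR z) * coeff m f) := by
      rw [pow_succ]; push_cast; ring
    rw [h2]
    exact add_mem h1 ih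

namespace TConf

variable {r : ℕ} {T : TConf k r} {n : ℕ} (h : T.Rts n z)

/-- The Galois action on power series. -/
def sg (σ : KK ≃ₐ[F3] KK) : PG (CR z) := mapPG (sgA h.hz0 (acts h σ))

theorem sg_coeff (σ : KK ≃ₐ[F3] KK) (f : (CR z)⟦X⟧) (m : ℕ) :
    ((coeff m (sg h σ f) : CR z) : KK) = σ ((coeff m f : CR z) : KK) := by
  rw [sg, mapPG_coeff]; rfl

theorem T0_iff {m : ℕ} {f : (CR z)⟦X⟧} : T0 m f ↔ ∀ σ : KK ≃ₐ[F3] KK, X ^ m ∣ sg h σ f - f := by
  constructor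
  · intro hf σ
    rw [X_pow_dvd_iff]
    intro l hl
    rw [map_sub, sub_eq_zero]
    apply Subtype.ext
    rw [sg_coeff, fixed_of_F0 (hf l hl)]
  · intro hf l hl
    apply F0_of_fixed
    intro σ
    have h1 := X_pow_dvd_iff.mp (hf σ) l hl
    rw [map_sub, sub_eq_zero] at h1
    rw [← sg_coeff h, h1]

theorem sg_rt (σ : KK ≃ₐ[F3] KK) (i j : Fin k) : ∃ c d : ℂ, c * d = 1 ∧
    sg h σ (C (rt z i j)) = C (algebraMap ℂ (CR z) c) * C (rt z i j) ∧
    ∀ m (f : (CR z)⟦X⟧), X ^ m ∣ C (algebraMap ℂ (CR z) c) * C (rt z i j) * f → X ^ m ∣ f := by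
  obtain ⟨c, hc⟩ := (acts h σ).ratio i j
  have hc0 : c ≠ 0 := by
    rintro rfl
    rw [map_zero, zero_mul] at hc
    have := σ.injective (hc.trans (map_zero σ).symm)
    exact div_ne_zero (h.hz0 i) (h.hz0 j) this
  refine ⟨c, c⁻¹, mul_inv_cancel₀ hc0, ?_, ?_⟩
  · rw [sg, mapPG_C, ← map_mul]
    congr 1
    apply Subtype.ext
    exact hc
  · intro m f hf
    have h1 : f = (C (algebraMap ℂ (CR z) c⁻¹) * C (rt z j i)) *
        (C (algebraMap ℂ (CR z) c) * C (rt z i j) * f) := by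
      have h2 : (C (algebraMap ℂ (CR z) c⁻¹) : (CR z)⟦X⟧) * C (algebraMap ℂ (CR z) c) = 1 := by
        rw [← map_mul, ← map_mul, inv_mul_cancel₀ hc0, map_one, map_one]
      have h3 : (C (rt z j i) : (CR z)⟦X⟧) * C (rt z i j) = 1 := by
        rw [C_rt_mul h.hz0, C_rt_self h.hz0]
      linear_combination (-f) * h2 - f * C (algebraMap ℂ (CR z) c⁻¹) *
        C (algebraMap ℂ (CR z) c) * h3
    rw [h1]
    exact hf.mul_left _

theorem gr_iff {m : ℕ} {χ : PG (CR z)} :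
    Gr m χ ↔ ∀ σ : KK ≃ₐ[F3] KK, Cg m (sg h σ * χ) (χ * sg h σ) := by
  have key : ∀ (σ : KK ≃ₐ[F3] KK) (i j : Fin k), ∃ c : ℂ,
      (sg h σ * χ) (C (rt z i j)) - (χ * sg h σ) (C (rt z i j)) =
        C (algebraMap ℂ (CR z) c) * C (rt z i j) * (sg h σ (Wd χ i j) - Wd χ i j) ∧
      ∀ m (f : (CR z)⟦X⟧), X ^ m ∣ C (algebraMap ℂ (CR z) c) * C (rt z i j) * f → X ^ m ∣ f := by
    intro σ i j
    obtain ⟨c, d, hcd, hc, hd⟩ := sg_rt h σ i j
    refine ⟨c, ?_, hd⟩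
    change sg h σ (χ (C (rt z i j))) - χ (sg h σ (C (rt z i j))) = _
    rw [hc, Wd_spec h.hz0 χ, map_mul, hc, map_mul χ, pg_algC, Wd_spec h.hz0 χ]
    ring
  constructor
  · intro hG σ
    apply Cg_of_gen
    intro i j
    obtain ⟨c, hc, _⟩ := key σ i j
    rw [hc]
    exact ((T0_iff h).mp (hG i j) σ).mul_left _
  · intro hG i j
    rw [T0_iff h]
    intro σ
    obtain ⟨c, hc, hd⟩ := key σ i j
    apply hd
    rw [← hc]
    exact hG σ _

section
include h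

theorem Gr.mul' {m : ℕ} {φ ψ : PG (CR z)} (hφ : Gr m φ) (hψ : Gr m ψ) : Gr m (φ * ψ) := by
  rw [gr_iff h] at *
  intro σ
  have h1 : Cg m (sg h σ * (φ * ψ)) (φ * (sg h σ * ψ)) := by
    rw [← mul_assoc, ← mul_assoc]
    exact (hφ σ).mul (Cg.refl m ψ)
  refine h1.trans ?_
  rw [mul_assoc]
  exact (Cg.refl m φ).mul (hψ σ)

theorem Gr.inv' {m : ℕ} {φ : PG (CR z)} (hφ : Gr m φ) : Gr m φ⁻¹ := by
  rw [gr_iff h] at *
  intro σ
  have h1 := ((Cg.refl m φ⁻¹).mul (hφ σ)).mul (Cg.refl m φ⁻¹)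
  have h2 : φ⁻¹ * (sg h σ * φ) * φ⁻¹ = φ⁻¹ * sg h σ := by group
  have h3 : φ⁻¹ * (φ * sg h σ) * φ⁻¹ = sg h σ * φ⁻¹ := by group
  rw [h2, h3] at h1
  exact h1.symm

theorem Gr.congr' {m : ℕ} {φ ψ : PG (CR z)} (hφ : Gr m φ) (hc : Cg m ψ φ) : Gr m ψ := by
  rw [gr_iff h] at *
  intro σ
  exact (((Cg.refl m _).mul hc).trans (hφ σ)).trans (hc.symm.mul (Cg.refl m _))

theorem Gr_one' (m : ℕ) : Gr m (1 : PG (CR z)) := by
  intro i j
  rw [Wd_one h.hz0]
  exact T0_one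

theorem Gr.T0' {m : ℕ} {φ : PG (CR z)} (hφ : Gr m φ) {f : (CR z)⟦X⟧} (hf : T0 m f) :
    T0 m (φ f) := by
  rw [gr_iff h] at hφ
  rw [T0_iff h] at *
  intro σ
  have h1 : sg h σ (φ f) - φ f = ((sg h σ * φ) f - (φ * sg h σ) f) + φ (sg h σ f - f) := by
    rw [map_sub]
    change _ = sg h σ (φ f) - φ (sg h σ f) + _
    ring
  rw [h1]
  exact dvd_add (hφ σ f) (pg_dvd φ (hf σ))

end

/-- The part of the leading coefficient with nontrivial characters. -/
def Nm (m : ℕ) (χ : PG (CR z)) (i j : Fin k) : KK :=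
  ((coeff m (Wd χ i j) : CR z) : KK) - pr0 h ((coeff m (Wd χ i j) : CR z) : KK)

theorem sub_pr0_eq {x y : KK} (hxy : x - y ∈ F0) : x - pr0 h x = y - pr0 h y := by
  have h1 := pr0_of_mem h hxy
  rw [map_sub] at h1
  linear_combination -h1

theorem Nm_mem (m : ℕ) (χ : PG (CR z)) (i j : Fin k) : Nm h m χ i j ∈ ratioAlg z Set.univ :=
  sub_mem (Subtype.property _) (pr0_mem_univ h (Subtype.property _))

theorem pr0_Nm (m : ℕ) (χ : PG (CR z)) (i j : Fin k) : pr0 h (Nm h m χ i j) = 0 := by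
  rw [Nm, map_sub, pr0_of_mem h (pr0_mem h _), sub_self]

theorem Nm_add {m : ℕ} (hm : 1 ≤ m) {χ : PG (CR z)} (hu : Uni χ) (hχ : Gr m χ) (i j l : Fin k) :
    Nm h m χ i j + Nm h m χ j l = Nm h m χ i l := by
  have h1 := coeff_mul_T0 hm (hχ i j) (hχ j l) (Wd_const h.hz0 hu i j) (Wd_const h.hz0 hu j l)
  rw [Wd_mul h.hz0] at h1
  have h2 := sub_pr0_eq h (x := ((coeff m (Wd χ i l) : CR z) : KK))
    (y := ((coeff m (Wd χ i j) : CR z) : KK) + ((coeff m (Wd χ j l) : CR z) : KK)) (by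
      have h3 : ((coeff m (Wd χ i l) : CR z) : KK) - (((coeff m (Wd χ i j) : CR z) : KK) +
        ((coeff m (Wd χ j l) : CR z) : KK)) =
        ((coeff m (Wd χ i l) - coeff m (Wd χ i j) - coeff m (Wd χ j l) : CR z) : KK) := by
        push_cast; ring
      rw [h3]; exact h1)
  rw [Nm, Nm, Nm, h2, map_add]
  ring

include h in
theorem coeff_act_T0 {m : ℕ} (hm : 1 ≤ m) {φ : PG (CR z)} (hu : Uni φ) (hφ : Gr m φ)
    {f : (CR z)⟦X⟧} (hf : T0 m f) (hf1 : constantCoeff f = 1) :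
    coeff m (φ f) - coeff m f ∈ sb z F0 := by
  obtain ⟨g, hg1, hg2⟩ := exists_split m f
  set t := ((trunc m f : Polynomial (CR z)) : (CR z)⟦X⟧) with ht
  have ht0 : ∀ s, T0 s t := by
    intro s l _
    exact trunc_mem_PSub (S := sb z F0) m (fun j hj => hf j hj) l
  have ht1 : constantCoeff t = 1 := by
    rw [hg1, map_add, map_mul, map_pow, constantCoeff_X, zero_pow (by omega), zero_mul,
      add_zero] at hf1
    exact hf1
  have h1 : coeff m (φ f) = coeff m (φ t) + coeff m f := by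
    conv_lhs => rw [hg1]
    rw [map_add, pg_X_pow_mul, map_add, coeff_X_pow_mul', if_pos le_rfl, Nat.sub_self,
      coeff_zero_eq_constantCoeff_apply, hu, hg2]
  rw [h1, add_sub_cancel_right]
  obtain ⟨u, hu'⟩ := exists_tail ht1
  obtain ⟨m, rfl⟩ : ∃ m', m = m' + 1 := ⟨m - 1, by omega⟩
  have h2 : φ t = 1 + X * φ u := by
    rw [hu', map_add, map_one]
    congr 1
    have := pg_X_pow_mul φ 1 u
    rwa [pow_one] at this
  rw [h2, map_add, coeff_succ_X_mul, coeff_one, if_neg (by omega), zero_add]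
  have h3 : T0 (m + 1) u := by
    have := ht0 (m + 1 + 1)
    rw [hu'] at this
    exact T0_tail this
  exact (Gr.T0' h hφ h3) m (by omega)

theorem Nm_mul {m : ℕ} (hm : 1 ≤ m) {φ ψ : PG (CR z)} (hu : Uni φ) (hu' : Uni ψ) (hφ : Gr m φ)
    (hψ : Gr m ψ) (i j : Fin k) : Nm h m (φ * ψ) i j = Nm h m φ i j + Nm h m ψ i j := by
  have h1 := coeff_mul_T0 hm (hφ i j) (Gr.T0' h hφ (hψ i j)) (Wd_const h.hz0 hu i j)
    (by rw [hu, Wd_const h.hz0 hu'])
  rw [← Wd_comp h.hz0] at h1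
  have h2 := coeff_act_T0 h hm hu hφ (hψ i j) (Wd_const h.hz0 hu' i j)
  have h3 := sub_pr0_eq h (x := ((coeff m (Wd (φ * ψ) i j) : CR z) : KK))
    (y := ((coeff m (Wd φ i j) : CR z) : KK) + ((coeff m (Wd ψ i j) : CR z) : KK)) (by
      have h3 : ((coeff m (Wd (φ * ψ) i j) : CR z) : KK) - (((coeff m (Wd φ i j) : CR z) : KK) +
        ((coeff m (Wd ψ i j) : CR z) : KK)) =
        (((coeff m (Wd (φ * ψ) i j) - coeff m (Wd φ i j) - coeff m (φ (Wd ψ i j))) +
          (coeff m (φ (Wd ψ i j)) - coeff m (Wd ψ i j)) : CR z) : KK) := by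
        push_cast; ring
      rw [h3]; exact add_mem h1 h2)
  rw [Nm, Nm, Nm, h3, map_add]
  ring

theorem Nm_one {m : ℕ} (i j : Fin k) : Nm h m (1 : PG (CR z)) i j = 0 := by
  have h1 : ((coeff m (1 : (CR z)⟦X⟧) : CR z) : KK) ∈ F0 := (PSub (sb z F0)).one_mem m
  rw [Nm, Wd_one h.hz0, pr0_of_mem h h1, sub_self]

theorem Nm_inv {m : ℕ} (hm : 1 ≤ m) {φ : PG (CR z)} (hu : Uni φ) (hφ : Gr m φ) (i j : Fin k) :
    Nm h m φ⁻¹ i j = - Nm h m φ i j := by
  have h1 := Nm_mul h hm hu hu.inv hφ (Gr.inv' h hφ) i j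
  rw [mul_inv_cancel, Nm_one] at h1
  linear_combination -h1

end TConf

end

end Pool.Agent.H94_hk
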