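import Pool.Agent.H94_fr.Triv
import Pool.Agent.H94_gen.Fin1

/-!
# Formal rigidity implies rigidity for linear families
-/

namespace Pool.Agent.H94_gen

open PowerSeries
open Pool.Agent.H94_hk (FRig)

noncomputable section

set_option linter.unusedSectionVars false

variable {k r : ℕ}

theorem coeff_one_mul' (p q : ℂ⟦X⟧) :
    coeff 1 (p * q) = constantCoeff p * coeff 1 q + coeff 1 p * constantCoeff q := by
  rw [coeff_mul, Finset.Nat.antidiagonal_succ]
  simp [mul_comm]

theorem frig_lr {T : TConf ℂ k r} (hF : (toHk T).Full) (h : FRig T.f) : T.LR := by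
  intro g hg
  have hmul : ∀ i, (∀ b, constantCoeff (C (T.f i b) + X * C (g i b) : ℂ⟦X⟧) = T.f i b) := by
    intro i b
    simp
  obtain ⟨M, c, hMc⟩ := h (fun i b => C (T.f i b) + X * C (g i b)) hmul (by
    intro i j l hdet
    by_cases hij : i = j
    · subst hij
      rw [Matrix.det_fin_three]
      simp only [Matrix.of_apply, Matrix.cons_val_zero, Matrix.cons_val_one, Matrix.cons_val_two,
        Matrix.head_cons, Matrix.tail_cons]
      ring
    by_cases hil : i = l
    · subst hil
      rw [Matrix.det_fin_three]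
      simp only [Matrix.of_apply, Matrix.cons_val_zero, Matrix.cons_val_one, Matrix.cons_val_two,
        Matrix.head_cons, Matrix.tail_cons]
      ring
    by_cases hjl : j = l
    · subst hjl
      rw [Matrix.det_fin_three]
      simp only [Matrix.of_apply, Matrix.cons_val_zero, Matrix.cons_val_one, Matrix.cons_val_two,
        Matrix.head_cons, Matrix.tail_cons]
      ring
    obtain ⟨q, h1, h2, h3⟩ := H94_hk.TConf.concurrent_tri hF hij hil hjl hdet
    obtain ⟨w, hw⟩ := hg q
    apply Matrix.exists_mulVec_eq_zero_iff.mp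
    refine ⟨fun b => C (T.pt q b) + X * C (w b), ?_, ?_⟩
    · intro h0
      have h4 : T.pt q = 0 := by
        funext b
        have h5 := congrArg constantCoeff (congrFun h0 b)
        simpa using h5
      have h5 := T.kap_pt q
      rw [h4, dotProduct_zero] at h5
      exact zero_ne_one h5
    · have key : ∀ m ∈ T.tri q, (fun b => C (T.f m b) + X * C (g m b) : Fin 3 → ℂ⟦X⟧) ⬝ᵥ
          (fun b => C (T.pt q b) + X * C (w b)) = 0 := by
        intro m hm
        obtain ⟨e1, e2⟩ := hw m hm
        have e0 := (T.mem_tri m q).mp hm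
        simp only [dotProduct, Fin.sum_univ_three] at e0 e1 e2 ⊢
        have f0 := congrArg (C (R := ℂ)) e0
        have f1 := congrArg (C (R := ℂ)) e1
        have f2 := congrArg (C (R := ℂ)) e2
        simp only [map_add, map_mul, map_zero] at f0 f1 f2
        linear_combination f0 + X * f1 + X ^ 2 * f2
      funext b
      fin_cases b
      · exact key i h1
      · exact key j h2
      · exact key l h3)
  set M0 : GL (Fin 3) ℂ := Matrix.GeneralLinearGroup.map (constantCoeff (R := ℂ)) M with hM0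
  have hM0e : ∀ a b, (M0 : Matrix (Fin 3) (Fin 3) ℂ) a b =
      constantCoeff ((M : Matrix (Fin 3) (Fin 3) ℂ⟦X⟧) a b) := fun _ _ => rfl
  have hc0 : ∀ i, T.f i = constantCoeff (c i) • (M0 : Matrix (Fin 3) (Fin 3) ℂ).mulVec (T.f i) := by
    intro i
    funext b
    have h1 := congrArg constantCoeff (congrFun (hMc i) b)
    rw [hmul, Pi.smul_apply, smul_eq_mul, map_mul] at h1
    rw [h1, Pi.smul_apply, smul_eq_mul]
    congr 1
    simp only [Matrix.mulVec, dotProduct, map_sum, map_mul, constantCoeff_C, hM0e]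
  have hcne : ∀ i, constantCoeff (c i) ≠ 0 := by
    intro i h0
    have h1 := hc0 i
    rw [h0, zero_smul] at h1
    have h2 := T.fc i
    rw [h1, zero_dotProduct] at h2
    exact zero_ne_one h2
  have hN0 : ∀ i, ((M0⁻¹ : GL (Fin 3) ℂ) : Matrix (Fin 3) (Fin 3) ℂ).mulVec (T.f i) =
      constantCoeff (c i) • T.f i := by
    intro i
    conv_lhs => rw [hc0 i]
    rw [Matrix.mulVec_smul, Matrix.mulVec_mulVec, ← Units.val_mul, inv_mul_cancel, Units.val_one,
      Matrix.one_mulVec]
  let M1 : Matrix (Fin 3) (Fin 3) ℂ := fun a b => coeff 1 ((M : Matrix (Fin 3) (Fin 3) ℂ⟦X⟧) a b)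
  refine ⟨M1 * ((M0⁻¹ : GL (Fin 3) ℂ) : Matrix (Fin 3) (Fin 3) ℂ),
    fun i => coeff 1 (c i) * (constantCoeff (c i))⁻¹, fun i => ?_⟩
  rw [← Matrix.mulVec_mulVec, hN0, Matrix.mulVec_smul]
  have h1 : (M0 : Matrix (Fin 3) (Fin 3) ℂ).mulVec (T.f i) = (constantCoeff (c i))⁻¹ • T.f i := by
    conv_rhs => rw [hc0 i]
    rw [smul_smul, inv_mul_cancel₀ (hcne i), one_smul]
  funext b
  have h2 := congrArg (coeff 1) (congrFun (hMc i) b)
  have h3 : coeff 1 (C (T.f i b) + X * C (g i b) : ℂ⟦X⟧) = g i b := by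
    rw [map_add, coeff_C, if_neg one_ne_zero, zero_add, ← pow_one (X : ℂ⟦X⟧), coeff_X_pow_mul']
    simp
  rw [h3, Pi.smul_apply, smul_eq_mul, coeff_one_mul'] at h2
  rw [h2]
  simp only [Pi.add_apply, Pi.smul_apply, smul_eq_mul]
  have h4 : coeff 1 ((M : Matrix (Fin 3) (Fin 3) ℂ⟦X⟧).mulVec (fun b => C (T.f i b)) b) =
      M1.mulVec (T.f i) b := by
    simp only [Matrix.mulVec, dotProduct, map_sum]
    refine Finset.sum_congr rfl fun s _ => ?_
    rw [coeff_mul_C]
  have h5 : constantCoeff ((M : Matrix (Fin 3) (Fin 3) ℂ⟦X⟧).mulVec (fun b => C (T.f i b)) b) =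
      (constantCoeff (c i))⁻¹ * T.f i b := by
    have h6 := congrFun h1 b
    rw [Pi.smul_apply, smul_eq_mul] at h6
    rw [← h6]
    simp only [Matrix.mulVec, dotProduct, map_sum, map_mul, constantCoeff_C, hM0e]
  rw [h4, h5]
  ring

theorem lr_pts {T : TConf ℂ k r} (h : T.LR) (hk : 5 ≤ k) : Nonempty (Fin r) := by
  by_contra hcon
  rw [not_nonempty_iff] at hcon
  let Φ : (Matrix (Fin 3) (Fin 3) ℂ × (Fin k → ℂ)) →ₗ[ℂ] (Fin k → Fin 3 → ℂ) :=
    { toFun := fun Ac i => Ac.1.mulVec (T.f i) + Ac.2 i • T.f i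
      map_add' := by
        intro x y
        funext i
        simp only [Prod.fst_add, Prod.snd_add, Matrix.add_mulVec, Pi.add_apply]
        module
      map_smul' := by
        intro s x
        funext i
        simp only [Prod.smul_fst, Prod.smul_snd, Matrix.smul_mulVec, Pi.smul_apply,
          smul_eq_mul, RingHom.id_apply]
        module }
  have hsurj : Function.Surjective Φ := by
    intro g
    obtain ⟨A, c, hAc⟩ := h g (fun q => (hcon.false q).elim)
    exact ⟨(A, c), funext fun i => (hAc i).symm⟩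
  have h1 := LinearMap.finrank_le_finrank_of_surjective hsurj
  rw [Module.finrank_prod, Module.finrank_matrix, Module.finrank_fintype_fun_eq_card,
    Module.finrank_pi_fintype] at h1
  simp only [Module.finrank_fintype_fun_eq_card, Fintype.card_fin, Finset.sum_const,
    Finset.card_univ, smul_eq_mul, Module.finrank_self] at h1
  omega

end

end Pool.Agent.H94_gen
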