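import Pool.Agent.H94_fr.Beta

/-!
# A nontrivial formal deformation
-/

namespace Pool.Agent.H94_hk

open PowerSeries Pool.Agent.H94_fr

noncomputable section

variable {k : ℕ} {z : Fin k → KK}

theorem coeff_one_mul (p q : (CR z)⟦X⟧) : coeff 1 (p * q) =
    constantCoeff p * coeff 1 q + coeff 1 p * constantCoeff q := by
  rw [coeff_mul, Finset.Nat.antidiagonal_succ]
  simp [mul_comm]

theorem coeff_one_act {φ : PG (CR z)} (hu : Uni φ) {f : (CR z)⟦X⟧} (hf : constantCoeff f = 1) :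
    coeff 1 (φ f) = coeff 1 f := by
  obtain ⟨g, rfl⟩ : ∃ g, f = 1 + X * g := by
    have h1 : X ∣ f - 1 := by rw [X_dvd_iff, map_sub, hf, map_one, sub_self]
    obtain ⟨g, hg⟩ := h1
    exact ⟨g, by linear_combination hg⟩
  have h1 := pg_X_pow_mul φ 1 g
  rw [pow_one] at h1
  rw [map_add, map_one, h1, map_add, map_add, ← pow_one (X : (CR z)⟦X⟧), coeff_X_pow_mul',
    coeff_X_pow_mul']
  simp only [le_refl, if_true, Nat.sub_self, coeff_zero_eq_constantCoeff_apply]
  rw [hu]

theorem coeff_one_Wd (hz0 : ∀ i, z i ≠ 0) {φ ψ : PG (CR z)} (hφ : Uni φ) (hψ : Uni ψ)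
    (i j : Fin k) : coeff 1 (Wd (φ * ψ) i j) = coeff 1 (Wd φ i j) + coeff 1 (Wd ψ i j) := by
  rw [Wd_comp hz0, coeff_one_mul, Wd_const hz0 hφ, one_mul, hφ, Wd_const hz0 hψ, mul_one,
    coeff_one_act hφ (Wd_const hz0 hψ i j)]
  ring

namespace TConf

variable {r : ℕ} {T : TConf k r} {n : ℕ} (h : T.Rts n z)

theorem two_nodes (hT : T.Full) (l : Fin k) : ∃ D' D'', T.meet (Sum.inl l) D' ∧
    T.meet (Sum.inl l) D'' ∧ D' ≠ D'' := by
  obtain ⟨i, hil, _⟩ := hT.exists_third l l
  have h1 := T.mem_nodes.mp (T.nd_mem hil.symm)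
  rcases T.dbl_or hil.symm with hd | ⟨q, hlq, hiq⟩
  · obtain ⟨w, hwl, hwi⟩ := hT.exists_third l i
    refine ⟨_, _, h1, T.mem_nodes.mp (T.nd_mem hwl.symm), ?_⟩
    rw [T.nd_inl hd]
    rcases T.dbl_or hwl.symm with hd' | ⟨q, hlq, hwq⟩
    · rw [T.nd_inl hd']
      exact fun h => hwi (Sum.inl_injective h).symm
    · rw [T.nd_inr hwl.symm hlq hwq]
      exact Sum.inl_ne_inr
  · obtain ⟨w, hw⟩ := hT.out q
    have hwl : w ≠ l := by rintro rfl; exact hw hlq
    refine ⟨_, _, h1, T.mem_nodes.mp (T.nd_mem hwl.symm), ?_⟩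
    rw [T.nd_inr hil.symm hlq hiq]
    rcases T.dbl_or hwl.symm with hd' | ⟨q', hlq', hwq'⟩
    · rw [T.nd_inl hd']
      exact Sum.inr_ne_inl
    · rw [T.nd_inr hwl.symm hlq' hwq']
      intro h
      rw [Sum.inr_injective h] at hw
      exact hw hwq'

include h in
/-- A function all of whose products with ratios are regular has a simple pole at most. -/
theorem span_of_regular {x : KK} {l i j : Fin k}
    (hx : z i / z j * x ∈ RD T z (Sum.inl l)) :
    x ∈ Submodule.span ℂ (zm z '' {e | ∑ i, e i = 0 ∧ -((1 : ℕ) : ℤ) ≤ T.ord (Sum.inl l) e}) := by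
  have hz0 := h.hz0
  rw [mem_RD h] at hx
  have h1 : x = (z i / z j * x) * zm z (rv j i) := by
    rw [zm_rv hz0]
    have := hz0 i
    have := hz0 j
    field_simp
  rw [h1]
  generalize z i / z j * x = y at hx
  induction hx using Submodule.span_induction with
  | mem x hx =>
    obtain ⟨e, ⟨he1, he2⟩, rfl⟩ := hx
    rw [← zm_add hz0]
    refine Submodule.subset_span ⟨_, ⟨?_, ?_⟩, rfl⟩
    · simp only [Pi.add_apply, Finset.sum_add_distrib, he1, sum_rv, add_zero]
    · rw [ord_add, ord_rv]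
      have h5 := T.val_le_one (Sum.inl l) i
      push_cast
      omega
  | zero => rw [zero_mul]; exact zero_mem _
  | add x y _ _ hx hy => rw [add_mul]; exact add_mem hx hy
  | smul a x _ hx => rw [smul_mul_assoc]; exact Submodule.smul_mem _ _ hx

include h in
/-- The obstruction: a family of functions with these properties does not exist. -/
theorem no_family (hn4 : 4 ≤ n) {p s : Fin k} (hps : p ≠ s)
    {c : Fin k → ℂ} {V : Fin k → Fin k → CR z}
    (hreg : ∀ l i j, ((V i j : CR z) : KK) ∈ Submodule.span ℂ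
      (zm z '' {e | ∑ i, e i = 0 ∧ -((1 : ℕ) : ℤ) ≤ T.ord (Sum.inl l) e}))
    (hrel : ∑ i, algebraMap R3 KK (MvPolynomial.C (c i)) * (algebraMap R3 KK (T.L i) *
      ((V i p : CR z) : KK)) = z p ^ 2 * z s ^ (n - 2)) : False := by
  have hz0 := h.hz0
  have hn := h.pos
  let a : Fin k → Fin n := fun i => if i = p then ⟨2, by omega⟩ else
    if i = s then ⟨n - 2, by omega⟩ else ⟨0, by omega⟩
  have hap : (a p : ℕ) = 2 := by simp [a]
  have has : (a s : ℕ) = n - 2 := by simp [a, hps.symm]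
  have hao : ∀ i, i ≠ p → i ≠ s → (a i : ℕ) = 0 := by
    intro i h1 h2; simp [a, h1, h2]
  have hsum : ∑ i, (a i : ℕ) = 1 * n := by
    rw [← Finset.add_sum_erase _ _ (Finset.mem_univ p), ← Finset.add_sum_erase _ _
      (Finset.mem_erase.mpr ⟨hps.symm, Finset.mem_univ s⟩), Finset.sum_eq_zero]
    · rw [hap, has]; omega
    · intro i hi
      rw [Finset.mem_erase, Finset.mem_erase] at hi
      exact hao i hi.2.1 hi.1
  have hprod : ∏ i, z i ^ (a i : ℕ) = z p ^ 2 * z s ^ (n - 2) := by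
    rw [← Finset.mul_prod_erase _ _ (Finset.mem_univ p), ← Finset.mul_prod_erase _ _
      (Finset.mem_erase.mpr ⟨hps.symm, Finset.mem_univ s⟩), Finset.prod_eq_one]
    · rw [hap, has, mul_one]
    · intro i hi
      rw [Finset.mem_erase, Finset.mem_erase] at hi
      rw [hao i hi.2.1 hi.1, pow_zero]
  have hle : ∀ l, (a l : ℕ) + 1 < n := by
    intro l
    by_cases h1 : l = p
    · subst h1; omega
    · by_cases h2 : l = s
      · subst h2; omega
      · rw [hao l h1 h2]; omega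
  have h1 : ∀ i, ∃ N0, ∀ N ≥ N0, ∃ P, T.HasExp z n N ((V i p : CR z) : KK) P ∧
      ∀ a, P a ∈ Mhom k n N a := fun i => exp_hom hn h.hz hz0 (V i p).2
  have h2 : ∀ i l, ∃ N0, ∀ N ≥ N0, ∃ P, T.HasExp z n N ((V i p : CR z) : KK) P ∧
      ∀ a, P a ∈ T.J (Sum.inl l) (T.sz (Sum.inl l) * N -
        (T.ordN (Sum.inl l) (fun i => (a i : ℕ)) + 1) / n) := fun i l =>
    exp_ord hn h.hz hz0 (Sum.inl l) 1 (hreg l i p)
  choose N1 hN1 using h1
  choose N2 hN2 using h2
  set N := 1 + ∑ i, N1 i + ∑ i, ∑ l, N2 i l with hN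
  have hle1 : ∀ i, N1 i ≤ N := by
    intro i
    have h3 : N1 i ≤ ∑ i, N1 i :=
      Finset.single_le_sum (f := N1) (fun _ _ => Nat.zero_le _) (Finset.mem_univ i)
    omega
  have hle2 : ∀ i l, N2 i l ≤ N := by
    intro i l
    have h3 : N2 i l ≤ ∑ l, N2 i l :=
      Finset.single_le_sum (f := fun l => N2 i l) (fun _ _ => Nat.zero_le _) (Finset.mem_univ l)
    have h4 : ∑ l, N2 i l ≤ ∑ i, ∑ l, N2 i l :=
      Finset.single_le_sum (f := fun i => ∑ l, N2 i l) (fun _ _ => Nat.zero_le _)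
        (Finset.mem_univ i)
    omega
  choose P hP hPh using fun i => hN1 i N (hle1 i)
  have hPa : ∀ i, P i a = 0 := by
    intro i
    by_contra hne
    have h3 : (P i a).IsHomogeneous (k * N - 1) := by
      have h4 := hPh i a
      rw [Mhom, if_pos ⟨1, by rw [hsum]; ring⟩, MvPolynomial.mem_homogeneousSubmodule, hsum,
        one_mul, Nat.div_self hn] at h4
      exact h4
    have h5 : ∏ l ∈ Finset.univ, T.L l ^ N ∣ P i a := by
      refine T.prod_L_dvd Finset.univ (fun _ => N) _ fun l _ => ?_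
      obtain ⟨P', hP', hP''⟩ := hN2 i l N (hle2 i l)
      have h6 := hP'.unique hn h.hz (hP i)
      have h7 := hP'' a
      rw [h6] at h7
      have h8 : T.sz (Sum.inl l : Crv k r) = 1 := by simp [sz, val]
      have h9 : T.ordN (Sum.inl l : Crv k r) (fun i => (a i : ℕ)) = a l := by simp [ordN, val]
      rw [h8, h9, one_mul, Nat.div_eq_of_lt (hle l), Nat.sub_zero, mem_J_inl] at h7
      exact h7
    obtain ⟨K, hK⟩ := h5
    have hQ : (∏ l ∈ Finset.univ, T.L l ^ N).IsHomogeneous (k * N) := by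
      have h6 := MvPolynomial.IsHomogeneous.prod Finset.univ (fun l => T.L l ^ N) (fun _ => N)
        (fun l _ => by simpa using (T.L_hom l).pow N)
      simpa using h6
    have hQ0 : (∏ l ∈ Finset.univ, T.L l ^ N) ≠ 0 :=
      Finset.prod_ne_zero_iff.mpr fun l _ => pow_ne_zero _ (T.L_ne_zero l)
    have hK0 : K ≠ 0 := by
      rintro rfl
      rw [mul_zero] at hK
      exact hne hK
    rw [hK] at h3
    have h6 := (hom_of_mul hQ hQ0 hK0 h3).1
    have hk3 := h.full.k3
    have h7 : 1 ≤ k * N := Nat.one_le_iff_ne_zero.mpr (Nat.mul_ne_zero (by omega) (by omega))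
    omega
  have h3 := HasExp.sum Finset.univ (fun i (_ : i ∈ Finset.univ) =>
    ((hP i).mul (T.L i)).mul (MvPolynomial.C (c i)))
  rw [hrel] at h3
  have h4 : T.HasExp z n N (z p ^ 2 * z s ^ (n - 2)) (Pi.single a ((∏ i, T.L i) ^ N)) := by
    rw [HasExp, Finset.sum_eq_single a]
    · rw [Pi.single_eq_same, hprod]
    · intro b _ hb
      rw [Pi.single_eq_of_ne hb, map_zero, zero_mul]
    · intro h; exact absurd (Finset.mem_univ _) h
  have h5 := congrFun (h3.unique hn h.hz h4) a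
  rw [Pi.single_eq_same] at h5
  simp only [hPa, mul_zero, Finset.sum_const_zero] at h5
  exact pow_ne_zero N (Finset.prod_ne_zero_iff.mpr fun l _ => T.L_ne_zero l) h5.symm

end TConf

end

end Pool.Agent.H94_hk
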