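import Pool.Agent.H94_fr.Neg

/-!
# Surfaces that are not formally rigid
-/

namespace Pool.Agent.H94_hk

open PowerSeries Pool.Agent.H94_fr

noncomputable section

variable {k : ℕ} {z : Fin k → KK}

theorem uw_mem (hz0 : ∀ i, z i ≠ 0) {n : ℕ} (c : Fin k → ℂ) {p s m : Fin k}
    {R : Set (Fin k × Fin k)} (h1 : p = m ∨ (p, m) ∈ R) (h2 : (s, m) ∈ R) :
    uw z n c p s m ∈ sb z (ratioAlg z R) := by
  refine Subalgebra.smul_mem _ (mul_mem (pow_mem ?_ _) (pow_mem ?_ _)) _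
  · rcases h1 with rfl | h1
    · rw [rt_self hz0]; exact one_mem _
    · exact ratio_mem h1
  · exact ratio_mem h2

namespace TConf

variable {r : ℕ} {T : TConf k r} {n : ℕ} (h : T.Rts n z)

include h in
/-- A nontrivial formal deformation. -/
theorem neg_main (hn4 : 4 ≤ n) (𝒞 : Config k) (h𝒞 : 𝒞.form = T.f)
    {c : Fin k → ℂ} (hc : ∑ i, c i • T.f i = 0) {p s e1 : Fin k} (hps : p ≠ s) (he1p : e1 ≠ p)
    (M : Finset (Fin k)) (hcM : ∀ m ∈ M, c m ≠ 0) (he1M : e1 ∈ M) (hsM : s ∉ M)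
    (hrel : ∀ l ∈ M, ∀ m ∈ M, l ≠ m → ∀ e : Fin k → ℂ, ∑ i, e i • T.f i = 0 →
      e l * c m = e m * c l)
    (hcov : ∀ R, 𝒞.IsChart R → ∃ m ∈ M, (p = m ∨ (p, m) ∈ R) ∧ (s, m) ∈ R) :
    ¬ FRU z {R | 𝒞.IsChart R} := by
  classical
  intro hF
  have hz0 := h.hz0
  have hn := h.pos
  have hn2 := h.hn
  have hk3 := h.full.k3
  have hcov' : ∀ R, ∃ m, 𝒞.IsChart R → m ∈ M ∧ (p = m ∨ (p, m) ∈ R) ∧ (s, m) ∈ R := by
    intro R
    by_cases hR : 𝒞.IsChart R
    · obtain ⟨m, hm⟩ := hcov R hR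
      exact ⟨m, fun _ => hm⟩
    · exact ⟨e1, fun h => absurd h hR⟩
  choose mR hmR using hcov'
  have hmM : ∀ R, 𝒞.IsChart R → mR R ∈ M := fun R hR => (hmR R hR).1
  have hmp : ∀ R, 𝒞.IsChart R → p = mR R ∨ (p, mR R) ∈ R := fun R hR => (hmR R hR).2.1
  have hms : ∀ R, 𝒞.IsChart R → (s, mR R) ∈ R := fun R hR => (hmR R hR).2.2
  have hβ : ∀ l m, ∃ β : PG (CR z), l ∈ M → m ∈ M → l ≠ m → IsB z n c p s l m β := by
    intro l m
    by_cases hyp : l ∈ M ∧ m ∈ M ∧ l ≠ m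
    · obtain ⟨β, hβ1, hβ2⟩ := exists_beta h (p := p) (s := s) hyp.2.2 (hcM l hyp.1)
        (hcM m hyp.2.1) (hrel l hyp.1 m hyp.2.1 hyp.2.2)
      exact ⟨β, fun _ _ _ => ⟨hβ1, hβ2⟩⟩
    · exact ⟨1, fun h1 h2 h3 => absurd ⟨h1, h2, h3⟩ hyp⟩
  choose β hβ using hβ
  let γ : Fin k → PG (CR z) := fun m => if m = e1 then 1 else β e1 m
  have hγ1 : γ e1 = 1 := if_pos rfl
  have hγ2 : ∀ m, m ≠ e1 → γ m = β e1 m := fun m hm => if_neg hm
  have hγu : ∀ m ∈ M, Uni (γ m) := by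
    intro m hm
    by_cases h1 : m = e1
    · rw [h1, hγ1]; exact Uni.one
    · rw [hγ2 m h1]; exact (hβ e1 m he1M hm (Ne.symm h1)).1
  have hsne : ∀ m ∈ M, s ≠ m := fun m hm h1 => hsM (h1 ▸ hm)
  have hγk : ∀ m ∈ M, ∀ m' ∈ M, ∀ R : Set (Fin k × Fin k),
      uw z n c p s m ∈ sb z (ratioAlg z R) → uw z n c p s m' ∈ sb z (ratioAlg z R) →
      KE (sb z (ratioAlg z R)) ((γ m)⁻¹ * γ m') := by
    intro m hm m' hm' R h1 h2
    by_cases hmm : m = m'
    · subst hmm
      rw [inv_mul_cancel]; exact KE.one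
    by_cases he : m = e1
    · subst he
      rw [hγ1, inv_one, one_mul, hγ2 m' (Ne.symm hmm)]
      exact (hβ m m' hm hm' hmm).keep hz0 hn h1 h2
    by_cases he' : m' = e1
    · subst he'
      rw [hγ1, mul_one, hγ2 m he]
      have h3 := hβ m' m hm' hm (Ne.symm hmm)
      exact (h3.keep hz0 hn h2 h1).inv h3.1
    rw [hγ2 m he, hγ2 m' he']
    by_cases hmp' : m = p
    · have hm'p : m' ≠ p := fun h3 => hmm (hmp'.trans h3.symm)
      have h3 := (hβ e1 m' he1M hm' (Ne.symm he')).comp hz0 hn2 (hβ m' m hm' hm (Ne.symm hmm))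
        (hβ e1 m he1M hm (Ne.symm he)) (Ne.symm he') (Ne.symm hmm) (Ne.symm he)
        (Ne.symm he1p) (Ne.symm hm'p) (hsne e1 he1M) (hsne m' hm')
      have h4 : (β e1 m)⁻¹ * β e1 m' = (β m' m)⁻¹ := by
        rw [← h3]; group
      rw [h4]
      have h5 := hβ m' m hm' hm (Ne.symm hmm)
      exact (h5.keep hz0 hn h2 h1).inv h5.1
    · have h3 := (hβ e1 m he1M hm (Ne.symm he)).comp hz0 hn2 (hβ m m' hm hm' hmm)
        (hβ e1 m' he1M hm' (Ne.symm he')) (Ne.symm he) hmm (Ne.symm he')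
        (Ne.symm he1p) (Ne.symm hmp') (hsne e1 he1M) (hsne m hm)
      have h4 : (β e1 m)⁻¹ * β e1 m' = β m m' := by
        rw [← h3]; group
      rw [h4]
      exact (hβ m m' hm hm' hmm).keep hz0 hn h1 h2
  have huw : ∀ R, 𝒞.IsChart R → uw z n c p s (mR R) ∈ sb z (ratioAlg z R) := fun R hR =>
    uw_mem hz0 c (hmp R hR) (hms R hR)
  obtain ⟨ψ, hψ1, hψ2, hψ3⟩ := hF (fun R R' => (γ (mR R))⁻¹ * γ (mR R'))
    (fun R R' => (hγu _ (hmM _ R.2)).inv.mul (hγu _ (hmM _ R'.2)))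
    (fun R R' => by
      rw [ratioAlg_sup]
      refine hγk _ (hmM _ R.2) _ (hmM _ R'.2) _ ?_ ?_
      · exact sb_mono (ratioAlg_mono Set.subset_union_left) (huw _ R.2)
      · exact sb_mono (ratioAlg_mono Set.subset_union_right) (huw _ R'.2))
    (fun R R' R'' => by group)
  -- a chart
  have hch : ∀ D D', T.meet D D' → T.chart D D' ∈ {R | 𝒞.IsChart R} := fun D D' hm =>
    (h.full.isChart_iff h𝒞).mpr ⟨D, D', hm, rfl⟩
  obtain ⟨D1, -, hm1, -, -⟩ := two_nodes h.full e1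
  set R0 : {R | 𝒞.IsChart R} := ⟨_, hch _ _ hm1⟩ with hR0
  set Φ : PG (CR z) := γ (mR R0) * ψ R0 with hΦ
  have hΦR : ∀ R : {R | 𝒞.IsChart R}, γ (mR R) * ψ R = Φ := by
    intro R
    rw [hΦ, ← hψ3 R R0]
    group
  have hΦu : Uni Φ := (hγu _ (hmM _ R0.2)).mul (hψ1 R0)
  let V : Fin k → Fin k → CR z := fun i j => n * coeff 1 (Wd Φ i j) +
    (if i = e1 then uw z n c p s i else 0) - (if j = e1 then uw z n c p s j else 0)
  have hVR : ∀ R : {R | 𝒞.IsChart R}, ∀ i j, V i j =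
      (if i = mR R then uw z n c p s i else 0) - (if j = mR R then uw z n c p s j else 0) +
      n * coeff 1 (Wd (ψ R) i j) := by
    intro R i j
    have h1 : coeff 1 (Wd Φ i j) = coeff 1 (Wd (γ (mR R)) i j) + coeff 1 (Wd (ψ R) i j) := by
      rw [← hΦR R]
      exact coeff_one_Wd hz0 (hγu _ (hmM _ R.2)) (hψ1 R) i j
    have h2 : n * coeff 1 (Wd (γ (mR R)) i j) =
        gd z n c p s e1 (mR R) i - gd z n c p s e1 (mR R) j := by
      by_cases he : mR R = e1
      · rw [he, hγ1, Wd_one hz0, PowerSeries.coeff_one, if_neg one_ne_zero, mul_zero, gd, gd,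
          sub_self, sub_self, sub_zero]
      · rw [hγ2 _ he]
        exact (hβ e1 _ he1M (hmM _ R.2) (Ne.symm he)).coeff_one hz0 hn (Ne.symm he) i j
    simp only [V]
    rw [h1, mul_add, h2, gd, gd]
    ring
  have hVreg : ∀ R : {R | 𝒞.IsChart R}, ∀ i j, (i, j) ∈ (R : Set (Fin k × Fin k)) →
      rt z i j * V i j ∈ sb z (ratioAlg z R) := by
    intro R i j hij
    have hrt : rt z i j ∈ sb z (ratioAlg z R) := ratio_mem hij
    have hn' : ((n : ℕ) : CR z) ∈ sb z (ratioAlg z R) := natCast_mem _ _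
    have h1 : rt z i j * coeff 1 (Wd (ψ R) i j) = coeff 1 (ψ R (C (rt z i j))) := by
      rw [Wd_spec hz0, coeff_C_mul]
    have h2 : coeff 1 (ψ R (C (rt z i j))) ∈ sb z (ratioAlg z R) :=
      hψ2 R _ (C_mem_PSub hrt) 1
    have h3 : ∀ i, (if i = mR R then uw z n c p s i else 0) ∈ sb z (ratioAlg z R) := by
      intro i
      split_ifs with h4
      · rw [h4]; exact huw _ R.2
      · exact zero_mem _
    rw [hVR R]
    have h4 : rt z i j * ((if i = mR R then uw z n c p s i else 0) -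
        (if j = mR R then uw z n c p s j else 0) + n * coeff 1 (Wd (ψ R) i j)) =
        rt z i j * ((if i = mR R then uw z n c p s i else 0) -
        (if j = mR R then uw z n c p s j else 0)) + n * coeff 1 (ψ R (C (rt z i j))) := by
      rw [← h1]; ring
    rw [h4]
    exact add_mem (mul_mem hrt (sub_mem (h3 i) (h3 j))) (mul_mem hn' h2)
  have hVself : ∀ i, V i i = 0 := by
    intro i
    simp only [V]
    rw [Wd_self hz0, PowerSeries.coeff_one, if_neg one_ne_zero]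
    ring
  have hVanti : ∀ i j, V i j = - V j i := by
    intro i j
    have h1 := congrArg (coeff 1) (Wd_mul hz0 Φ i j i)
    rw [coeff_one_mul, Wd_const hz0 hΦu, Wd_const hz0 hΦu, Wd_self hz0, PowerSeries.coeff_one,
      if_neg one_ne_zero] at h1
    simp only [V]
    linear_combination (n : CR z) * h1
  have hreg : ∀ l i j, ((V i j : CR z) : KK) ∈ Submodule.span ℂ
      (zm z '' {e | ∑ i, e i = 0 ∧ -((1 : ℕ) : ℤ) ≤ T.ord (Sum.inl l) e}) := by
    intro l
    have main : ∀ i j, T.val (Sum.inl l) j ≤ T.val (Sum.inl l) i → ((V i j : CR z) : KK) ∈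
        Submodule.span ℂ
        (zm z '' {e | ∑ i, e i = 0 ∧ -((1 : ℕ) : ℤ) ≤ T.ord (Sum.inl l) e}) := by
      intro i j hv
      by_cases hij : i = j
      · subst hij
        rw [hVself]
        exact zero_mem _
      obtain ⟨D', D'', hm', hm'', hne⟩ := two_nodes h.full l
      have key : ∀ D', T.meet (Sum.inl l) D' → (i, j) ∈ T.chart (Sum.inl l) D' →
          ((V i j : CR z) : KK) ∈ Submodule.span ℂ
          (zm z '' {e | ∑ i, e i = 0 ∧ -((1 : ℕ) : ℤ) ≤ T.ord (Sum.inl l) e}) := by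
        intro D' hm hmem
        apply span_of_regular h (i := i) (j := j)
        exact chart_le_RD hm (hVreg ⟨_, hch _ _ hm⟩ i j hmem)
      rcases T.chart_union hm' hm'' hne hij hv with h1 | h1
      · exact key D' hm' h1
      · exact key D'' hm'' h1
    intro i j
    rcases le_total (T.val (Sum.inl l) j) (T.val (Sum.inl l) i) with hv | hv
    · exact main i j hv
    · rw [hVanti]
      have h1 := Submodule.neg_mem _ (main j i hv)
      have h2 : -((V j i : CR z) : KK) = ((-V j i : CR z) : KK) := by push_cast; rfl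
      rwa [h2] at h1
  refine no_family h hn4 hps (c := c) hreg ?_
  obtain ⟨δ, hδ⟩ := exists_dr le_rfl (uni_iff.mp hΦu)
  have hld : ∀ i j, ld δ i j = coeff 1 (Wd Φ i j) := by
    intro i j
    rw [ld, hδ, coeff_Wd]
  have h1 := ld_rel hn h.hz hz0 δ p c hc
  simp only [hld] at h1
  have hVe : ∀ i, ((V i p : CR z) : KK) = (n : KK) * ((coeff 1 (Wd Φ i p) : CR z) : KK) +
      (if i = e1 then ((uw z n c p s e1 : CR z) : KK) else 0) := by
    intro i
    simp only [V]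
    rw [if_neg (Ne.symm he1p), sub_zero]
    split_ifs with h2
    · subst h2; push_cast; rfl
    · push_cast; rfl
  simp only [hVe, mul_add, Finset.sum_add_distrib]
  have h2 : ∑ i, algebraMap R3 KK (MvPolynomial.C (c i)) * (algebraMap R3 KK (T.L i) *
      ((n : KK) * ((coeff 1 (Wd Φ i p) : CR z) : KK))) = 0 := by
    have h3 : ∀ i, algebraMap R3 KK (MvPolynomial.C (c i)) * (algebraMap R3 KK (T.L i) *
      ((n : KK) * ((coeff 1 (Wd Φ i p) : CR z) : KK))) = (n : KK) *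
      (algebraMap R3 KK (MvPolynomial.C (c i)) * (algebraMap R3 KK (T.L i) *
      ((coeff 1 (Wd Φ i p) : CR z) : KK))) := fun i => by ring
    simp only [h3]
    rw [← Finset.mul_sum, h1, mul_zero]
  rw [h2, zero_add, Finset.sum_eq_single e1]
  · rw [if_pos rfl, ← h.hz]
    have hcC : algebraMap R3 KK (MvPolynomial.C (c e1)) = algebraMap ℂ KK (c e1) := by
      have h4 : (MvPolynomial.C (c e1) : R3) = algebraMap ℂ R3 (c e1) := rfl
      rw [h4, ← IsScalarTower.algebraMap_apply ℂ R3 KK]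
    have h5 : ((uw z n c p s e1 : CR z) : KK) = (algebraMap ℂ KK (c e1))⁻¹ *
        ((z p / z e1) ^ 2 * (z s / z e1) ^ (n - 2)) := by
      rw [uw, ← map_inv₀, ← Algebra.smul_def]
      rfl
    have h6 : algebraMap ℂ KK (c e1) ≠ 0 := by
      rw [Ne, map_eq_zero_iff _ (algebraMap ℂ KK).injective]
      exact hcM e1 he1M
    obtain ⟨t, rfl⟩ : ∃ t, n = t + 2 := ⟨n - 2, by omega⟩
    rw [hcC, h5, Nat.add_sub_cancel]
    have h7 := hz0 e1
    have h8 : algebraMap ℂ KK (c e1) * (z e1 ^ (t + 2) * ((algebraMap ℂ KK (c e1))⁻¹ *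
        ((z p / z e1) ^ 2 * (z s / z e1) ^ t))) =
        (algebraMap ℂ KK (c e1) * (algebraMap ℂ KK (c e1))⁻¹) *
        (((z p / z e1) * z e1) ^ 2 * ((z s / z e1) * z e1) ^ t) := by ring
    rw [h8, mul_inv_cancel₀ h6, div_mul_cancel₀ _ h7, div_mul_cancel₀ _ h7, one_mul]
  · intro i _ hi
    rw [if_neg hi]; ring
  · intro hcon; exact absurd (Finset.mem_univ _) hcon

end TConf

end

end Pool.Agent.H94_hk
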