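import Pool.Agent.H94_fr.Neg2

/-!
# Configurations of four and five lines
-/

namespace Pool.Agent.H94_hk

open PowerSeries Pool.Agent.H94_fr

noncomputable section

variable {k : ℕ} {z : Fin k → KK}

namespace TConf

variable {r : ℕ} {T : TConf k r} {n : ℕ} (h : T.Rts n z)

include h in
/-- A triple of concurrent lines with a condition on the other relations. -/
theorem neg_triple (hn4 : 4 ≤ n) (𝒞 : Config k) (h𝒞 : 𝒞.form = T.f)
    {c : Fin k → ℂ} (hc : ∑ i, c i • T.f i = 0) {i1 i2 i3 : Fin k} (h12 : i1 ≠ i2)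
    (h13 : i1 ≠ i3) (h23 : i2 ≠ i3) (hc1 : c i1 ≠ 0) (hc2 : c i2 ≠ 0) (hc3 : c i3 ≠ 0)
    (hc0 : ∀ j, j ≠ i1 → j ≠ i2 → j ≠ i3 → c j = 0)
    (hrel : ∀ e : Fin k → ℂ, ∑ i, e i • T.f i = 0 → e i1 * c i2 = e i2 * c i1) :
    ¬ FRU z {R | 𝒞.IsChart R} := by
  classical
  have hconc : ∀ P : Fin 3 → ℂ, T.f i1 ⬝ᵥ P = 0 → T.f i2 ⬝ᵥ P = 0 → T.f i3 ⬝ᵥ P = 0 := by
    intro P h1 h2
    have h3 := congrArg (fun v => v ⬝ᵥ P) hc
    simp only [sum_dotProduct, smul_dotProduct, smul_eq_mul, zero_dotProduct] at h3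
    rw [Finset.sum_eq_single i3] at h3
    · exact (mul_eq_zero.mp h3).resolve_left hc3
    · intro j _ hj
      by_cases e1 : j = i1
      · rw [e1, h1, mul_zero]
      by_cases e2 : j = i2
      · rw [e2, h2, mul_zero]
      rw [hc0 j e1 e2 hj, zero_mul]
    · intro hcon; exact absurd (Finset.mem_univ _) hcon
  have hth : ∀ p, 𝒞.through p = {i | T.f i ⬝ᵥ p = 0} := by
    intro p
    rw [Config.through, h𝒞]
  refine neg_main h hn4 𝒞 h𝒞 hc (p := i2) (s := i3) (e1 := i1) h23 h12 {i1, i2} ?_ ?_ ?_ ?_ ?_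
  · intro m hm
    rw [Finset.mem_insert, Finset.mem_singleton] at hm
    rcases hm with rfl | rfl
    · exact hc1
    · exact hc2
  · exact Finset.mem_insert_self _ _
  · rw [Finset.mem_insert, Finset.mem_singleton]
    rintro (h1 | h1)
    · exact h13 h1.symm
    · exact h23 h1.symm
  · intro l hl m hm hlm e he
    rw [Finset.mem_insert, Finset.mem_singleton] at hl hm
    rcases hl with rfl | rfl <;> rcases hm with rfl | rfl
    · exact absurd rfl hlm
    · exact hrel e he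
    · exact (hrel e he).symm
    · exact absurd rfl hlm
  · rintro R (⟨P, hP, hcard, rfl⟩ | ⟨P, i, hP, hcard, hi, rfl⟩)
    · by_cases e1 : i1 ∈ 𝒞.through P
      · by_cases e2 : i2 ∈ 𝒞.through P
        · exfalso
          have e3 : i3 ∈ 𝒞.through P := by
            rw [hth] at e1 e2 ⊢
            exact hconc P e1 e2
          have h4 : ({i1, i2, i3} : Set (Fin k)) ⊆ 𝒞.through P := by
            rintro x (rfl | rfl | rfl)
            · exact e1
            · exact e2
            · exact e3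
          have h5 := Set.ncard_le_ncard h4 (Set.toFinite _)
          rw [Set.ncard_eq_three.mpr ⟨i1, i2, i3, h12, h13, h23, rfl⟩] at h5
          omega
        · exact ⟨i2, by simp, Or.inl rfl, e2⟩
      · exact ⟨i1, by simp, Or.inr e1, e1⟩
    · by_cases e1 : i1 ∈ 𝒞.through P
      · by_cases e2 : i2 ∈ 𝒞.through P
        · have e3 : i3 ∈ 𝒞.through P := by
            rw [hth] at e1 e2 ⊢
            exact hconc P e1 e2
          by_cases hi1 : i1 = i
          · exact ⟨i2, by simp, Or.inl rfl, Or.inr ⟨e3, e2, fun h => h12 (hi1.trans h.symm)⟩⟩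
          · exact ⟨i1, by simp, Or.inr (Or.inr ⟨e2, e1, hi1⟩), Or.inr ⟨e3, e1, hi1⟩⟩
        · exact ⟨i2, by simp, Or.inl rfl, Or.inl e2⟩
      · exact ⟨i1, by simp, Or.inr (Or.inl e1), Or.inl e1⟩

end TConf

theorem fin4_two : ∀ i j : Fin 4, i ≠ j → ∃ a b : Fin 4, a ≠ b ∧ a ≠ i ∧ a ≠ j ∧ b ≠ i ∧ b ≠ j ∧
    ∀ x, x = i ∨ x = j ∨ x = a ∨ x = b := by decide

theorem fin4_three : ∀ i4 : Fin 4, ∃ i1 i2 i3 : Fin 4, i1 ≠ i2 ∧
    i1 ≠ i3 ∧ i2 ≠ i3 ∧ i1 ≠ i4 ∧ i2 ≠ i4 ∧ i3 ≠ i4 ∧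
    ∀ x, x = i1 ∨ x = i2 ∨ x = i3 ∨ x = i4 := by decide

theorem fin4_M : ∀ x y : Fin 4, ∃ m ∈ ({0, 1, 3} : Finset (Fin 4)), m ≠ x ∧ m ≠ y := by decide

/-- A relation among four forms, unique up to scalars. -/
theorem rel4 {form : Fin 4 → Fin 3 → ℂ}
    (hspan : ∀ v : Fin 3 → ℂ, ∃ b : Fin 4 → ℂ, v = ∑ l, b l • form l) :
    ∃ c : Fin 4 → ℂ, c ≠ 0 ∧ ∑ i, c i • form i = 0 ∧
      ∀ e : Fin 4 → ℂ, ∑ i, e i • form i = 0 → ∃ t : ℂ, e = t • c := by
  let Φ : (Fin 4 → ℂ) →ₗ[ℂ] (Fin 3 → ℂ) :=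
    { toFun := fun b => ∑ l, b l • form l
      map_add' := by
        intro x y
        simp only [Pi.add_apply, add_smul, Finset.sum_add_distrib]
      map_smul' := by
        intro s x
        simp only [Pi.smul_apply, smul_eq_mul, mul_smul, Finset.smul_sum, RingHom.id_apply] }
  have hsurj : Function.Surjective Φ := by
    intro v
    obtain ⟨b, hb⟩ := hspan v
    exact ⟨b, hb.symm⟩
  have h1 := LinearMap.finrank_range_add_finrank_ker Φ
  rw [LinearMap.range_eq_top.mpr hsurj, finrank_top] at h1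
  simp only [Module.finrank_fintype_fun_eq_card, Fintype.card_fin] at h1
  have h2 : Module.finrank ℂ (LinearMap.ker Φ) = 1 := by omega
  obtain ⟨v, hv0, hv⟩ := finrank_eq_one_iff'.mp h2
  refine ⟨v.1, fun h => hv0 (Subtype.ext h), v.2, fun e he => ?_⟩
  obtain ⟨t, ht⟩ := hv ⟨e, he⟩
  exact ⟨t, (congrArg Subtype.val ht).symm⟩

namespace TConf

variable {r : ℕ} {n : ℕ}

/-- Four lines. -/
theorem neg_four {T : TConf 4 r} {z : Fin 4 → KK} (h : T.Rts n z) (hn4 : 4 ≤ n) (𝒞 : Config 4)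
    (h𝒞 : 𝒞.form = T.f) : ¬ FRU z {R | 𝒞.IsChart R} := by
  classical
  obtain ⟨c, hc0, hc, hu⟩ := rel4 h.full.span
  have hrel : ∀ l m, ∀ e : Fin 4 → ℂ, ∑ i, e i • T.f i = 0 → e l * c m = e m * c l := by
    intro l m e he
    obtain ⟨t, rfl⟩ := hu e he
    simp only [Pi.smul_apply, smul_eq_mul]
    ring
  have hth : ∀ p, 𝒞.through p = {i | T.f i ⬝ᵥ p = 0} := by
    intro p
    rw [Config.through, h𝒞]
  -- two vanishing coefficients are impossible
  have htwo : ∀ i j, i ≠ j → c i = 0 → c j = 0 → False := by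
    intro i j hij hi hj
    obtain ⟨a, b, hab, hai, haj, hbi, hbj, hall⟩ := fin4_two i j hij
    have h2 : c a • T.f a + c b • T.f b = 0 := by
      rw [← hc, ← Finset.add_sum_erase _ _ (Finset.mem_univ a), ← Finset.add_sum_erase _ _
        (Finset.mem_erase.mpr ⟨hab.symm, Finset.mem_univ b⟩), Finset.sum_eq_zero, add_zero]
      intro x hx
      rw [Finset.mem_erase, Finset.mem_erase] at hx
      rcases hall x with rfl | rfl | rfl | rfl
      · rw [hi, zero_smul]
      · rw [hj, zero_smul]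
      · exact absurd rfl hx.2.1
      · exact absurd rfl hx.1
    obtain ⟨h3, h4⟩ := f_indep' hab h2
    apply hc0
    funext x
    rcases hall x with rfl | rfl | rfl | rfl
    · exact hi
    · exact hj
    · exact h3
    · exact h4
  by_cases hz : ∃ i, c i = 0
  · obtain ⟨i4, hi4⟩ := hz
    obtain ⟨i1, i2, i3, h12, h13, h23, h14, h24, h34, hall⟩ := fin4_three i4
    exact neg_triple h hn4 𝒞 h𝒞 hc h12 h13 h23 (fun h0 => htwo _ _ h14 h0 hi4)
      (fun h0 => htwo _ _ h24 h0 hi4) (fun h0 => htwo _ _ h34 h0 hi4)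
      (fun j e1 e2 e3 => by
        rcases hall j with rfl | rfl | rfl | rfl
        · exact absurd rfl e1
        · exact absurd rfl e2
        · exact absurd rfl e3
        · exact hi4)
      (hrel _ _)
  · push Not at hz
    refine neg_main h hn4 𝒞 h𝒞 hc (p := 1) (s := 2) (e1 := 0) (by decide) (by decide)
      {0, 1, 3} (fun m _ => hz m) (by decide) (by decide) (fun l _ m _ _ e he => hrel l m e he) ?_
    rintro R (⟨P, hP, hcard, rfl⟩ | ⟨P, i, hP, hcard, hi, rfl⟩)
    · obtain ⟨x, y, hxy, hxy'⟩ := Set.ncard_eq_two.mp hcard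
      obtain ⟨m, hm, hmx, hmy⟩ := fin4_M x y
      have h1 : m ∉ 𝒞.through P := by
        rw [hxy']
        rintro (h1 | h1)
        · exact hmx h1
        · exact hmy h1
      exact ⟨m, hm, Or.inr h1, h1⟩
    · exfalso
      obtain ⟨w, hw⟩ := 𝒞.nonconcurrent P hP
      have hsub : 𝒞.through P ⊆ {x | x ≠ w} := by
        rintro x hx rfl
        exact hw hx
      have h1 : ({x | x ≠ w} : Set (Fin 4)).ncard = 3 := by
        have h2 : ({x | x ≠ w} : Set (Fin 4)) = ((Finset.univ.erase w : Finset (Fin 4)) :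
            Set (Fin 4)) := by
          ext x; simp
        rw [h2, Set.ncard_coe_finset, Finset.card_erase_of_mem (Finset.mem_univ w)]
        simp
      have h2 : 𝒞.through P = {x | x ≠ w} :=
        Set.eq_of_subset_of_ncard_le hsub (by rw [h1]; exact hcard) (Set.toFinite _)
      have h3 := congrArg (fun v => v ⬝ᵥ P) hc
      simp only [sum_dotProduct, smul_dotProduct, smul_eq_mul, zero_dotProduct] at h3
      rw [Finset.sum_eq_single w] at h3
      · apply hw
        rw [h𝒞]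
        exact (mul_eq_zero.mp h3).resolve_left (hz w)
      · intro j _ hj
        have h4 : j ∈ 𝒞.through P := by rw [h2]; exact hj
        rw [hth] at h4
        rw [show T.f j ⬝ᵥ P = 0 from h4, mul_zero]
      · intro hcon; exact absurd (Finset.mem_univ _) hcon

end TConf

end

end Pool.Agent.H94_hk
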