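import Pool.Agent.H94_fr.Neg3

/-!
# Configurations of five lines
-/

namespace Pool.Agent.H94_gen

open PowerSeries
open Pool.Agent.H94_hk (FRig)

noncomputable section

set_option linter.unusedSectionVars false

namespace TConf

variable {r : ℕ} {T : TConf ℂ 5 r}

/-- A rigid configuration of five lines has two multiple points. -/
theorem two_pts (hF : T.Full) (hfull : (toHk T).Full) (hLR : T.LR) : ∃ q q' : Fin r, q ≠ q' := by
  obtain ⟨q⟩ := hF.pts
  by_contra hcon
  push Not at hcon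
  have hfew : ∀ i, T.Few i := fun i q1 q2 _ _ => hcon q1 q2
  have h3 := hF.three q
  by_cases h4 : 4 ≤ (T.tri q).card
  · obtain ⟨i, hi⟩ := Finset.card_pos.mp (by omega : 0 < (T.tri q).card)
    have h5 := few_step hF hLR (by omega) (hfew i) (y := q) (by
      have := Finset.card_erase_add_one hi
      omega)
    exact h5.1 hi
  have hcard : (T.tri q).card = 3 := by omega
  obtain ⟨a, b, i, hab, hai, hbi, htri⟩ := Finset.card_eq_three.mp hcard
  have haq : a ∈ T.tri q := by rw [htri]; simp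
  have hbq : b ∈ T.tri q := by rw [htri]; simp
  have hiq : i ∈ T.tri q := by rw [htri]; simp
  have hc2 : (T.tri q)ᶜ.card = 2 := by
    have := Finset.card_compl_add_card (T.tri q)
    rw [Fintype.card_fin] at this
    omega
  obtain ⟨l, m, hlm, hlmeq⟩ := Finset.card_eq_two.mp hc2
  have hl : l ∉ T.tri q := by
    rw [← Finset.mem_compl, hlmeq]; simp
  have hm : m ∉ T.tri q := by
    rw [← Finset.mem_compl, hlmeq]; simp
  have hne : ∀ x ∈ T.tri q, ∀ y, y ∉ T.tri q → x ≠ y := fun x hx y hy h => hy (h ▸ hx)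
  obtain ⟨A, hA, hA'⟩ := free_move hF hLR (by omega) (hfew i)
  obtain ⟨α, h1⟩ := hA a hai
  obtain ⟨β, h2⟩ := hA b hbi
  obtain ⟨lam, h5⟩ := hA l (hne i hiq l hl).symm
  obtain ⟨μ, h6⟩ := hA m (hne i hiq m hm).symm
  have hl0 : T.f l ⬝ᵥ T.pt q ≠ 0 := fun h => hl ((T.mem_tri l q).mpr h)
  have hm0 : T.f m ⬝ᵥ T.pt q ≠ 0 := fun h => hm ((T.mem_tri m q).mpr h)
  have ha0 := (T.mem_tri a q).mp haq
  have hb0 := (T.mem_tri b q).mp hbq
  set w := T.f m ⬝ᵥ T.pt q / (T.f l ⬝ᵥ T.pt q) with hw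
  obtain ⟨x, y, hxy⟩ := form_mem haq hbq hab.symm (T.f m - w • T.f l) (by
    rw [sub_dotProduct, smul_dotProduct, smul_eq_mul, hw, div_mul_cancel₀ _ hl0, sub_self])
  have hfm : T.f m = x • T.f a + y • T.f b + w • T.f l := by rw [← hxy]; abel
  have hconc : ∀ a ∈ T.tri q, ∀ y w : ℂ, T.f m = y • T.f a + w • T.f l → False := by
    intro a ha y w hy
    have hdet : Matrix.det (Matrix.of ![(toHk T).f a, (toHk T).f l, (toHk T).f m]) = 0 := by
      apply H94_hk.TConf.det_of_comb (x := w) (y := y)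
      intro s
      change T.f m s = w * T.f l s + y * T.f a s
      rw [hy]
      simp only [Pi.add_apply, Pi.smul_apply, smul_eq_mul]
      ring
    obtain ⟨q', _, hlq', _⟩ := H94_hk.TConf.concurrent_tri hfull (hne a ha l hl) (hne a ha m hm)
      hlm hdet
    rw [hcon q' q] at hlq'
    exact hl hlq'
  have hx : x ≠ 0 := by
    rintro rfl
    exact hconc b hbq y w (by rw [hfm]; module)
  have hy : y ≠ 0 := by
    rintro rfl
    exact hconc a haq x w (by rw [hfm]; module)
  have hw0 : w ≠ 0 := div_ne_zero hm0 hl0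
  have h7 : (x * (μ - α)) • T.f a + (y * (μ - β)) • T.f b + (w * (μ - lam)) • T.f l = 0 := by
    have h8 := h6
    rw [hfm, Matrix.mulVec_add, Matrix.mulVec_add, Matrix.mulVec_smul, Matrix.mulVec_smul,
      Matrix.mulVec_smul, h1, h2, h5] at h8
    have h9 : (x * (μ - α)) • T.f a + (y * (μ - β)) • T.f b + (w * (μ - lam)) • T.f l =
        μ • (x • T.f a + y • T.f b + w • T.f l) - (x • α • T.f a + y • β • T.f b +
        w • lam • T.f l) := by module
    rw [h9, h8, sub_self]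
  have h8 := congrArg (fun v => v ⬝ᵥ T.pt q) h7
  simp only [add_dotProduct, smul_dotProduct, ha0, hb0, smul_eq_mul, mul_zero, zero_add,
    zero_dotProduct] at h8
  have h9 : w * (μ - lam) = 0 := (mul_eq_zero.mp h8).resolve_right hl0
  rw [h9, zero_smul, add_zero] at h7
  obtain ⟨h10, h11⟩ := f_indep hab h7
  have h12 : μ = α := sub_eq_zero.mp ((mul_eq_zero.mp h10).resolve_left hx)
  have h13 : μ = β := sub_eq_zero.mp ((mul_eq_zero.mp h11).resolve_left hy)
  obtain ⟨s, t, hst⟩ := form_mem haq hbq hab.symm (T.f i) ((T.mem_tri i q).mp hiq)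
  apply hA' μ
  rw [hst, Matrix.mulVec_add, Matrix.mulVec_smul, Matrix.mulVec_smul, h1, h2, ← h12, ← h13]
  module

/-- Rigid configurations of five lines. -/
theorem neg_five (hF : T.Full) (hfull : (toHk T).Full) (hLR : T.LR) {n : ℕ}
    {z : Fin 5 → H94_hk.KK} (h : (toHk T).Rts n z) (hn4 : 4 ≤ n) (𝒞 : H94_hk.Config 5)
    (h𝒞 : 𝒞.form = T.f) : ¬ H94_hk.FRU z {R | 𝒞.IsChart R} := by
  classical
  obtain ⟨q, q', hqq⟩ := two_pts hF hfull hLR
  have hq3 := hF.three q
  have hq3' := hF.three q'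
  have hint := T.inter_le_one hqq
  have hunion := Finset.card_union_add_card_inter (T.tri q) (T.tri q')
  have hle := Finset.card_le_univ (T.tri q ∪ T.tri q')
  rw [Fintype.card_fin] at hle
  have hcard : (T.tri q).card = 3 := by omega
  have hcu : (T.tri q ∪ T.tri q').card = 5 := by omega
  have hci : (T.tri q ∩ T.tri q').card = 1 := by omega
  have huniv : T.tri q ∪ T.tri q' = Finset.univ := by
    apply Finset.eq_univ_of_card
    rw [hcu, Fintype.card_fin]
  obtain ⟨i3, hi3⟩ := Finset.card_eq_one.mp hci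
  have hi3m : i3 ∈ T.tri q ∩ T.tri q' := by rw [hi3]; simp
  rw [Finset.mem_inter] at hi3m
  obtain ⟨i1, i2, h12, hers⟩ := Finset.card_eq_two.mp (by
    have := Finset.card_erase_add_one hi3m.1
    omega : ((T.tri q).erase i3).card = 2)
  have hi1 : i1 ∈ (T.tri q).erase i3 := by rw [hers]; simp
  have hi2 : i2 ∈ (T.tri q).erase i3 := by rw [hers]; simp
  rw [Finset.mem_erase] at hi1 hi2
  have hoff : ∀ j, j ≠ i1 → j ≠ i2 → j ∈ T.tri q' := by
    intro j h1 h2
    by_contra hj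
    have h3 : j ∈ T.tri q ∪ T.tri q' := by rw [huniv]; exact Finset.mem_univ j
    rw [Finset.mem_union] at h3
    have h4 : j ∈ (T.tri q).erase i3 := by
      rw [Finset.mem_erase]
      exact ⟨fun h => hj (h ▸ hi3m.2), h3.resolve_right hj⟩
    rw [hers, Finset.mem_insert, Finset.mem_singleton] at h4
    rcases h4 with h4 | h4
    · exact h1 h4
    · exact h2 h4
  have hi1' : i1 ∉ T.tri q' := by
    intro h1
    have h2 : i1 ∈ T.tri q ∩ T.tri q' := Finset.mem_inter.mpr ⟨hi1.2, h1⟩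
    rw [hi3, Finset.mem_singleton] at h2
    exact hi1.1 h2
  have hF1 : T.f i1 ⬝ᵥ T.pt q' ≠ 0 := fun h => hi1' ((T.mem_tri i1 q').mpr h)
  obtain ⟨x, y, hxy⟩ := form_mem hi1.2 hi2.2 h12.symm (T.f i3) ((T.mem_tri i3 q).mp hi3m.1)
  have hx : x ≠ 0 := by
    rintro rfl
    have h1 : (1 : ℂ) • T.f i3 + (-y) • T.f i2 = 0 := by rw [hxy]; module
    exact one_ne_zero (f_indep (Ne.symm hi2.1) h1).1
  have hy : y ≠ 0 := by
    rintro rfl
    have h1 : (1 : ℂ) • T.f i3 + (-x) • T.f i1 = 0 := by rw [hxy]; module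
    exact one_ne_zero (f_indep (Ne.symm hi1.1) h1).1
  let c : Fin 5 → ℂ := fun j => if j = i1 then x else if j = i2 then y else
    if j = i3 then -1 else 0
  have hc1 : c i1 = x := by simp [c]
  have hc2 : c i2 = y := by simp [c, h12.symm]
  have hc3 : c i3 = -1 := by simp [c, Ne.symm hi1.1, Ne.symm hi2.1]
  have hc0 : ∀ j, j ≠ i1 → j ≠ i2 → j ≠ i3 → c j = 0 := by
    intro j h1 h2 h3; simp [c, h1, h2, h3]
  have hc : ∑ i, c i • T.f i = 0 := by
    rw [← Finset.add_sum_erase _ _ (Finset.mem_univ i1), ← Finset.add_sum_erase _ _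
      (Finset.mem_erase.mpr ⟨h12.symm, Finset.mem_univ i2⟩), ← Finset.add_sum_erase _ _
      (Finset.mem_erase.mpr ⟨Ne.symm hi2.1, Finset.mem_erase.mpr
        ⟨Ne.symm hi1.1, Finset.mem_univ i3⟩⟩), Finset.sum_eq_zero, add_zero]
    · rw [hc1, hc2, hc3, hxy]; module
    · intro j hj
      rw [Finset.mem_erase, Finset.mem_erase, Finset.mem_erase] at hj
      rw [hc0 j hj.2.2.1 hj.2.1 hj.1, zero_smul]
  have hev : ∀ e : Fin 5 → ℂ, ∑ i, e i • T.f i = 0 →
      e i1 * (T.f i1 ⬝ᵥ T.pt q') + e i2 * (T.f i2 ⬝ᵥ T.pt q') = 0 := by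
    intro e he
    have h1 := congrArg (fun v => v ⬝ᵥ T.pt q') he
    simp only [sum_dotProduct, smul_dotProduct, smul_eq_mul, zero_dotProduct] at h1
    rw [← Finset.add_sum_erase _ _ (Finset.mem_univ i1), ← Finset.add_sum_erase _ _
      (Finset.mem_erase.mpr ⟨h12.symm, Finset.mem_univ i2⟩), Finset.sum_eq_zero, add_zero] at h1
    · exact h1
    · intro j hj
      rw [Finset.mem_erase, Finset.mem_erase] at hj
      rw [(T.mem_tri j q').mp (hoff j hj.2.1 hj.1), mul_zero]
  refine H94_hk.TConf.neg_triple h hn4 𝒞 h𝒞 hc h12 (Ne.symm (Ne.symm hi1.1))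
    (Ne.symm (Ne.symm hi2.1)) (by rw [hc1]; exact hx) (by rw [hc2]; exact hy)
    (by rw [hc3]; norm_num) hc0 ?_
  intro e he
  have h1 := hev e he
  have h2 := hev c hc
  apply mul_right_cancel₀ hF1
  linear_combination (c i2) * h1 - (e i2) * h2

end TConf

end

end Pool.Agent.H94_gen
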