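import Pool.Agent.H94_fr.StmtFOf

/-!
# Formal rigidity of the covering surfaces: the positive results
-/

namespace Pool.Agent.H94_hk

open PowerSeries Pool.Agent.H94_fr

noncomputable section

namespace TConf

variable {k r : ℕ} {T : TConf k r} {n : ℕ}

theorem frhk_of (hT : T.Full) (hn : 2 ≤ n) (hs : T.SolvNZ n) (hfr : FRig T.f) (𝒞 : Config k)
    (h𝒞 : 𝒞.form = T.f) : FRHK 𝒞 n := by
  intro z hz' glue hg1 hg2 hg3
  have hz : ∀ i, z i ^ n = algebraMap R3 KK (T.L i) := by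
    intro i; rw [hz' i, h𝒞]; rfl
  have h : T.Rts n z := ⟨hT, hn, hz⟩
  have hk3 := hT.k3
  let i0 : Fin k := ⟨0, by omega⟩
  let j0 : Fin k := ⟨1, by omega⟩
  have hij0 : i0 ≠ j0 := by
    intro h
    have h1 : (0 : ℕ) = 1 := congrArg Fin.val h
    omega
  have hi0 : T.meet (Sum.inl i0) (T.nd i0 j0) := T.mem_nodes.mp (T.nd_mem hij0)
  have hch : ∀ D D', T.meet D D' → T.chart D D' ∈ {R | 𝒞.IsChart R} := fun D D' h =>
    (hT.isChart_iff h𝒞).mpr ⟨D, D', h, rfl⟩
  let s0 : {R | 𝒞.IsChart R} := ⟨T.chart (Sum.inl i0) (T.nd i0 j0), hch _ _ hi0⟩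
  let s : Crv k r → Crv k r → {R | 𝒞.IsChart R} := fun D D' =>
    if h : T.meet D D' then ⟨T.chart D D', hch _ _ h⟩ else s0
  have hsval : ∀ D D', (h : T.meet D D') → s D D' = ⟨T.chart D D', hch _ _ h⟩ := by
    intro D D' h
    simp only [s, dif_pos h]
  have hdiff : ∀ R R', glue R s0 * (glue R' s0)⁻¹ = glue R R' := by
    intro R R'
    rw [← hg3 R R' s0]
    group
  have hP : T.Pt z (fun D D' => glue (s D D') s0) := by
    refine ⟨fun D D' => hg1 _ _, fun D D' hm => ?_, fun D D' D'' hm hm' => ?_⟩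
    · have h7 : s D D' = s D' D := by
        rw [hsval D D' hm, hsval D' D (T.meet_symm hm)]
        apply Subtype.ext
        exact T.chart_symm
      change glue (s D D') s0 = glue (s D' D) s0
      rw [h7]
    · by_cases hne : D' = D''
      · subst hne
        change KE _ (glue (s D D') s0 * (glue (s D D') s0)⁻¹)
        rw [mul_inv_cancel]
        exact KE.one
      · change KE _ (glue (s D D') s0 * (glue (s D D'') s0)⁻¹)
        rw [hdiff, ← RD_eq_sup h hm hm' hne]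
        have h8 := hg2 (s D D') (s D D'')
        rw [hsval D D' hm, hsval D D'' hm'] at h8 ⊢
        exact h8
  obtain ⟨Ψ, Ω, hΨ, hΩ, hχ⟩ := trivial_of_frig h hs hfr hP
  refine ⟨fun R => glue R s0 * Ω⁻¹, fun R => (hg1 _ _).mul hΩ.inv, ?_, ?_⟩
  · rintro ⟨R, hR⟩
    obtain ⟨D, D', hm, rfl⟩ := (hT.isChart_iff h𝒞).mp hR
    have h1 : glue ⟨T.chart D D', hR⟩ s0 * Ω⁻¹ = Ψ D D' := by
      have h2 := hχ D D'
      rw [hsval D D' hm] at h2
      rw [h2]
      group
    change KE _ (glue ⟨T.chart D D', hR⟩ s0 * Ω⁻¹)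
    rw [h1]
    exact hΨ.keep D D' hm
  · intro R R'
    change glue R R' * (glue R' s0 * Ω⁻¹) = glue R s0 * Ω⁻¹
    rw [← mul_assoc, hg3]

end TConf

/-- Formally rigid configurations of at least six lines. -/
theorem pos_six {k : ℕ} (𝒞 : Rig.Config k) (h : 𝒞.ArcRigid) (hk : 6 ≤ k) {n : ℕ}
    (hn : k < n) : Rig.FormallyRigid 𝒞 n := by
  rw [formallyRigid_iff]
  obtain ⟨r, T, hf, hF, hs⟩ := H94_gen.main_frig 𝒞.distinct 𝒞.nonconcurrent h hk hn
  exact TConf.frhk_of hF (by omega) hs (by rw [hf]; exact h) _ hf.symm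

/-- Three lines. -/
theorem pos_three (𝒞 : Rig.Config 3) (h : 𝒞.ArcRigid) {n : ℕ}
    (hn : 4 ≤ n) : Rig.FormallyRigid 𝒞 n := by
  rw [formallyRigid_iff]
  obtain ⟨r, T, hf, -, -, -, hF⟩ := H94_gen.exists_conf_full 𝒞.distinct 𝒞.nonconcurrent
  exact TConf.frhk_of hF (by omega) (TConf.solv_three hF hn)
    (by change FRig T.f; rw [hf]; exact h) _ hf.symm

end

end Pool.Agent.H94_hk
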