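import Pool.Agent.H94_fr.BridgeE

/-!
# Automorphisms of power series over the coordinate ring
-/

namespace Pool.Agent.H94_hk

open PowerSeries Pool.Agent.H94_fr

noncomputable section

variable {k : ℕ} {z : Fin k → KK}

/-- The coordinate ring of the complement of the boundary. -/
abbrev CR (z : Fin k → KK) := ratioAlg z Set.univ

/-- A subalgebra of `KK` as a subalgebra of the coordinate ring. -/
def sb (z : Fin k → KK) (B : Subalgebra ℂ KK) : Subalgebra ℂ (CR z) :=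
  B.comap (ratioAlg z Set.univ).val

theorem mem_sb {B : Subalgebra ℂ KK} {x : CR z} : x ∈ sb z B ↔ (x : KK) ∈ B := Iff.rfl

theorem sb_mono {B B' : Subalgebra ℂ KK} (h : B ≤ B') : sb z B ≤ sb z B' := fun _ hx => h hx

theorem PSub_mono {A : Type*} [CommRing A] [Algebra ℂ A] {S S' : Subalgebra ℂ A} (h : S ≤ S') :
    PSub S ≤ PSub S' := fun _ hf m => h (hf m)

/-- Induction over the elements of a ratio algebra. -/
theorem ratio_induction {R : Set (Fin k × Fin k)} (p : CR z → Prop)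
    (hg : ∀ i j, (i, j) ∈ R → p (rt z i j)) (hc : ∀ c : ℂ, p (algebraMap ℂ (CR z) c))
    (ha : ∀ x y, p x → p y → p (x + y)) (hm : ∀ x y, p x → p y → p (x * y))
    {x : CR z} (hx : (x : KK) ∈ ratioAlg z R) : p x := by
  have key : ∀ x ∈ ratioAlg z R, ∀ hx : x ∈ ratioAlg z Set.univ, p ⟨x, hx⟩ := by
    intro x hx
    rw [ratioAlg] at hx
    induction hx using Algebra.adjoin_induction with
    | mem x hx =>
      obtain ⟨ab, hab, rfl⟩ := hx
      intro hx
      exact hg ab.1 ab.2 hab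
    | algebraMap c => intro hx; exact hc c
    | add x y hx' hy' hx hy =>
      intro hxy
      exact ha _ _ (hx (ratioAlg_mono (Set.subset_univ R) hx'))
        (hy (ratioAlg_mono (Set.subset_univ R) hy'))
    | mul x y hx' hy' hx hy =>
      intro hxy
      exact hm _ _ (hx (ratioAlg_mono (Set.subset_univ R) hx'))
        (hy (ratioAlg_mono (Set.subset_univ R) hy'))
  exact key x hx x.2

theorem pg_algC (φ : PG (CR z)) (c : ℂ) : φ (C (algebraMap ℂ (CR z) c)) =
    C (algebraMap ℂ (CR z) c) := by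
  have h1 : (C (algebraMap ℂ (CR z) c) : (CR z)⟦X⟧) =
      PowerSeries.map (algebraMap ℂ (CR z)) (C c) := by rw [map_C]
  rw [h1, pg_alg]

theorem Cg_of_gen {φ ψ : PG (CR z)} {m : ℕ}
    (h : ∀ i j, X ^ m ∣ φ (C (rt z i j)) - ψ (C (rt z i j))) : Cg m φ ψ := by
  apply Cg_of
  intro a
  refine ratio_induction (R := Set.univ) (fun a => X ^ m ∣ φ (C a) - ψ (C a))
    (fun i j _ => h i j) ?_ ?_ ?_ a.2
  · intro c
    rw [pg_algC, pg_algC, sub_self]
    exact dvd_zero _
  · intro x y hx hy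
    rw [map_add, map_add, map_add]
    have : φ (C x) + φ (C y) - (ψ (C x) + ψ (C y)) = (φ (C x) - ψ (C x)) + (φ (C y) - ψ (C y)) := by
      ring
    rw [this]
    exact dvd_add hx hy
  · intro x y hx hy
    rw [map_mul, map_mul, map_mul]
    have : φ (C x) * φ (C y) - ψ (C x) * ψ (C y) = (φ (C x) - ψ (C x)) * φ (C y) +
      ψ (C x) * (φ (C y) - ψ (C y)) := by ring
    rw [this]
    exact dvd_add (hx.mul_right _) (hy.mul_left _)

theorem pg_ext_gen {φ ψ : PG (CR z)} (h : ∀ i j, φ (C (rt z i j)) = ψ (C (rt z i j))) : φ = ψ :=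
  eq_of_Cg fun _ => Cg_of_gen fun i j => by rw [h, sub_self]; exact dvd_zero _

theorem KE_of_gen {φ : PG (CR z)} {R : Set (Fin k × Fin k)}
    (h : ∀ i j, (i, j) ∈ R → φ (C (rt z i j)) ∈ PSub (sb z (ratioAlg z R))) :
    KE (sb z (ratioAlg z R)) φ := by
  refine KP_of (φ := (φ : (CR z)⟦X⟧ →ₐ[ℂ⟦X⟧] (CR z)⟦X⟧)) fun a ha => ?_
  refine ratio_induction (R := R)
    (fun a => φ (C a) ∈ PSub (sb z (ratioAlg z R))) (fun i j hij => h i j hij) ?_ ?_ ?_ ha
  · intro c
    rw [pg_algC]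
    exact C_mem_PSub (Subalgebra.algebraMap_mem _ c)
  · intro x y hx hy
    rw [map_add, map_add]; exact add_mem hx hy
  · intro x y hx hy
    rw [map_mul, map_mul]; exact mul_mem hx hy

/-- The multiplicative defect of an automorphism on the ratios. -/
def Wd (χ : PG (CR z)) (i j : Fin k) : (CR z)⟦X⟧ := χ (C (rt z i j)) * C (rt z j i)

section

variable (hz0 : ∀ i, z i ≠ 0)
include hz0

theorem C_rt_mul (i j l : Fin k) : (C (rt z i j) : (CR z)⟦X⟧) * C (rt z j l) = C (rt z i l) := by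
  rw [← map_mul, rt_mul hz0]

theorem C_rt_self (i : Fin k) : (C (rt z i i) : (CR z)⟦X⟧) = 1 := by
  rw [rt_self hz0, map_one]

theorem Wd_spec (χ : PG (CR z)) (i j : Fin k) : χ (C (rt z i j)) = C (rt z i j) * Wd χ i j := by
  have h1 := C_rt_mul hz0 i j i
  rw [C_rt_self hz0] at h1
  rw [Wd]
  linear_combination (-(χ (C (rt z i j)))) * h1

theorem Wd_mul (χ : PG (CR z)) (i j l : Fin k) : Wd χ i j * Wd χ j l = Wd χ i l := by
  rw [Wd, Wd, Wd, ← C_rt_mul hz0 i j l, ← C_rt_mul hz0 l j i, map_mul]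
  ring

theorem Wd_self (χ : PG (CR z)) (i : Fin k) : Wd χ i i = 1 := by
  rw [Wd, C_rt_self hz0, map_one, mul_one]

theorem Wd_comp (φ ψ : PG (CR z)) (i j : Fin k) : Wd (φ * ψ) i j = Wd φ i j * φ (Wd ψ i j) := by
  have h1 : Wd φ i j = φ (C (rt z i j)) * C (rt z j i) := rfl
  change φ (ψ (C (rt z i j))) * C (rt z j i) = _
  rw [Wd_spec hz0 ψ, map_mul, h1]
  ring

theorem Wd_one (i j : Fin k) : Wd (1 : PG (CR z)) i j = 1 := by
  rw [Wd]
  change C (rt z i j) * C (rt z j i) = 1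
  rw [C_rt_mul hz0, C_rt_self hz0]

theorem Wd_const {χ : PG (CR z)} (hu : Uni χ) (i j : Fin k) : constantCoeff (Wd χ i j) = 1 := by
  rw [Wd, map_mul, hu, constantCoeff_C, constantCoeff_C, rt_mul hz0, rt_self hz0]

omit hz0 in
theorem coeff_Wd (χ : PG (CR z)) (i j : Fin k) (l : ℕ) :
    coeff l (Wd χ i j) = coeff l (χ (C (rt z i j))) * rt z j i := by
  rw [Wd, coeff_mul_C]

end

/-! ### The Galois action -/

theorem sigma_z {n : ℕ} (hn : 0 < n) {l : Fin k → R3}
    (hz : ∀ i, z i ^ n = algebraMap R3 KK (l i)) (hz0 : ∀ i, z i ≠ 0) (σ : KK ≃ₐ[F3] KK)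
    (i : Fin k) : ∃ c : ℂ, σ (z i) = algebraMap ℂ KK c * z i := by
  have h1 : (σ (z i) / z i) ^ n = 1 := by
    rw [div_pow, ← map_pow, hz, IsScalarTower.algebraMap_apply R3 F3 KK, AlgEquiv.commutes,
      div_self]
    rw [← IsScalarTower.algebraMap_apply R3 F3 KK, ← hz]
    exact pow_ne_zero _ (hz0 i)
  obtain ⟨c, hc⟩ := root_of_unity_mem n hn _ h1
  exact ⟨c, by rw [hc, div_mul_cancel₀ _ (hz0 i)]⟩

theorem sigma_alg (σ : KK ≃ₐ[F3] KK) (c : ℂ) : σ (algebraMap ℂ KK c) = algebraMap ℂ KK c := by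
  rw [IsScalarTower.algebraMap_apply ℂ F3 KK, AlgEquiv.commutes]

/-- The automorphism maps the coordinate ring to itself, acting on the ratios by constants. -/
structure Acts (z : Fin k → KK) (σ : KK ≃ₐ[F3] KK) : Prop where
  z : ∀ i, ∃ c : ℂ, σ (z i) = algebraMap ℂ KK c * z i

theorem Acts.ratio {σ : KK ≃ₐ[F3] KK} (h : Acts z σ) (i j : Fin k) :
    ∃ c : ℂ, σ (z i / z j) = algebraMap ℂ KK c * (z i / z j) := by
  obtain ⟨a, ha⟩ := h.z i
  obtain ⟨b, hb⟩ := h.z j
  refine ⟨a / b, ?_⟩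
  rw [map_div₀, ha, hb, map_div₀]
  rw [mul_div_mul_comm]

theorem Acts.mem {σ : KK ≃ₐ[F3] KK} (h : Acts z σ) {x : KK} (hx : x ∈ ratioAlg z Set.univ) :
    σ x ∈ ratioAlg z Set.univ := by
  rw [ratioAlg] at hx
  induction hx using Algebra.adjoin_induction with
  | mem x hx =>
    obtain ⟨ab, _, rfl⟩ := hx
    obtain ⟨c, hc⟩ := h.ratio ab.1 ab.2
    rw [hc]
    exact Subalgebra.mul_mem _ (Subalgebra.algebraMap_mem _ _) (ratio_mem (Set.mem_univ _))
  | algebraMap c => rw [sigma_alg]; exact Subalgebra.algebraMap_mem _ _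
  | add x y _ _ hx hy => rw [map_add]; exact Subalgebra.add_mem _ hx hy
  | mul x y _ _ hx hy => rw [map_mul]; exact Subalgebra.mul_mem _ hx hy

theorem Acts.symm (hz0 : ∀ i, z i ≠ 0) {σ : KK ≃ₐ[F3] KK} (h : Acts z σ) : Acts z σ.symm := by
  refine ⟨fun i => ?_⟩
  obtain ⟨c, hc⟩ := h.z i
  have hc0 : c ≠ 0 := by
    rintro rfl
    rw [map_zero, zero_mul] at hc
    have := σ.injective (hc.trans (map_zero σ).symm)
    exact hz0 i this
  refine ⟨c⁻¹, ?_⟩
  apply σ.injective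
  rw [AlgEquiv.apply_symm_apply, map_mul, sigma_alg, hc, ← mul_assoc, ← map_mul,
    inv_mul_cancel₀ hc0, map_one, one_mul]

/-- The action on the coordinate ring. -/
def sgA (hz0 : ∀ i, z i ≠ 0) {σ : KK ≃ₐ[F3] KK} (h : Acts z σ) : CR z ≃ₐ[ℂ] CR z where
  toFun x := ⟨σ x, h.mem x.2⟩
  invFun x := ⟨σ.symm x, (h.symm hz0).mem x.2⟩
  left_inv x := Subtype.ext (σ.symm_apply_apply _)
  right_inv x := Subtype.ext (σ.apply_symm_apply _)
  map_mul' x y := Subtype.ext (map_mul σ _ _)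
  map_add' x y := Subtype.ext (map_add σ _ _)
  commutes' c := Subtype.ext (sigma_alg σ c)

/-- The coefficientwise extension of an automorphism to power series. -/
def mapPG {A : Type*} [CommRing A] [Algebra ℂ A] (e : A ≃ₐ[ℂ] A) : PG A where
  toFun f := PowerSeries.map (e : A →+* A) f
  invFun f := PowerSeries.map (e.symm : A →+* A) f
  left_inv f := by
    ext m
    rw [coeff_map, coeff_map]
    exact e.symm_apply_apply _
  right_inv f := by
    ext m
    rw [coeff_map, coeff_map]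
    exact e.apply_symm_apply _
  map_mul' f g := map_mul _ _ _
  map_add' f g := map_add _ _ _
  commutes' c := by
    ext m
    rw [algebraMap_apply'', coeff_map, coeff_map]
    exact e.commutes _

theorem mapPG_coeff {A : Type*} [CommRing A] [Algebra ℂ A] (e : A ≃ₐ[ℂ] A) (f : A⟦X⟧) (m : ℕ) :
    coeff m (mapPG e f) = e (coeff m f) := by
  change coeff m (PowerSeries.map (e : A →+* A) f) = _
  rw [coeff_map]
  rfl

theorem mapPG_C {A : Type*} [CommRing A] [Algebra ℂ A] (e : A ≃ₐ[ℂ] A) (a : A) :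
    mapPG e (C a) = C (e a) := by
  change PowerSeries.map (e : A →+* A) (C a) = _
  rw [map_C]
  rfl

theorem F0_of_fixed {x : KK} (h : ∀ σ : KK ≃ₐ[F3] KK, σ x = x) : x ∈ F0 := by
  have hmem := (InfiniteGalois.mem_bot_iff_fixed (k := F3) (K := KK) x).mpr h
  rw [IntermediateField.mem_bot] at hmem
  exact hmem

theorem fixed_of_F0 {x : KK} (h : x ∈ F0) (σ : KK ≃ₐ[F3] KK) : σ x = x := by
  obtain ⟨y, rfl⟩ := h
  exact σ.commutes y

namespace TConf

variable {r : ℕ} {T : TConf k r} {n : ℕ} (h : T.Rts n z)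
include h

theorem acts (σ : KK ≃ₐ[F3] KK) : Acts z σ := ⟨fun i => sigma_z h.pos h.hz h.hz0 σ i⟩

end TConf

end

end Pool.Agent.H94_hk
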