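import Pool.Agent.H94_hk.Bridge3
import Pool.Agent.H94_fr.Auto2

/-!
# Projection to the invariant part, and functions regular along a curve
-/

namespace Pool.Agent.H94_hk

open MvPolynomial

noncomputable section

/-- The elements of `KK` that are rational functions. -/
def F0 : Subalgebra ℂ KK := (IsScalarTower.toAlgHom ℂ F3 KK).range

theorem mem_F0 {x : KK} : x ∈ F0 ↔ ∃ y : F3, algebraMap F3 KK y = x := Iff.rfl

theorem alg_mem_F0 (P : R3) : algebraMap R3 KK P ∈ F0 :=
  ⟨algebraMap R3 F3 P, (IsScalarTower.algebraMap_apply R3 F3 KK P).symm⟩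

theorem F0_inv {x : KK} (h : x ∈ F0) : x⁻¹ ∈ F0 := by
  obtain ⟨y, rfl⟩ := h
  exact ⟨y⁻¹, map_inv₀ _ _⟩

namespace TConf

variable {k r : ℕ} {T : TConf k r} {z : Fin k → KK} {n : ℕ}

theorem exists_pr0 (hn : 0 < n) (hz : ∀ i, z i ^ n = algebraMap R3 KK (T.L i)) :
    ∃ pr : KK →ₗ[F3] KK, (∀ x, pr x ∈ F0) ∧ (∀ x ∈ F0, pr x = x) ∧
      ∀ (y : KK) (a : Fin k → Fin n), y ∈ F0 → (∃ i, (a i : ℕ) ≠ 0) →
        pr (y * ∏ i, z i ^ (a i : ℕ)) = 0 := by
  let ι : ((Fin k → Fin n) → F3) →ₗ[F3] KK :=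
    ∑ a, (LinearMap.proj a).smulRight (∏ i, z i ^ (a i : ℕ))
  have hι : ∀ φ, ι φ = ∑ a, algebraMap F3 KK (φ a) * ∏ i, z i ^ (a i : ℕ) := by
    intro φ
    simp [ι, LinearMap.sum_apply, Algebra.smul_def]
  have hinj : LinearMap.ker ι = ⊥ := by
    rw [LinearMap.ker_eq_bot']
    intro φ hφ
    rw [hι] at hφ
    funext a
    exact kummer_indep hn T.L z hz T.L_prime (fun i j hij ha => T.not_L_dvd_L hij ha.dvd) φ hφ a
  obtain ⟨ρ, hρ⟩ := LinearMap.exists_leftInverse_of_injective ι hinj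
  let a0 : Fin k → Fin n := fun _ => ⟨0, hn⟩
  have key : ∀ (y : F3) (a : Fin k → Fin n),
      ρ (algebraMap F3 KK y * ∏ i, z i ^ (a i : ℕ)) = Pi.single a y := by
    intro y a
    have h1 : ι (Pi.single a y) = algebraMap F3 KK y * ∏ i, z i ^ (a i : ℕ) := by
      rw [hι, Finset.sum_eq_single a]
      · rw [Pi.single_eq_same]
      · intro b _ hb
        rw [Pi.single_eq_of_ne hb, map_zero, zero_mul]
      · intro h; exact absurd (Finset.mem_univ a) h
    rw [← h1]
    exact LinearMap.congr_fun hρ _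
  refine ⟨(Algebra.linearMap F3 KK).comp ((LinearMap.proj a0).comp ρ), fun x => ⟨_, rfl⟩, ?_, ?_⟩
  · rintro x ⟨y, rfl⟩
    have h1 := key y a0
    have h2 : ∏ i, z i ^ (a0 i : ℕ) = 1 := by simp [a0]
    rw [h2, mul_one] at h1
    change algebraMap F3 KK (ρ (algebraMap F3 KK y) a0) = algebraMap F3 KK y
    rw [h1, Pi.single_eq_same]
  · rintro x a ⟨y, rfl⟩ ⟨i, hi⟩
    change algebraMap F3 KK (ρ (algebraMap F3 KK y * _) a0) = 0
    rw [key y a, Pi.single_eq_of_ne, map_zero]
    intro h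
    apply hi
    rw [← h]

/-- The basic assumptions. -/
structure Rts (T : TConf k r) (n : ℕ) (z : Fin k → KK) : Prop where
  full : T.Full
  hn : 2 ≤ n
  hz : ∀ i, z i ^ n = algebraMap R3 KK (T.L i)

namespace Rts

variable (h : T.Rts n z)
include h

theorem pos : 0 < n := by have := h.hn; omega

theorem hz0 : ∀ i, z i ≠ 0 := z_ne_zero h.pos T.L z h.hz T.L_prime

end Rts

/-- The projection to the invariant part. -/
def pr0 (h : T.Rts n z) : KK →ₗ[F3] KK := (exists_pr0 h.pos h.hz).choose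

variable (h : T.Rts n z)

theorem pr0_mem (x : KK) : pr0 h x ∈ F0 := (exists_pr0 h.pos h.hz).choose_spec.1 x

theorem pr0_of_mem {x : KK} (hx : x ∈ F0) : pr0 h x = x :=
  (exists_pr0 h.pos h.hz).choose_spec.2.1 x hx

theorem pr0_prod {y : KK} {a : Fin k → Fin n} (hy : y ∈ F0) (ha : ∃ i, (a i : ℕ) ≠ 0) :
    pr0 h (y * ∏ i, z i ^ (a i : ℕ)) = 0 :=
  (exists_pr0 h.pos h.hz).choose_spec.2.2 y a hy ha

theorem pr0_mul {y : KK} (hy : y ∈ F0) (x : KK) : pr0 h (y * x) = y * pr0 h x := by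
  obtain ⟨y, rfl⟩ := hy
  change pr0 h (algebraMap F3 KK y * x) = algebraMap F3 KK y * pr0 h x
  rw [← Algebra.smul_def, map_smul, Algebra.smul_def]

theorem pr0_csmul (c : ℂ) (x : KK) : pr0 h (c • x) = c • pr0 h x := by
  rw [Algebra.smul_def, Algebra.smul_def]
  exact pr0_mul h (F0.algebraMap_mem c) x

/-- Exponents divisible by `n`. -/
def Dv (n : ℕ) (e : Fin k → ℤ) : Prop := ∀ i, (n : ℤ) ∣ e i

include h in
theorem zm_mem_F0 {e : Fin k → ℤ} (he : Dv n e) : zm z e ∈ F0 := by
  choose q hq using he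
  have h1 : zm z e = ∏ i, (algebraMap R3 KK (T.L i)) ^ q i := by
    rw [zm]
    refine Finset.prod_congr rfl fun i _ => ?_
    rw [hq i, zpow_mul, zpow_natCast, h.hz]
  rw [h1]
  refine prod_mem fun i _ => ?_
  rcases q i with m | m
  · rw [Int.ofNat_eq_natCast, zpow_natCast]
    exact pow_mem (alg_mem_F0 _) _
  · rw [zpow_negSucc]
    exact F0_inv (pow_mem (alg_mem_F0 _) _)

theorem pr0_zm_of {e : Fin k → ℤ} (he : Dv n e) : pr0 h (zm z e) = zm z e :=
  pr0_of_mem h (zm_mem_F0 h he)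

theorem pr0_zm_not {e : Fin k → ℤ} (he : ¬ Dv n e) : pr0 h (zm z e) = 0 := by
  have hn := h.pos
  have h1 : zm z e = zm z (fun i => (n : ℤ) * (e i / n)) * ∏ i, z i ^ (ra hn e i : ℕ) := by
    rw [prod_zm, ← zm_add h.hz0]
    congr 1
    funext i
    have h2 : ((ra hn e i : ℕ) : ℤ) = e i % n := by
      have h1 := Int.emod_nonneg (e i) (b := n) (by omega)
      exact Int.toNat_of_nonneg h1
    rw [Pi.add_apply, h2]
    have := Int.mul_ediv_add_emod (e i) n
    omega
  rw [h1]
  apply pr0_prod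
  · exact zm_mem_F0 h fun i => Dvd.intro _ rfl
  · by_contra hcon
    push Not at hcon
    apply he
    intro i
    have h2 := hcon i
    have h3 : ((ra hn e i : ℕ) : ℤ) = e i % n := by
      have h1 := Int.emod_nonneg (e i) (b := n) (by omega)
      exact Int.toNat_of_nonneg h1
    rw [h2] at h3
    exact Int.dvd_of_emod_eq_zero h3.symm

theorem pr0_span {S : Set (Fin k → ℤ)} {x : KK} (hx : x ∈ Submodule.span ℂ (zm z '' S)) :
    pr0 h x ∈ Submodule.span ℂ (zm z '' {e | e ∈ S ∧ Dv n e}) := by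
  induction hx using Submodule.span_induction with
  | mem x hx =>
    obtain ⟨e, he, rfl⟩ := hx
    by_cases hd : Dv n e
    · rw [pr0_zm_of h hd]
      exact Submodule.subset_span ⟨e, ⟨he, hd⟩, rfl⟩
    · rw [pr0_zm_not h hd]; exact zero_mem _
  | zero => rw [map_zero]; exact zero_mem _
  | add x y _ _ hx hy => rw [map_add]; exact add_mem hx hy
  | smul c x _ hx => rw [pr0_csmul]; exact Submodule.smul_mem _ _ hx

/-- The functions regular along a curve. -/
def RD (T : TConf k r) (z : Fin k → KK) (D : Crv k r) : Subalgebra ℂ KK :=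
  ratioAlg z {ab | T.val D ab.2 ≤ T.val D ab.1}

include h in
theorem zm_mem_RD {D : Crv k r} {e : Fin k → ℤ} (hs : ∑ i, e i = 0) (ho : 0 ≤ T.ord D e) :
    zm z e ∈ RD T z D := by
  have hz0 := h.hz0
  -- a line on `D` and a line off `D`
  obtain ⟨c, w, hc, hw⟩ : ∃ c w, T.val D c = 1 ∧ T.val D w = 0 := by
    rcases D with i | q
    · obtain ⟨w, hw, _⟩ := h.full.exists_third i i
      exact ⟨i, w, by simp [val], by simp [val, Ne.symm hw]⟩
    · obtain ⟨c, hc⟩ := h.full.ok.ne q
      obtain ⟨w, hw⟩ := h.full.out q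
      exact ⟨c, w, by simp [val, hc], by simp [val, hw]⟩
  have hg : ∀ l, rv l (if T.val D l = 0 then w else c) ∈ expMon hz0 (RD T z D) ∧
      -rv l (if T.val D l = 0 then w else c) ∈ expMon hz0 (RD T z D) := by
    intro l
    rw [neg_rv]
    have h1 := T.val_le_one D l
    split_ifs with h2
    · exact ⟨rv_mem hz0 (by simp only [Set.mem_ofPred_eq]; omega),
        rv_mem hz0 (by simp only [Set.mem_ofPred_eq]; omega)⟩
    · exact ⟨rv_mem hz0 (by simp only [Set.mem_ofPred_eq]; omega),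
        rv_mem hz0 (by simp only [Set.mem_ofPred_eq]; omega)⟩
  have heq : e = ∑ l, e l • rv l (if T.val D l = 0 then w else c) + (T.ord D e) • rv c w := by
    have h1 : ∑ l, e l • rv l (if T.val D l = 0 then w else c) =
        e - ∑ l, e l • (Pi.single (if T.val D l = 0 then w else c) 1 : Fin k → ℤ) := by
      simp only [rv, smul_sub, Finset.sum_sub_distrib]
      congr 1
      funext m
      simp [Finset.sum_apply, Pi.single_apply]
    have h2 : ∑ l, e l • (Pi.single (if T.val D l = 0 then w else c) 1 : Fin k → ℤ) =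
        ∑ l, (e l • (Pi.single w 1 : Fin k → ℤ) + ((T.val D l : ℤ) * e l) • rv c w) := by
      refine Finset.sum_congr rfl fun l _ => ?_
      have h1 := T.val_le_one D l
      split_ifs with h3
      · rw [h3]; simp
      · have : T.val D l = 1 := by omega
        rw [this, rv]; simp [smul_sub]
    rw [h1, h2, Finset.sum_add_distrib, ← Finset.sum_smul, ← Finset.sum_smul, hs, zero_smul,
      zero_add, ord]
    abel
  change e ∈ expMon hz0 (RD T z D)
  rw [heq]
  refine AddSubmonoid.add_mem _ (AddSubmonoid.sum_mem _ fun l _ =>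
    zsmul_mem_of (hg l).1 (Or.inr (hg l).2)) ?_
  refine zsmul_mem_of (rv_mem hz0 ?_) (Or.inl ho)
  simp only [Set.mem_ofPred_eq]
  omega

include h in
theorem mem_RD {D : Crv k r} {x : KK} : x ∈ RD T z D ↔
    x ∈ Submodule.span ℂ (zm z '' {e | ∑ i, e i = 0 ∧ 0 ≤ T.ord D e}) := by
  constructor
  · intro hx
    exact ratioAlg_le_span h.hz0 (T.Mon D) (fun ab hab => by
      refine ⟨sum_rv _ _, ?_⟩
      rw [ord_rv]
      have : T.val D ab.2 ≤ T.val D ab.1 := hab
      omega) hx
  · intro hx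
    have : Submodule.span ℂ (zm z '' {e | ∑ i, e i = 0 ∧ 0 ≤ T.ord D e}) ≤
        Subalgebra.toSubmodule (RD T z D) := by
      rw [Submodule.span_le]
      rintro _ ⟨e, ⟨he1, he2⟩, rfl⟩
      exact zm_mem_RD h he1 he2
    exact this hx

theorem chart_le_RD {D D' : Crv k r} (hm : T.meet D D') :
    ratioAlg z (T.chart D D') ≤ RD T z D := by
  apply ratioAlg_mono
  intro ab hab
  exact T.chart_val hm hab

theorem chart_le_RD' {D D' : Crv k r} (hm : T.meet D D') :
    ratioAlg z (T.chart D D') ≤ RD T z D' := by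
  rw [T.chart_symm]
  exact chart_le_RD (T.meet_symm hm)

include h in
theorem RD_eq_sup {D D' D'' : Crv k r} (hm : T.meet D D') (hm' : T.meet D D'') (hne : D' ≠ D'') :
    ratioAlg z (T.chart D D') ⊔ ratioAlg z (T.chart D D'') = RD T z D := by
  apply le_antisymm
  · exact sup_le (chart_le_RD hm) (chart_le_RD hm')
  · rw [ratioAlg_sup, RD, ratioAlg, Algebra.adjoin_le_iff]
    rintro f ⟨⟨i, j⟩, hab, rfl⟩
    by_cases hij : i = j
    · subst hij
      change z i / z i ∈ _
      rw [div_self (h.hz0 i)]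
      exact Subalgebra.one_mem _
    · exact ratio_mem (T.chart_union hm hm' hne hij hab)

theorem RD_le_univ (D : Crv k r) : RD T z D ≤ ratioAlg z Set.univ :=
  ratioAlg_mono (Set.subset_univ _)

/-- Keeping only one isotypic component of a regular function. -/
theorem comp_mem_RD {D : Crv k r} {x : KK} (hx : x ∈ RD T z D) (i j : Fin k) :
    z i / z j * pr0 h (z j / z i * x) ∈ RD T z D := by
  rw [mem_RD h] at hx ⊢
  induction hx using Submodule.span_induction with
  | mem x hx =>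
    obtain ⟨e, he, rfl⟩ := hx
    rw [← zm_rv h.hz0, ← zm_rv h.hz0, ← zm_add h.hz0]
    by_cases hd : Dv n (rv j i + e)
    · rw [pr0_zm_of h hd, ← zm_add h.hz0]
      refine Submodule.subset_span ⟨e, he, ?_⟩
      congr 1
      rw [← add_assoc, ← neg_rv i j, add_neg_cancel, zero_add]
    · rw [pr0_zm_not h hd, mul_zero]; exact zero_mem _
  | zero => rw [mul_zero, map_zero, mul_zero]; exact zero_mem _
  | add x y _ _ hx hy => rw [mul_add, map_add, mul_add]; exact add_mem hx hy
  | smul c x _ hx =>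
    rw [mul_smul_comm, pr0_csmul, mul_smul_comm]; exact Submodule.smul_mem _ _ hx

include h in
theorem mem_univ_span {x : KK} (hx : x ∈ ratioAlg z Set.univ) :
    x ∈ Submodule.span ℂ (zm z '' {e | ∑ i, e i = 0}) := by
  let M0 : AddSubmonoid (Fin k → ℤ) :=
    { carrier := {e | ∑ i, e i = 0}
      zero_mem' := by simp
      add_mem' := by
        intro a b ha hb
        change ∑ i, (a + b) i = 0
        have ha' : ∑ i, a i = 0 := ha
        have hb' : ∑ i, b i = 0 := hb
        simp [Finset.sum_add_distrib, ha', hb'] }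
  exact ratioAlg_le_span h.hz0 M0 (fun ab _ => sum_rv ab.1 ab.2) hx

theorem pr0_mem_univ {x : KK} (hx : x ∈ ratioAlg z Set.univ) :
    pr0 h x ∈ ratioAlg z Set.univ := by
  have i0 : Fin k := ⟨0, by have := h.full.k3; omega⟩
  have h1 := pr0_span h (mem_univ_span h hx)
  have : Submodule.span ℂ (zm z '' {e | e ∈ {e | ∑ i, e i = 0} ∧ Dv n e}) ≤
      Subalgebra.toSubmodule (ratioAlg z Set.univ) := by
    rw [Submodule.span_le]
    rintro _ ⟨e, ⟨he1, _⟩, rfl⟩
    exact zm_mem_univ h.hz0 i0 he1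
  exact this h1

theorem ord_dvd {D : Crv k r} {e : Fin k → ℤ} (hd : Dv n e) : (n : ℤ) ∣ T.ord D e :=
  Finset.dvd_sum fun i _ => (hd i).mul_left _

include h in
/-- Invariant functions with a pole of order less than `n` are regular. -/
theorem regular_of_mem_F0 {D : Crv k r} {x : KK} (h0 : x ∈ F0)
    (hx : x ∈ Submodule.span ℂ (zm z '' {e | ∑ i, e i = 0 ∧ -(n : ℤ) < T.ord D e})) :
    x ∈ RD T z D := by
  rw [mem_RD h]
  have h1 := pr0_span h hx
  rw [pr0_of_mem h h0] at h1
  refine Submodule.span_mono (Set.image_mono ?_) h1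
  rintro e ⟨⟨he1, he2⟩, he3⟩
  refine ⟨he1, ?_⟩
  obtain ⟨c, hc⟩ := ord_dvd (T := T) (D := D) he3
  rw [hc] at he2 ⊢
  have hn : (0 : ℤ) < n := by exact_mod_cast h.pos
  have : 0 ≤ c := by
    by_contra hc0
    have : c ≤ -1 := by omega
    nlinarith
  positivity

end TConf

end

end Pool.Agent.H94_hk
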