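import Pool.Agent.H94_fr.Gauge

/-!
# Deformation of the ratios of the forms
-/

namespace Pool.Agent.H94_hk

open PowerSeries Pool.Agent.H94_fr

noncomputable section

namespace TConf

variable {k r : ℕ} {T : TConf k r} {z : Fin k → KK} {n : ℕ}

/-- The invariant functions on a chart. -/
def Bg (T : TConf k r) (z : Fin k → KK) (D D' : Crv k r) : Subalgebra ℂ (CR z) :=
  sb z (ratioAlg z (T.chart D D') ⊓ F0)

theorem mem_Bg {D D' : Crv k r} {x : CR z} :
    x ∈ T.Bg z D D' ↔ (x : KK) ∈ ratioAlg z (T.chart D D') ∧ (x : KK) ∈ F0 := Iff.rfl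

variable (h : T.Rts n z)

theorem exists_meet (hT : T.Full) (D : Crv k r) : ∃ D', T.meet D D' := by
  rcases D with i | q
  · obtain ⟨w, hw, _⟩ := hT.exists_third i i
    exact ⟨T.nd i w, T.mem_nodes.mp (T.nd_mem hw.symm)⟩
  · obtain ⟨i, hi⟩ := hT.ok.ne q
    exact ⟨Sum.inl i, hi⟩

include h in
/-- Expansion of invariant functions. -/
theorem F0_exp {N : ℕ} {g : KK} {P : (Fin k → Fin n) → R3} (hP : T.HasExp z n N g P)
    (hg : g ∈ F0) : algebraMap R3 KK ((∏ i, T.L i) ^ N) * g =
      algebraMap R3 KK (P fun _ => ⟨0, h.pos⟩) := by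
  have h1 := congrArg (pr0 h) hP
  rw [pr0_mul h (alg_mem_F0 _), pr0_of_mem h hg, map_sum,
    Finset.sum_eq_single (fun _ => ⟨0, h.pos⟩)] at h1
  · have h2 : ∏ i : Fin k, z i ^ ((⟨0, h.pos⟩ : Fin n) : ℕ) = 1 := by simp
    rw [h2, mul_one, pr0_of_mem h (alg_mem_F0 _)] at h1
    exact h1
  · intro b _ hb
    apply pr0_prod h (alg_mem_F0 _)
    by_contra hcon
    push Not at hcon
    exact hb (funext fun i => Fin.ext (by rw [hcon i]))
  · intro h; exact absurd (Finset.mem_univ _) h

include h in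
theorem Q_ne (N : ℕ) : algebraMap R3 KK ((∏ i, T.L i) ^ N) ≠ 0 := by
  rw [alg_Q h.hz]; exact zm_ne_zero h.hz0 _

include h in
/-- Vanishing of the first cohomology of the invariant regular functions. -/
theorem h1O (x : Crv k r → Crv k r → CR z) (h0 : ∀ D D', T.meet D D' → (x D D' : KK) ∈ F0)
    (hsym : ∀ D D', T.meet D D' → x D D' = x D' D)
    (hadj : ∀ D D' D'', T.meet D D' → T.meet D D'' →
      ((x D D' - x D D'' : CR z) : KK) ∈ RD T z D) :
    ∃ y : CR z, (y : KK) ∈ F0 ∧ ∀ D D', T.meet D D' → x D D' - y ∈ T.Bg z D D' := by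
  classical
  have hz0 := h.hz0
  have hn := h.pos
  have hk3 := h.full.k3
  let i0 : Fin k := ⟨0, by omega⟩
  let a0 : Fin k → Fin n := fun _ => ⟨0, hn⟩
  have hs0 : ∑ i, (a0 i : ℕ) = 0 := by simp [a0]
  let x' : Crv k r → Crv k r → CR z := fun D D' => if T.meet D D' then x D D' else 0
  have hx' : ∀ D D', T.meet D D' → x' D D' = x D D' := fun D D' hm => if_pos hm
  have hx0 : ∀ D D', (x' D D' : KK) ∈ F0 := by
    intro D D'
    by_cases hm : T.meet D D'
    · rw [hx' D D' hm]; exact h0 D D' hm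
    · simp only [x', if_neg hm]; exact F0.zero_mem
  have h1 : ∀ p : Crv k r × Crv k r, ∃ N0, ∀ N ≥ N0, ∃ P,
      T.HasExp z n N (x' p.1 p.2 : KK) P ∧ ∀ a, P a ∈ Mhom k n N a :=
    fun p => exp_hom hn h.hz hz0 (Subtype.property _)
  have h2 : ∀ p : Crv k r × Crv k r × Crv k r, ∃ N0, ∀ N ≥ N0,
      T.meet p.1 p.2.1 → T.meet p.1 p.2.2 → ∃ P,
      T.HasExp z n N ((x' p.1 p.2.1 : KK) - (x' p.1 p.2.2 : KK)) P ∧
      ∀ a : Fin k → Fin n, P a ∈ T.J p.1 (T.sz p.1 * N - (T.ordN p.1 (fun i => (a i : ℕ)) + 0) / n)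
      := by
    intro p
    by_cases hm : T.meet p.1 p.2.1 ∧ T.meet p.1 p.2.2
    · have h3 := hadj p.1 p.2.1 p.2.2 hm.1 hm.2
      rw [← hx' _ _ hm.1, ← hx' _ _ hm.2, mem_RD h] at h3
      obtain ⟨N0, hN0⟩ := exp_ord hn h.hz hz0 p.1 0 (by
        simpa using h3 : ((x' p.1 p.2.1 : KK) - (x' p.1 p.2.2 : KK)) ∈ Submodule.span ℂ
          (zm z '' {e | ∑ i, e i = 0 ∧ -((0 : ℕ) : ℤ) ≤ T.ord p.1 e}))
      exact ⟨N0, fun N hN _ _ => hN0 N hN⟩
    · exact ⟨0, fun N _ h h' => absurd ⟨h, h'⟩ hm⟩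
  obtain ⟨b, hb⟩ := T.LBVc_zero h.full.ok 0
  choose N1 hN1 using h1
  choose N2 hN2 using h2
  set N := 1 + b + ∑ x, N1 x + ∑ x, N2 x with hN
  have le1 : ∀ x, N1 x ≤ N := by
    intro x
    have := Finset.single_le_sum (f := N1) (fun _ _ => Nat.zero_le _) (Finset.mem_univ x)
    omega
  have le2 : ∀ x, N2 x ≤ N := by
    intro x
    have := Finset.single_le_sum (f := N2) (fun _ _ => Nat.zero_le _) (Finset.mem_univ x)
    omega
  have h4 := fun x => hN1 x N (le1 x)
  choose P0 hP0 hP0' using h4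
  let G : Crv k r → Crv k r → R3 := fun D D' => P0 (D, D') a0
  have hG : ∀ D D', algebraMap R3 KK ((∏ i, T.L i) ^ N) * (x' D D' : KK) =
      algebraMap R3 KK (G D D') := fun D D' => F0_exp h (hP0 (D, D')) (hx0 D D')
  have hGh : ∀ D D', (G D D').IsHomogeneous (k * N) := by
    intro D D'
    have h5 := hP0' (D, D') a0
    rw [Mhom, if_pos (by rw [hs0]; exact dvd_zero n), MvPolynomial.mem_homogeneousSubmodule, hs0,
      Nat.zero_div, Nat.sub_zero] at h5
    exact h5
  obtain ⟨P, hPh, hP⟩ := hb (fun D => T.sz D * N) (k * N)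
    (by intro i; simp only [sz, val, Finset.sum_ite_eq, Finset.mem_univ, if_true, one_mul]; omega)
    (by simp [sz, val])
    (by intro q; simp [sz, val])
    G (by
      intro D D' hm
      apply algebraMap_R3_injective
      rw [← hG, ← hG, hx' _ _ hm, hx' _ _ (T.meet_symm hm), hsym D D' hm]) hGh (by
      intro D D' D'' hm hm'
      obtain ⟨P, hP, hP'⟩ := hN2 (D, D', D'') N (le2 _) hm hm'
      have h5 := F0_exp h hP (sub_mem (hx0 D D') (hx0 D D''))
      have h6 : G D D' - G D D'' = P a0 := by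
        apply algebraMap_R3_injective
        rw [map_sub, ← hG, ← hG, ← h5]
        ring
      rw [h6]
      have h7 := hP' a0
      have h8 : T.ordN D (fun i => (a0 i : ℕ)) = 0 := by simp [ordN, a0]
      change P a0 ∈ T.J D (T.sz D * N - (T.ordN D (fun i => (a0 i : ℕ)) + 0) / n) at h7
      rw [h8, Nat.add_zero, Nat.zero_div, Nat.sub_zero] at h7
      exact h7)
  have hQ := Q_ne h N
  have hprod : ∏ i, z i ^ (a0 i : ℕ) = 1 := by simp [a0]
  have hy : algebraMap R3 KK P / algebraMap R3 KK ((∏ i, T.L i) ^ N) ∈ ratioAlg z Set.univ := by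
    have := h.full.suf_univ h.hz hz0 i0 (a := fun i => (a0 i : ℕ)) (d := 0) (N := N)
      (by rw [hs0, zero_mul]) (Nat.zero_le _) (by rw [Nat.sub_zero]; exact hPh)
    rwa [hprod, mul_one] at this
  refine ⟨⟨_, hy⟩, ?_, ?_⟩
  · change algebraMap R3 KK P / algebraMap R3 KK ((∏ i, T.L i) ^ N) ∈ F0
    rw [div_eq_mul_inv]
    exact mul_mem (alg_mem_F0 _) (F0_inv (alg_mem_F0 _))
  · intro D D' hm
    rw [mem_Bg]
    have e1 : ((x D D' - ⟨_, hy⟩ : CR z) : KK) =
        algebraMap R3 KK (G D D' - P) / algebraMap R3 KK ((∏ i, T.L i) ^ N) := by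
      have e2 : ((x D D' - ⟨_, hy⟩ : CR z) : KK) = (x' D D' : KK) -
          algebraMap R3 KK P / algebraMap R3 KK ((∏ i, T.L i) ^ N) := by
        rw [hx' D D' hm]; rfl
      rw [e2, map_sub, ← hG, sub_div, mul_div_cancel_left₀ _ hQ]
    rw [e1]
    constructor
    · have hgb : ∀ D : Crv k r, T.gb n N (fun i => (a0 i : ℕ)) i0 i0 D = T.sz D * N := by
        intro D
        have h8 : T.ordN D (fun i => (a0 i : ℕ)) = 0 := by simp [ordN, a0]
        rw [gb, h8, if_pos rfl, Nat.add_zero, Nat.zero_div, Nat.sub_zero]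
      have := h.full.suf h.hz hz0 hm (i := i0) (j := i0) le_rfl le_rfl
        (a := fun i => (a0 i : ℕ)) (d := 0) (N := N) (by rw [hs0, zero_mul]) (Nat.zero_le _)
        (P := G D D' - P) (by rw [Nat.sub_zero]; exact (hGh D D').sub hPh)
        (by
          rw [hgb]
          have := neg_mem (hP D D' hm)
          rwa [neg_sub] at this)
        (by
          rw [hgb]
          have h5 := neg_mem (hP D' D (T.meet_symm hm))
          rw [neg_sub] at h5
          have h6 : G D' D = G D D' := by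
            apply algebraMap_R3_injective
            rw [← hG, ← hG, hx' _ _ hm, hx' _ _ (T.meet_symm hm), hsym D D' hm]
          rwa [h6] at h5)
      rwa [hprod, mul_one, div_self (hz0 i0), mul_one] at this
    · rw [div_eq_mul_inv]
      exact mul_mem (alg_mem_F0 _) (F0_inv (alg_mem_F0 _))

include h in
/-- The defects of a graded automorphism that keeps the functions regular along a curve. -/
theorem Wd_reg {D : Crv k r} {φ : PG (CR z)} (hu : Uni φ) (hk : KE (sb z (RD T z D)) φ)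
    (hG : ∀ m, Gr m φ) (i j : Fin k) : Wd φ i j ∈ PSub (sb z (RD T z D)) := by
  have hz0 := h.hz0
  have main : ∀ i j, T.val D j ≤ T.val D i → Wd φ i j ∈ PSub (sb z (RD T z D)) := by
    intro i j hij l
    have h1 := hk (C (rt z i j)) (C_mem_PSub (ratio_mem hij)) l
    have h2 : ((coeff l (φ (C (rt z i j))) : CR z) : KK) ∈ RD T z D := h1
    rw [mem_sb]
    refine regular_of_mem_F0 h (hG (l + 1) i j l (by omega)) ?_
    have h3 : ((coeff l (Wd φ i j) : CR z) : KK) =
        ((coeff l (φ (C (rt z i j))) : CR z) : KK) * zm z (rv j i) := by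
      rw [coeff_Wd, zm_rv hz0]; rfl
    rw [h3]
    rw [mem_RD h] at h2
    generalize ((coeff l (φ (C (rt z i j))) : CR z) : KK) = y at h2
    induction h2 using Submodule.span_induction with
    | mem x hx =>
      obtain ⟨e, ⟨he1, he2⟩, rfl⟩ := hx
      rw [← zm_add hz0]
      refine Submodule.subset_span ⟨_, ⟨?_, ?_⟩, rfl⟩
      · simp only [Pi.add_apply, Finset.sum_add_distrib, he1, sum_rv, add_zero]
      · rw [ord_add, ord_rv]
        have h5 := T.val_le_one D i
        have h6 := h.hn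
        omega
    | zero => rw [zero_mul]; exact zero_mem _
    | add x y _ _ hx hy => rw [add_mul]; exact add_mem hx hy
    | smul a x _ hx => rw [smul_mul_assoc]; exact Submodule.smul_mem _ _ hx
  rcases le_total (T.val D j) (T.val D i) with hv | hv
  · exact main i j hv
  · obtain ⟨v, hv1, hv2, _⟩ := PSub_inv (main j i hv) (Wd_const hz0 hu j i)
    have h1 : Wd φ i j = v := by
      have h2 := Wd_mul hz0 φ i j i
      rw [Wd_self hz0] at h2
      linear_combination v * h2 - Wd φ i j * hv2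
    rw [h1]; exact hv1

theorem PSub_le_T0 {S : Subalgebra ℂ (CR z)} (hS : S ≤ sb z F0) {f : (CR z)⟦X⟧}
    (hf : f ∈ PSub S) (m : ℕ) : T0 m f := fun l _ => hS (hf l)

include h in
/-- The deformed ratios. -/
theorem exists_Z {χ : Crv k r → Crv k r → PG (CR z)} (hχ : T.Pt z χ)
    (hG : ∀ D D' m, Gr m (χ D D')) (i i0 : Fin k) :
    ∃ Z : (CR z)⟦X⟧, Z ∈ PSub (sb z F0) ∧ constantCoeff Z = 1 ∧
      ∀ D D', T.meet D D' → Wd (χ D D') i i0 * χ D D' Z ∈ PSub (T.Bg z D D') := by
  have hz0 := h.hz0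
  have hconst : ∀ (Z : (CR z)⟦X⟧) D D', constantCoeff Z = 1 →
      constantCoeff (Wd (χ D D') i i0 * χ D D' Z) = 1 := by
    intro Z D D' hZ
    rw [map_mul, hχ.uni, hZ, Wd_const hz0 (hχ.uni D D'), one_mul]
  obtain ⟨σ, hσ1, hσ2⟩ := dep (S := (CR z)⟦X⟧)
    (fun m Z => Z ∈ PSub (sb z F0) ∧ constantCoeff Z = 1 ∧
      ∀ D D', T.meet D D' → ∀ l < m + 1,
        coeff l (Wd (χ D D') i i0 * χ D D' Z) ∈ T.Bg z D D')
    (fun m Z Z' => X ^ m ∣ Z' - Z) 1 (by
      refine ⟨one_mem _, map_one _, fun D D' hm l hl => ?_⟩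
      have : l = 0 := by omega
      subst this
      rw [coeff_zero_eq_constantCoeff_apply, hconst 1 D D' (map_one _)]
      exact Subalgebra.one_mem _) (by
      rintro m Z ⟨h1, h2, h3⟩
      let U : Crv k r → Crv k r → (CR z)⟦X⟧ := fun D D' => Wd (χ D D') i i0 * χ D D' Z
      have hU0 : ∀ D D' l, ((coeff l (U D D') : CR z) : KK) ∈ F0 := by
        intro D D' l
        have h4 : T0 (l + 1) (χ D D' Z) :=
          Gr.T0' h (hG D D' (l + 1)) (PSub_le_T0 le_rfl h1 (l + 1))
        exact ((hG D D' (l + 1) i i0).mul h4) l (by omega)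
      obtain ⟨y, hy0, hy⟩ := h1O h (fun D D' => coeff (m + 1) (U D D'))
        (fun D D' _ => hU0 D D' (m + 1))
        (fun D D' hm => by simp only [U]; rw [hχ.sym D D' hm])
        (by
          intro D D' D'' hm hm'
          set φ := χ D D' * (χ D D'')⁻¹ with hφ
          have huφ : Uni φ := (hχ.uni D D').mul (hχ.uni D D'').inv
          have hkφ := hχ.adj D D' D'' hm hm'
          have hGφ : ∀ m, Gr m φ := fun m => Gr.mul' h (hG D D' m) (Gr.inv' h (hG D D'' m))
          have hchi : χ D D' = φ * χ D D'' := by rw [hφ, inv_mul_cancel_right]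
          have hUU : U D D' = Wd φ i i0 * φ (U D D'') := by
            simp only [U]
            rw [hchi, Wd_comp hz0, map_mul, mul_assoc]
            rfl
          obtain ⟨g, hg1, hg2⟩ := exists_split (m + 1) (U D D'')
          set u := ((trunc (m + 1) (U D D'') : Polynomial (CR z)) : (CR z)⟦X⟧) with hu
          have hu1 : u ∈ PSub (sb z (RD T z D)) := by
            apply trunc_mem_PSub
            intro j hj
            exact chart_le_RD hm' (h3 D D'' hm' j hj).1
          have h5 : U D D' = Wd φ i i0 * φ u + X ^ (m + 1) * (Wd φ i i0 * φ g) := by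
            rw [hUU]
            conv_lhs => rw [hg1]
            rw [map_add, pg_X_pow_mul]
            ring
          have h6 : coeff (m + 1) (U D D') = coeff (m + 1) (Wd φ i i0 * φ u) +
              coeff (m + 1) (U D D'') := by
            rw [h5, map_add, coeff_X_pow_mul', if_pos le_rfl, Nat.sub_self,
              coeff_zero_eq_constantCoeff_apply, RingHom.map_mul, Wd_const hz0 huφ, one_mul,
              huφ, hg2]
          change ((coeff (m + 1) (U D D') - coeff (m + 1) (U D D'') : CR z) : KK) ∈ RD T z D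
          rw [h6, add_sub_cancel_right]
          exact (mul_mem (Wd_reg h huφ hkφ hGφ i i0) (hkφ u hu1)) (m + 1))
      refine ⟨Z - X ^ (m + 1) * C y, ⟨?_, ?_, ?_⟩, ?_⟩
      · exact sub_mem h1 (mul_mem (pow_mem (X_mem_PSub _) _) (C_mem_PSub hy0))
      · rw [map_sub, h2, map_mul, map_pow, constantCoeff_X, zero_pow (by omega), zero_mul,
          sub_zero]
      · intro D D' hm l hl
        have h5 : Wd (χ D D') i i0 * χ D D' (Z - X ^ (m + 1) * C y) = U D D' -
            X ^ (m + 1) * (Wd (χ D D') i i0 * χ D D' (C y)) := by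
          rw [map_sub, pg_X_pow_mul]
          simp only [U]
          ring
        rw [h5, map_sub]
        rcases Nat.lt_or_ge l (m + 1) with h6 | h6
        · rw [coeff_X_pow_mul', if_neg (by omega), sub_zero]
          exact h3 D D' hm l h6
        · have : l = m + 1 := by omega
          subst this
          rw [coeff_X_pow_mul', if_pos le_rfl, Nat.sub_self, coeff_zero_eq_constantCoeff_apply,
            RingHom.map_mul, Wd_const hz0 (hχ.uni D D'), one_mul, hχ.uni, constantCoeff_C]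
          exact hy D D' hm
      · have h5 : Z - X ^ (m + 1) * C y - Z = X ^ m * (-(X * C y)) := by ring
        rw [h5]; exact Dvd.intro _ rfl)
  obtain ⟨Z, hZ⟩ := limP σ hσ2
  refine ⟨Z, PSub_of_dvd σ hZ fun m => (hσ1 m).1, ?_, ?_⟩
  · have h1 := hZ 1
    rw [pow_one, X_dvd_iff, map_sub, (hσ1 1).2.1, sub_eq_zero] at h1
    exact h1
  · intro D D' hm l
    have h1 : X ^ (l + 1) ∣ Wd (χ D D') i i0 * χ D D' Z -
        Wd (χ D D') i i0 * χ D D' (σ (l + 1)) := by
      rw [← mul_sub, ← map_sub]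
      exact (pg_dvd _ (hZ (l + 1))).mul_left _
    have h2 := X_pow_dvd_iff.mp h1 l (by omega)
    rw [map_sub, sub_eq_zero] at h2
    rw [h2]
    exact (hσ1 (l + 1)).2.2 D D' hm l (by omega)

end TConf

end

end Pool.Agent.H94_hk
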