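import Pool.Agent.H94_hk.Stmt

/-!
# Formal rigidity of configurations and of Hirzebruch-Kummer coverings

Let `S = HK_𝒞(n)` be the Hirzebruch-Kummer covering, with its covering by the affine charts with
coordinate rings `ratioAlg z R`, and let `D` be the divisor in `S` over the lines and the
multiple points (see the file `Pool.Agent.H94_hk.Stmt`).

A formal deformation of `S` over `ℂ[[X]]` is trivial on each affine chart.  So it is given by
gluing automorphisms over `ℂ[[X]]`, one for each pair of charts, of the ring of power series with
coefficients in the coordinate ring of the intersection of the two charts; they are the identity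
modulo `X` and satisfy the cocycle condition.  These automorphisms extend uniquely to the ring
`O(S ∖ D)[[X]]`, and the cocycle condition can be checked there.  The deformation is trivial if
and only if the gluing automorphisms come from automorphisms of the charts.

The surface `S` is rigid if and only if all its formal deformations over `ℂ[[X]]` are trivial,
and a configuration is rigid if and only if all its formal deformations over `ℂ[[X]]` that keep
the incidences are projectively trivial.
-/

namespace Pool.Agent.H94_hk.Rig

noncomputable section

/-- Formal rigidity of a configuration of lines: every formal deformation `g` over `ℂ[[X]]` of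
the linear forms that keeps all the concurrent triples of lines concurrent is obtained from the
constant one by an invertible matrix `M` over `ℂ[[X]]` and rescaling of the forms. -/
def Config.ArcRigid {k : ℕ} (𝒞 : Config k) : Prop :=
  ∀ g : Fin k → Fin 3 → PowerSeries ℂ,
    (∀ i b, PowerSeries.constantCoeff (g i b) = 𝒞.form i b) →
    (∀ i j l, Matrix.det (Matrix.of ![𝒞.form i, 𝒞.form j, 𝒞.form l]) = 0 →
      Matrix.det (Matrix.of ![g i, g j, g l]) = 0) →
    ∃ (M : GL (Fin 3) (PowerSeries ℂ)) (c : Fin k → PowerSeries ℂ), ∀ i,
      g i = c i • (M : Matrix (Fin 3) (Fin 3) (PowerSeries ℂ)).mulVec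
        (fun b => PowerSeries.C (𝒞.form i b))

/-- Automorphisms over `ℂ[[X]]` of the ring of power series with coefficients in the coordinate
ring of `S ∖ D`. -/
abbrev AutX {k : ℕ} (z : Fin k → FF) : Type :=
  PowerSeries (CoordRing z) ≃ₐ[PowerSeries ℂ] PowerSeries (CoordRing z)

/-- The automorphism `φ` is the identity modulo `X`. -/
def IdModX {k : ℕ} {z : Fin k → FF} (φ : AutX z) : Prop :=
  ∀ f, PowerSeries.constantCoeff (φ f) = PowerSeries.constantCoeff f

/-- The automorphism `φ` maps power series with coefficients in `B` to power series with
coefficients in `B`. -/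
def KeepsX {k : ℕ} {z : Fin k → FF} (φ : AutX z) (B : Subalgebra ℂ FF) : Prop :=
  ∀ f, (∀ m, (PowerSeries.coeff m f : CoordRing z).toFF ∈ B) →
    ∀ m, (PowerSeries.coeff m (φ f) : CoordRing z).toFF ∈ B

/-- A formal deformation over `ℂ[[X]]` of the surface glued from the charts in `U`. -/
structure FormalDeformation {k : ℕ} (z : Fin k → FF) (U : Set (Set (Fin k × Fin k))) where
  /-- the gluing automorphisms -/
  glue : U → U → AutX z
  idModX : ∀ s t : U, IdModX (glue s t)
  keeps : ∀ s t : U, KeepsX (glue s t) (ratioAlg z s ⊔ ratioAlg z t)
  cocycle : ∀ (s t u : U) (f : PowerSeries (CoordRing z)),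
    glue s t (glue t u f) = glue s u f

/-- A formal deformation is trivial if its gluing automorphisms come from automorphisms `ψ s` of
the charts. -/
def FormalDeformation.Trivial {k : ℕ} {z : Fin k → FF} {U : Set (Set (Fin k × Fin k))}
    (F : FormalDeformation z U) : Prop :=
  ∃ ψ : U → AutX z, (∀ s : U, IdModX (ψ s)) ∧ (∀ s : U, KeepsX (ψ s) (ratioAlg z s)) ∧
    ∀ (s t : U) (f : PowerSeries (CoordRing z)), F.glue s t (ψ t f) = ψ s f

/-- Formal rigidity of the Hirzebruch-Kummer covering `S = HK_𝒞(n)`: every formal deformation of
`S` over `ℂ[[X]]` is trivial, for every choice of the `n`-th roots `zᵢ` of the linear forms. -/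
def FormallyRigid {k : ℕ} (𝒞 : Config k) (n : ℕ) : Prop :=
  ∀ z : Fin k → FF, (∀ i, z i ^ n = FF.ofPoly (lin (𝒞.form i))) →
    ∀ F : FormalDeformation z {R | 𝒞.IsChart R}, F.Trivial

end

end Pool.Agent.H94_hk.Rig
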