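import Pool.Agent.H94_fr.FrMain

/-!
# Solvability for three lines
-/

namespace Pool.Agent.H94_hk

open MvPolynomial

noncomputable section

namespace TConf

variable {k r : ℕ} {T : TConf k r}

theorem LBV_empty [IsEmpty (Fin r)] (hok : T.Ok) : ∀ (s : ℕ) (A : Crv k r → ℕ) (e : ℕ),
    ∑ i, A (Sum.inl i) = s → T.LBV e A := by
  intro s
  induction s with
  | zero =>
    intro A e hs
    have h1 : ∀ i, A (Sum.inl i) = 0 := fun i =>
      Finset.sum_eq_zero_iff.mp hs i (Finset.mem_univ i)
    have : A = fun _ => 0 := by
      funext D
      rcases D with i | q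
      · exact h1 i
      · exact isEmptyElim q
    rw [this]; exact T.LBV_zero e
  | succ s ih =>
    intro A e hs
    have h5 : ∃ i, 1 ≤ A (Sum.inl i) := by
      by_contra hcon
      push Not at hcon
      rw [Finset.sum_eq_zero (fun i _ => by have := hcon i; omega)] at hs
      omega
    obtain ⟨i, hi⟩ := h5
    let A1 : Crv k r → ℕ := fun D => match D with
      | Sum.inl j => dec A i (Sum.inl j)
      | Sum.inr q => ∑ j ∈ T.tri q, dec A i (Sum.inl j)
    have hsum := dec_sum_tri A i hi Finset.univ
    rw [if_pos (Finset.mem_univ i), hs] at hsum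
    have h1 : T.LBV e A1 := ih A1 e (by
      change ∑ j, dec A i (Sum.inl j) = s
      omega)
    have h2 := T.LBV_stepL_surj i hok.good h1 (fun q _ => rfl) (fun q => le_rfl)
    refine T.LBV_raise _ _ A h2 (fun j => ?_) (fun q => isEmptyElim q) (fun q => isEmptyElim q) rfl
    by_cases hj : j = i
    · subst hj
      rw [Function.update_self]
      change A (Sum.inl j) = dec A j (Sum.inl j) + 1
      rw [dec, Function.update_self]; omega
    · rw [Function.update_of_ne (fun h => hj (Sum.inl_injective h))]
      change A (Sum.inl j) = dec A i (Sum.inl j)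
      rw [dec, Function.update_of_ne (fun h => hj (Sum.inl_injective h))]

theorem gb_inl' (n N : ℕ) (a : Fin k → ℕ) (i j l : Fin k) : T.gb n N a i j (Sum.inl l) =
    N - (a l + if (l = i ↔ l = j) then 0 else 1) / n := by
  have h1 : T.sz (Sum.inl l : Crv k r) = 1 := by simp [sz, val]
  have h2 : T.ordN (Sum.inl l : Crv k r) a = a l := by simp [ordN, val]
  rw [gb, h1, h2, one_mul]
  congr 3
  simp only [val]
  by_cases h3 : l = i <;> by_cases h4 : l = j <;> simp [h3, h4]

/-- Solvability for three lines. -/
theorem solv_three {T : TConf 3 r} (hF : T.Full) {n : ℕ} (hn : 4 ≤ n) : T.SolvNZ n := by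
  haveI : IsEmpty (Fin r) := ⟨fun q => by
    obtain ⟨w, hw⟩ := hF.out q
    apply hw
    have h1 := hF.three q
    have h2 : T.tri q = Finset.univ := Finset.eq_univ_of_card _ (le_antisymm
      (Finset.card_le_univ _) (by rw [Fintype.card_fin]; exact h1))
    rw [h2]
    exact Finset.mem_univ w⟩
  intro a d hd
  have hm : ∃ m, (a m : ℕ) + 1 ≠ n := by
    by_contra hcon
    push Not at hcon
    rw [Fin.sum_univ_three] at hd
    have h0 := hcon 0
    have h1 := hcon 1
    have h2 := hcon 2
    rcases le_or_gt d 2 with h3 | h3
    · have h4 : d * n ≤ 2 * n := Nat.mul_le_mul_right _ h3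
      omega
    · have h4 : 3 * n ≤ d * n := Nat.mul_le_mul_right _ h3
      omega
  obtain ⟨m, hm⟩ := hm
  refine ⟨0, fun N _ G hG _ => ?_⟩
  have hR : ∀ i j, ∃ R : R3, R.IsHomogeneous (3 * N - d) ∧ ∀ D D', T.meet D D' →
      R - (G D D' i - G D D' j) ∈ T.J D (T.gb n N (fun i => (a i : ℕ)) i j D) := by
    intro i j
    exact LBV_empty hF.ok _ _ _ rfl (fun D D' => G D D' i - G D D' j)
      (fun D D' h => by simp only [hG.sym D D' h])
      (fun D D' => (hG.hom D D' i).sub (hG.hom D D' j))
      (fun D D' D'' h h' => hG.ord D D' D'' i j h h')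
  choose R hRh hR using hR
  have hgs : ∀ i j D, T.gb n N (fun i => (a i : ℕ)) i j D =
      T.gb n N (fun i => (a i : ℕ)) j i D := by
    intro i j D
    rcases D with l | q
    · rw [gb_inl', gb_inl']
      simp only [iff_comm]
    · exact isEmptyElim q
  refine ⟨fun i => if i = m then 0 else R i m, ?_⟩
  constructor
  · intro i
    by_cases h : i = m
    · simp only [if_pos h]; exact isHomogeneous_zero _ _ _
    · simp only [if_neg h]; exact hRh i m
  · intro c hc
    have hc0 : c = 0 := by
      let Φ : (Fin 3 → ℂ) →ₗ[ℂ] (Fin 3 → ℂ) :=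
        { toFun := fun b => ∑ l, b l • T.f l
          map_add' := by
            intro x y
            simp only [Pi.add_apply, add_smul, Finset.sum_add_distrib]
          map_smul' := by
            intro s x
            simp only [Pi.smul_apply, smul_eq_mul, mul_smul, Finset.smul_sum, RingHom.id_apply] }
      have hsurj : Function.Surjective Φ := by
        intro v
        obtain ⟨b, hb⟩ := hF.span v
        exact ⟨b, hb.symm⟩
      have hinj := LinearMap.injective_iff_surjective.mpr hsurj
      apply hinj
      rw [map_zero]
      exact hc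
    simp [hc0]
  · intro D D' i j hD
    by_cases hij : i = j
    · subst hij
      rw [sub_self, sub_self, sub_zero]
      exact zero_mem _
    by_cases him : i = m
    · subst him
      simp only [if_true, if_neg (Ne.symm hij)]
      have h1 := neg_mem (hR j i D D' hD)
      rw [hgs j i] at h1
      have h2 : (0 - R j i) - (G D D' i - G D D' j) = -(R j i - (G D D' j - G D D' i)) := by ring
      rw [h2]
      exact h1
    by_cases hjm : j = m
    · subst hjm
      simp only [if_true, if_neg hij]
      have h1 := hR i j D D' hD
      rw [sub_zero]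
      exact h1
    simp only [if_neg him, if_neg hjm]
    have h2 : (R i m - R j m) - (G D D' i - G D D' j) =
        (R i m - (G D D' i - G D D' m)) - (R j m - (G D D' j - G D D' m)) := by ring
    rw [h2]
    have hle : ∀ i j, i ≠ m → j ≠ m → i ≠ j →
        T.gb n N (fun i => (a i : ℕ)) i j D ≤ T.gb n N (fun i => (a i : ℕ)) i m D := by
      intro i j him hjm hij
      rcases D with l | q
      · rw [gb_inl', gb_inl']
        apply Nat.sub_le_sub_left
        by_cases hlm : l = m
        · subst hlm
          simp only [eq_comm (a := l) (b := i), eq_comm (a := l) (b := j), him, hjm, if_true,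
            add_zero, false_iff]
          have h3 : ((a l : ℕ) + 1) / n = 0 := Nat.div_eq_of_lt (by
            have := (a l).isLt
            omega)
          have h4 : ((a l : ℕ) + if (¬ True) then 0 else 1) / n = 0 := by
            simpa using h3
          rw [h4]
          exact Nat.zero_le _
        · apply Nat.div_le_div_right
          apply Nat.add_le_add_left
          by_cases hli : l = i
          · subst hli
            simp [hij, hlm]
          · simp [hli, hlm]
      · exact isEmptyElim q
    refine sub_mem (T.J_mono D (hle i j him hjm hij) (hR i m D D' hD))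
      (T.J_mono D ?_ (hR j m D D' hD))
    rw [hgs i j]
    exact hle j i hjm him (Ne.symm hij)

end TConf

end

end Pool.Agent.H94_hk
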