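import Pool.Agent.H94_fr.StmtF
import Pool.Agent.H94_fr.Three
import Pool.Agent.H94_hk.StmtOf

/-!
# The two forms of the statement of formal rigidity agree
-/

namespace Pool.Agent.H94_hk

open Pool.Agent.H94_fr

noncomputable section

/-- Triviality of all formal deformations, in the form used in the proofs. -/
def FRU {k : ℕ} (z : Fin k → KK) (U : Set (Set (Fin k × Fin k))) : Prop :=
  ∀ glue : U → U → PG (CR z), (∀ s t : U, Uni (glue s t)) →
    (∀ s t : U, KE (sb z (ratioAlg z s ⊔ ratioAlg z t)) (glue s t)) →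
    (∀ s t u : U, glue s t * glue t u = glue s u) →
    ∃ ψ : U → PG (CR z), (∀ s : U, Uni (ψ s)) ∧
      (∀ s : U, KE (sb z (ratioAlg z s)) (ψ s)) ∧ ∀ s t : U, glue s t * ψ t = ψ s

/-- Formal rigidity in the form used in the proofs. -/
def FRHK {k : ℕ} (𝒞 : Config k) (n : ℕ) : Prop :=
  ∀ z : Fin k → KK, (∀ i, z i ^ n = algebraMap R3 KK (lin (𝒞.form i))) →
    FRU z {R | 𝒞.IsChart R}

theorem formallyRigid_iff {k : ℕ} {𝒞 : Rig.Config k} {n : ℕ} :
    Rig.FormallyRigid 𝒞 n ↔ FRHK (toOld 𝒞) n := by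
  constructor
  · intro h z hz glue h1 h2 h3
    obtain ⟨ψ, e1, e2, e3⟩ := h z hz
      { glue := glue
        idModX := h1
        keeps := h2
        cocycle := fun s t u f => AlgEquiv.congr_fun (h3 s t u) f }
    exact ⟨ψ, e1, e2, fun s t => AlgEquiv.ext (e3 s t)⟩
  · intro h z hz F
    obtain ⟨ψ, e1, e2, e3⟩ := h z hz F.glue F.idModX F.keeps
      (fun s t u => AlgEquiv.ext (F.cocycle s t u))
    exact ⟨ψ, e1, e2, fun s t f => AlgEquiv.congr_fun (e3 s t) f⟩

end

end Pool.Agent.H94_hk
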