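import Pool.Agent.H94_fr.Arc

/-!
# Triviality of formal deformations
-/

namespace Pool.Agent.H94_hk

open PowerSeries Pool.Agent.H94_fr

noncomputable section

/-- Formal rigidity of a family of linear forms. -/
def FRig {k : ℕ} (form : Fin k → Fin 3 → ℂ) : Prop :=
  ∀ g : Fin k → Fin 3 → ℂ⟦X⟧, (∀ i b, constantCoeff (g i b) = form i b) →
    (∀ i j l, Matrix.det (Matrix.of ![form i, form j, form l]) = 0 →
      Matrix.det (Matrix.of ![g i, g j, g l]) = 0) →
    ∃ (M : GL (Fin 3) ℂ⟦X⟧) (c : Fin k → ℂ⟦X⟧), ∀ i,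
      g i = c i • (M : Matrix (Fin 3) (Fin 3) ℂ⟦X⟧).mulVec (fun b => C (form i b))

theorem Wd_congr {k : ℕ} {z : Fin k → KK} {m : ℕ} {φ ψ : PG (CR z)} (h : Cg m φ ψ) (i j : Fin k) :
    X ^ m ∣ Wd φ i j - Wd ψ i j := by
  rw [Wd, Wd, ← sub_mul]
  exact (h _).mul_right _

namespace TConf

variable {k r : ℕ} {T : TConf k r} {z : Fin k → KK} {n : ℕ} (h : T.Rts n z)

include h in
/-- Automorphisms with prescribed values on the ratios. -/
theorem exists_hom (i0 : Fin k) (u : Fin k → (CR z)⟦X⟧) (hu1 : ∀ i, constantCoeff (u i) = 1)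
    (hrel : ∀ e : Fin k → ℂ, ∑ i, e i • T.f i = 0 →
      ∑ i, al (C (e i)) * (C (rt z i i0 ^ n) * u i ^ n) = 0) :
    ∃ ω : PG (CR z), Uni ω ∧ ∀ i j, Wd ω i j * u j = u i := by
  have hz0 := h.hz0
  have hn0 : ((n : ℕ) : KK) ≠ 0 := by
    have := h.pos
    exact_mod_cast this.ne'
  obtain ⟨v0, _, hv0, hv1⟩ := PSub_inv (S := (⊤ : Subalgebra ℂ (CR z))) (u := u i0)
    (fun _ => Algebra.mem_top) (hu1 i0)
  let t : Fin k → (CR z)⟦X⟧ := fun i => u i * v0
  have ht1 : ∀ i, constantCoeff (t i) = 1 := by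
    intro i
    simp only [t]
    rw [map_mul, hu1, hv1, one_mul]
  have ht0 : t i0 = 1 := hv0
  have htrel : ∀ e : Fin k → ℂ, ∑ i, e i • T.f i = 0 →
      ∑ i, al (C (e i)) * (C (rt z i i0 ^ n) * t i ^ n) = 0 := by
    intro e he
    have h1 := hrel e he
    have h2 : ∑ i, al (C (e i)) * (C (rt z i i0 ^ n) * t i ^ n) =
        (∑ i, al (C (e i)) * (C (rt z i i0 ^ n) * u i ^ n)) * v0 ^ n := by
      rw [Finset.sum_mul]
      refine Finset.sum_congr rfl fun i _ => ?_
      simp only [t]
      ring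
    rw [h2, h1, zero_mul]
  obtain ⟨σ, hσ1, hσ2⟩ := dep (S := PG (CR z))
    (fun m ω => Uni ω ∧ ∀ i, X ^ (m + 1) ∣ t i - Wd ω i i0)
    (fun m ω ω' => Cg (m + 1) ω' ω) 1 (by
      refine ⟨Uni.one, fun i => ?_⟩
      rw [zero_add, pow_one, Wd_one hz0, X_dvd_iff, map_sub, ht1, map_one, sub_self]) (by
      rintro m ω ⟨hω, hm⟩
      choose p hp using hm
      have hWc : ∀ i, constantCoeff (Wd ω i i0) = 1 := fun i => Wd_const hz0 hω i i0
      have hp0 : p i0 = 0 := by
        apply X_pow_cancel (m := m + 1)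
        rw [← hp, ht0, Wd_self hz0, sub_self, mul_zero]
      obtain ⟨δ, hδ⟩ := h.full.exists_theta h.pos h.hz hz0
        (fun i => ((constantCoeff (p i) : CR z) : KK)) (fun i => Subtype.property _) (by
          intro e he
          have h1 := htrel e he
          have h2 : ∑ i, al (C (e i)) * (C (rt z i i0 ^ n) * Wd ω i i0 ^ n) = 0 := by
            have h3 := congrArg (fun x => ω (C x)) (rt_rel h.hz i0 e he)
            simp only [map_sum, map_zero] at h3
            rw [← h3]
            refine Finset.sum_congr rfl fun i _ => ?_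
            rw [Algebra.smul_def, map_mul, map_mul, pg_algC, map_pow, map_pow, Wd_spec hz0,
              mul_pow, al, map_C]
          have h3 : ∀ i, t i ^ n - Wd ω i i0 ^ n = X ^ (m + 1) * (p i *
              ∑ s ∈ Finset.range n, t i ^ s * Wd ω i i0 ^ (n - 1 - s)) := by
            intro i
            rw [← (Commute.all (t i) (Wd ω i i0)).mul_geom_sum₂, hp i]
            ring
          have h4 : X ^ (m + 1) * ∑ i, al (C (e i)) * (C (rt z i i0 ^ n) * (p i *
              ∑ s ∈ Finset.range n, t i ^ s * Wd ω i i0 ^ (n - 1 - s))) = X ^ (m + 1) * 0 := by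
            have h5 : ∑ i, al (C (e i)) * (C (rt z i i0 ^ n) * (t i ^ n - Wd ω i i0 ^ n)) = 0 := by
              simp only [mul_sub, Finset.sum_sub_distrib]
              rw [h1, h2, sub_self]
            rw [mul_zero, ← h5, Finset.mul_sum]
            refine Finset.sum_congr rfl fun i _ => ?_
            rw [h3 i]
            ring
          have h5 := congrArg constantCoeff (X_pow_cancel h4)
          rw [map_sum, map_zero] at h5
          have h6 : ∀ i, constantCoeff (al (C (e i)) * (C (rt z i i0 ^ n) * (p i *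
              ∑ s ∈ Finset.range n, t i ^ s * Wd ω i i0 ^ (n - 1 - s)))) =
              algebraMap ℂ (CR z) (e i) * (rt z i i0 ^ n * (constantCoeff (p i) * (n : CR z))) := by
            intro i
            rw [map_mul, map_mul, map_mul, constantCoeff_C, map_sum]
            have h7 : ∑ s ∈ Finset.range n, constantCoeff (t i ^ s * Wd ω i i0 ^ (n - 1 - s)) =
                (n : CR z) := by
              have h8 : ∀ s ∈ Finset.range n,
                  constantCoeff (t i ^ s * Wd ω i i0 ^ (n - 1 - s)) = 1 := by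
                intro s _
                rw [map_mul, map_pow, map_pow, ht1, hWc, one_pow, one_pow, one_mul]
              rw [Finset.sum_congr rfl h8]
              simp
            rw [h7]
            congr 1
          simp only [h6] at h5
          have h7 := congrArg (Subtype.val) h5
          have h8 : ((∑ i, algebraMap ℂ (CR z) (e i) * (rt z i i0 ^ n *
              (constantCoeff (p i) * (n : CR z))) : CR z) : KK) =
              ∑ i, algebraMap ℂ KK (e i) * ((z i / z i0) ^ n *
                (((constantCoeff (p i) : CR z) : KK) * (n : KK))) := by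
            rw [AddSubmonoidClass.coe_finsetSum]
            refine Finset.sum_congr rfl fun i _ => ?_
            push_cast
            rfl
          rw [h8] at h7
          have h9 : ∑ i, algebraMap ℂ KK (e i) * ((z i / z i0) ^ n *
                (((constantCoeff (p i) : CR z) : KK) * (n : KK))) = (n / z i0 ^ n) *
              ∑ i, algebraMap ℂ KK (e i) * (algebraMap R3 KK (T.L i) *
                ((constantCoeff (p i) : CR z) : KK)) := by
            rw [Finset.mul_sum]
            refine Finset.sum_congr rfl fun i _ => ?_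
            rw [div_pow, h.hz i]; ring
          rw [h9] at h7
          exact (mul_eq_zero.mp h7).resolve_left (div_ne_zero hn0 (pow_ne_zero _ (hz0 i0))))
      obtain ⟨ψ, hψ1, hψ2, hψ3, _⟩ := exists_ex δ (m := m + 1) (by omega)
      refine ⟨ω * ψ, ⟨hω.mul hψ2, fun i => ?_⟩, ?_⟩
      · have hq : ∃ q, Wd ψ i i0 = 1 + X ^ (m + 1) * q := by
          obtain ⟨q, hq⟩ := Wd_congr hψ1 i i0
          rw [Wd_one hz0] at hq
          exact ⟨q, by rw [← hq]; ring⟩
        obtain ⟨q, hq⟩ := hq
        have hqc : constantCoeff q = constantCoeff (p i) := by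
          have h1 := congrArg (coeff (m + 1)) hq
          rw [map_add, coeff_one, if_neg (by omega), zero_add, coeff_X_pow_mul',
            if_pos le_rfl, Nat.sub_self, coeff_zero_eq_constantCoeff_apply, coeff_Wd, hψ3] at h1
          rw [← h1]
          apply Subtype.ext
          have h2 : ((δ (rt z i i0) * rt z i0 i : CR z) : KK) =
              (δ (rt z i i0) : KK) * (z i0 / z i) := rfl
          rw [h2, hδ, hp0, map_zero, ZeroMemClass.coe_zero, sub_zero]
          have h3 := hz0 i
          have h4 := hz0 i0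
          field_simp
        have h1 : t i - Wd (ω * ψ) i i0 = X ^ (m + 1) * (p i - Wd ω i i0 * ω q) := by
          rw [Wd_comp hz0, hq, map_add, map_one, pg_X_pow_mul]
          linear_combination hp i
        rw [h1, pow_succ _ (m + 1)]
        refine mul_dvd_mul_left _ (X_dvd_iff.mpr ?_)
        rw [map_sub, map_mul, hWc, one_mul, hω, hqc, sub_self]
      · have := (Cg.refl (m + 1) ω).mul hψ1
        rwa [mul_one] at this)
  obtain ⟨ω, hω1, hω2⟩ := limG σ (hσ1 0).1 hσ2
  have hω3 : ∀ i, Wd ω i i0 = t i := by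
    intro i
    apply eq_of_dvd_all
    intro m
    have h1 : Wd ω i i0 - t i = (Wd ω i i0 - Wd (σ m) i i0) - (t i - Wd (σ m) i i0) := by ring
    rw [h1]
    exact (pow_dvd_pow X (Nat.le_succ m)).trans
      (dvd_sub (Wd_congr (hω2 m) i i0) ((hσ1 m).2 i))
  refine ⟨ω, hω1, fun i j => ?_⟩
  have h1 := Wd_mul hz0 ω i j i0
  rw [hω3, hω3] at h1
  have h2 : ∀ i, t i * u i0 = u i := by
    intro i
    simp only [t]
    linear_combination u i * hv0
  linear_combination u i0 * h1 - Wd ω i j * h2 j + h2 i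

theorem f_indep' {i j : Fin k} (hij : i ≠ j) {x y : ℂ} (hxy : x • T.f i + y • T.f j = 0) :
    x = 0 ∧ y = 0 := by
  have h1 := congrArg (fun v => v ⬝ᵥ T.pb i) hxy
  simp only [add_dotProduct, smul_dotProduct, T.fb, smul_eq_mul, mul_zero, zero_add,
    zero_dotProduct] at h1
  have hy : y = 0 := (mul_eq_zero.mp h1).resolve_right (T.fjb i j hij)
  subst hy
  have h2 := congrArg (fun v => v ⬝ᵥ T.pc i) hxy
  simp only [add_dotProduct, smul_dotProduct, T.fc, smul_eq_mul, mul_one, zero_mul, add_zero,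
    zero_dotProduct] at h2
  exact ⟨h2, rfl⟩

theorem concurrent_tri (hT : T.Full) {i j l : Fin k} (hij : i ≠ j) (hil : i ≠ l) (hjl : j ≠ l)
    (hdet : Matrix.det (Matrix.of ![T.f i, T.f j, T.f l]) = 0) :
    ∃ q, i ∈ T.tri q ∧ j ∈ T.tri q ∧ l ∈ T.tri q := by
  obtain ⟨v, hv0, hv⟩ := Matrix.exists_vecMul_eq_zero_iff.mpr hdet
  have hvv : v 0 • T.f i + v 1 • T.f j + v 2 • T.f l = 0 := by
    funext b
    have h1 := congrFun hv b
    simp only [Matrix.vecMul, dotProduct, Fin.sum_univ_three, Matrix.of_apply, Matrix.cons_val_zero,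
      Matrix.cons_val_one, Matrix.cons_val_two, Matrix.head_cons, Matrix.tail_cons,
      Pi.zero_apply] at h1
    simp only [Pi.add_apply, Pi.smul_apply, smul_eq_mul, Pi.zero_apply]
    exact h1
  have hv2 : v 2 ≠ 0 := by
    intro h2
    rw [h2, zero_smul, add_zero] at hvv
    obtain ⟨h3, h4⟩ := f_indep' hij hvv
    apply hv0
    funext b
    fin_cases b
    · exact h3
    · exact h4
    · exact h2
  have hl : ∀ p : Fin 3 → ℂ, T.f i ⬝ᵥ p = 0 → T.f j ⬝ᵥ p = 0 → T.f l ⬝ᵥ p = 0 := by
    intro p h1 h2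
    have h3 := congrArg (fun v => v ⬝ᵥ p) hvv
    simp only [add_dotProduct, smul_dotProduct, h1, h2, smul_eq_mul, mul_zero, zero_add,
      zero_dotProduct] at h3
    exact (mul_eq_zero.mp h3).resolve_left hv2
  rcases T.dbl_or hij with hd | ⟨q, hiq, hjq⟩
  · exfalso
    set p := T.pa i + T.tj i j • T.pb i with hpdef
    have hp1 : T.du i ⬝ᵥ p = 1 := by
      rw [hpdef, dotProduct_add, dotProduct_smul, T.ua, T.ub]; simp
    have hp : p ≠ 0 := by
      intro h0
      rw [h0, dotProduct_zero] at hp1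
      exact zero_ne_one hp1
    have hi : T.f i ⬝ᵥ p = 0 := by
      rw [hpdef, dotProduct_add, dotProduct_smul, T.fa, T.fb]; simp
    have hj : T.f j ⬝ᵥ p = 0 := by
      rw [hpdef, dotProduct_add, dotProduct_smul, smul_eq_mul, tj,
        div_mul_cancel₀ _ (T.fjb i j hij)]
      ring
    rcases (through_dbl hT.ok hd hp hi hj l).mp (hl p hi hj) with h3 | h3
    · exact hil h3.symm
    · exact hjl h3.symm
  · exact ⟨q, hiq, hjq, (T.mem_tri l q).mpr (hl _ ((T.mem_tri i q).mp hiq) ((T.mem_tri j q).mp hjq))⟩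

theorem det_of_comb {R : Type*} [CommRing R] {a b c : Fin 3 → R} {x y : R}
    (h : ∀ s, c s = x * b s + y * a s) : Matrix.det (Matrix.of ![a, b, c]) = 0 := by
  rw [Matrix.det_fin_three]
  simp only [Matrix.of_apply, Matrix.cons_val_zero, Matrix.cons_val_one, Matrix.cons_val_two,
    Matrix.head_cons, Matrix.tail_cons, h]
  ring

include h in
/-- Every formal deformation is trivial. -/
theorem trivial_of_frig (hs : T.SolvNZ n) (hfr : FRig T.f)
    {χ : Crv k r → Crv k r → PG (CR z)} (hχ : T.Pt z χ) :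
    ∃ (Ψ : Crv k r → Crv k r → PG (CR z)) (Ω : PG (CR z)), T.Gg z Ψ ∧ Uni Ω ∧
      ∀ D D', χ D D' = Ψ D D' * Ω := by
  have hz0 := h.hz0
  have hk3 := h.full.k3
  let i0 : Fin k := ⟨0, by omega⟩
  obtain ⟨Ψ1, Ω1, hΨ1, hΩ1, hgr⟩ := gauge h hs hχ
  set χ1 : Crv k r → Crv k r → PG (CR z) := fun D D' => (Ψ1 D D')⁻¹ * χ D D' * Ω1 with hχ1
  have hP1 : T.Pt z χ1 := Pt.gauge h hχ hΨ1 hΩ1
  obtain ⟨Z, hZ1, hZ2, g, hg0, hgq, hgr'⟩ := exists_arc h hP1 hgr i0
  obtain ⟨M, c, hMc⟩ := hfr g hg0 (by
    intro i j l hdet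
    by_cases hij : i = j
    · subst hij
      rw [Matrix.det_fin_three]
      simp only [Matrix.of_apply, Matrix.cons_val_zero, Matrix.cons_val_one, Matrix.cons_val_two,
        Matrix.head_cons, Matrix.tail_cons]
      ring
    by_cases hil : i = l
    · subst hil
      rw [Matrix.det_fin_three]
      simp only [Matrix.of_apply, Matrix.cons_val_zero, Matrix.cons_val_one, Matrix.cons_val_two,
        Matrix.head_cons, Matrix.tail_cons]
      ring
    by_cases hjl : j = l
    · subst hjl
      rw [Matrix.det_fin_three]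
      simp only [Matrix.of_apply, Matrix.cons_val_zero, Matrix.cons_val_one, Matrix.cons_val_two,
        Matrix.head_cons, Matrix.tail_cons]
      ring
    obtain ⟨q, h1, h2, h3⟩ := concurrent_tri h.full hij hil hjl hdet
    obtain ⟨β, β', hβ⟩ := hgq q i h1 j h2 l h3 hij
    exact det_of_comb hβ)
  -- the constants
  have hT := h.full
  set M0 : GL (Fin 3) ℂ := Matrix.GeneralLinearGroup.map (constantCoeff (R := ℂ)) M with hM0
  have hM0e : ∀ a b, (M0 : Matrix (Fin 3) (Fin 3) ℂ) a b =
      constantCoeff ((M : Matrix (Fin 3) (Fin 3) ℂ⟦X⟧) a b) := fun _ _ => rfl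
  have hc0 : ∀ i, T.f i = constantCoeff (c i) • (M0 : Matrix (Fin 3) (Fin 3) ℂ).mulVec (T.f i) := by
    intro i
    funext b
    have h1 := congrArg constantCoeff (congrFun (hMc i) b)
    rw [hg0, Pi.smul_apply, smul_eq_mul, map_mul] at h1
    rw [h1, Pi.smul_apply, smul_eq_mul]
    congr 1
    simp only [Matrix.mulVec, dotProduct, map_sum, map_mul, constantCoeff_C, hM0e]
  have hcne : ∀ i, constantCoeff (c i) ≠ 0 := by
    intro i h0
    have h1 := hc0 i
    rw [h0, zero_smul] at h1
    have h2 := T.fc i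
    rw [h1, zero_dotProduct] at h2
    exact zero_ne_one h2
  have hN0 : ∀ i, ((M0⁻¹ : GL (Fin 3) ℂ) : Matrix (Fin 3) (Fin 3) ℂ).mulVec (T.f i) =
      constantCoeff (c i) • T.f i := by
    intro i
    conv_lhs => rw [hc0 i]
    rw [Matrix.mulVec_smul, Matrix.mulVec_mulVec, ← Units.val_mul, inv_mul_cancel, Units.val_one,
      Matrix.one_mulVec]
  have hroot : ∀ i, ∃ γ : ℂ⟦X⟧, constantCoeff γ = 1 ∧
      γ ^ n = C (constantCoeff (c i)) * (c i)⁻¹ := by
    intro i
    apply exists_root h.pos
    rw [map_mul, constantCoeff_C, constantCoeff_inv, mul_inv_cancel₀ (hcne i)]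
  choose γ hγ1 hγ2 using hroot
  have hrel : ∀ e : Fin k → ℂ, ∑ i, e i • T.f i = 0 →
      ∑ i, al (C (e i)) * (C (rt z i i0 ^ n) * (al (γ i) * Z i) ^ n) = 0 := by
    intro e he
    have h1 := hgr' (fun i => C (e i) * γ i ^ n) (by
      intro b
      have h2 : ∀ i, C (e i) * γ i ^ n * g i b =
          (M : Matrix (Fin 3) (Fin 3) ℂ⟦X⟧).mulVec (fun b => C
            (((M0⁻¹ : GL (Fin 3) ℂ) : Matrix (Fin 3) (Fin 3) ℂ).mulVec (e i • T.f i) b)) b := by
        intro i
        have h3 : (c i)⁻¹ * c i = 1 := PowerSeries.inv_mul_cancel _ (hcne i)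
        rw [Matrix.mulVec_smul, hN0, hγ2, hMc i, Pi.smul_apply, smul_eq_mul]
        have h4 : (fun b => C ((e i • constantCoeff (c i) • T.f i) b) : Fin 3 → ℂ⟦X⟧) =
            (C (e i) * C (constantCoeff (c i))) • (fun b => C (T.f i b)) := by
          funext b
          simp only [Pi.smul_apply, smul_eq_mul, map_mul]
          ring
        rw [h4, Matrix.mulVec_smul, Pi.smul_apply, smul_eq_mul]
        linear_combination (C (e i) * C (constantCoeff (c i)) *
          (M : Matrix (Fin 3) (Fin 3) ℂ⟦X⟧).mulVec (fun b => C (T.f i b)) b) * h3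
      simp only [h2]
      have h3 : ∑ i, (M : Matrix (Fin 3) (Fin 3) ℂ⟦X⟧).mulVec (fun b => C
            (((M0⁻¹ : GL (Fin 3) ℂ) : Matrix (Fin 3) (Fin 3) ℂ).mulVec (e i • T.f i) b)) b =
          (M : Matrix (Fin 3) (Fin 3) ℂ⟦X⟧).mulVec (fun b => C
            (((M0⁻¹ : GL (Fin 3) ℂ) : Matrix (Fin 3) (Fin 3) ℂ).mulVec
              (∑ i, e i • T.f i) b)) b := by
        simp only [Matrix.mulVec_sum, Matrix.mulVec, dotProduct, Finset.sum_apply, map_sum,
          Finset.mul_sum]
        rw [Finset.sum_comm]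
        refine Finset.sum_congr rfl fun s _ => ?_
        rw [Finset.sum_comm]
      rw [h3, he, Matrix.mulVec_zero]
      simp [Matrix.mulVec, dotProduct])
    rw [← h1]
    refine Finset.sum_congr rfl fun i _ => ?_
    simp only [al, map_mul, map_pow]
    ring
  obtain ⟨ω, hω1, hω2⟩ := exists_hom h i0 (fun i => al (γ i) * Z i) (fun i => by
    rw [map_mul, hZ1, mul_one]
    have h1 : constantCoeff (al (γ i) : (CR z)⟦X⟧) =
        algebraMap ℂ (CR z) (constantCoeff (γ i)) := rfl
    rw [h1, hγ1, map_one]) hrel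
  have hψ : T.Gg z (fun D D' => χ1 D D' * ω) := by
    refine ⟨fun D D' => (hP1.uni D D').mul hω1, fun D D' hm => ?_, fun D D' hm => ?_⟩
    · change χ1 D D' * ω = χ1 D' D * ω
      rw [hP1.sym D D' hm]
    · have hle : T.Bg z D D' ≤ sb z (ratioAlg z (T.chart D D')) := fun x hx => hx.1
      have hWd : ∀ i j, Wd (χ1 D D' * ω) i j ∈ PSub (sb z (ratioAlg z (T.chart D D'))) := by
        intro i j
        set U : Fin k → (CR z)⟦X⟧ := fun i => al (γ i) * (Wd (χ1 D D') i i0 * χ1 D D' (Z i))
          with hU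
        have hUmem : ∀ i, U i ∈ PSub (T.Bg z D D') := fun i =>
          mul_mem (alg_mem_PSub _ _) (hZ2 i D D' hm)
        have hUc : constantCoeff (U j) = 1 := by
          simp only [hU]
          rw [map_mul, map_mul, Wd_const hz0 (hP1.uni D D'), hP1.uni, hZ1, mul_one, mul_one]
          have h1 : constantCoeff (al (γ j) : (CR z)⟦X⟧) =
              algebraMap ℂ (CR z) (constantCoeff (γ j)) := rfl
          rw [h1, hγ1, map_one]
        obtain ⟨w, hw, hw1, _⟩ := PSub_inv (hUmem j) hUc
        have h1 : Wd (χ1 D D' * ω) i j * U j = U i := by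
          have h2 := congrArg (χ1 D D') (hω2 i j)
          rw [map_mul, map_mul, map_mul] at h2
          have h3 : ∀ i, χ1 D D' (al (γ i)) = al (γ i) := fun i => pg_alg _ _
          rw [h3, h3] at h2
          have h4 := Wd_mul hz0 (χ1 D D') i j i0
          rw [Wd_comp hz0]
          simp only [hU]
          linear_combination (Wd (χ1 D D') i j * Wd (χ1 D D') j i0) * h2 +
            (al (γ i) * χ1 D D' (Z i)) * h4
        have h2 : Wd (χ1 D D' * ω) i j = U i * w := by
          linear_combination w * h1 - Wd (χ1 D D' * ω) i j * hw1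
        rw [h2]
        exact PSub_mono hle (mul_mem (hUmem i) hw)
      refine KE_of_gen fun i j hij => ?_
      rw [Wd_spec hz0]
      exact mul_mem (C_mem_PSub (ratio_mem hij)) (hWd i j)
  refine ⟨fun D D' => Ψ1 D D' * (χ1 D D' * ω), ω⁻¹ * Ω1⁻¹, hΨ1.mul hψ, hω1.inv.mul hΩ1.inv,
    fun D D' => ?_⟩
  simp only [hχ1]
  group

end TConf

end

end Pool.Agent.H94_hk
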